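import Mathlib
import Pool.Agent.Helper602.MK.J5b

/-! Mean squares of correlations. -/

set_option autoImplicit false

namespace Pool.Agent.H806.PD
open Finset
open Pool.Agent.Helper602.MK (ee)
open Pool.Agent.Helper602.MK.N_J5b (ee_add ee_zero ee_conj norm_ee ee_int ee_nat_mul ee_eq_one_iff)

lemma orthZ (M : ℕ) (hM : 1 ≤ M) (z : ℤ) (hz : |z| < M) :
    ∑ ξ ∈ range M, ee ((ξ : ℝ) * (z / M)) = if z = 0 then (M : ℂ) else 0 := by
  have hM0 : (M : ℝ) ≠ 0 := by exact_mod_cast (by omega : M ≠ 0)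
  split_ifs with h
  · subst h
    simp only [Int.cast_zero, zero_div, mul_zero, ee_zero, sum_const, card_range, nsmul_eq_mul, mul_one]
  · have h1 : ∀ ξ ∈ range M, ee ((ξ : ℝ) * (z / M)) = ee ((z : ℝ) / M) ^ ξ := fun ξ _ => ee_nat_mul ξ _
    rw [sum_congr rfl h1]
    have h2 : ee ((z : ℝ) / M) ≠ 1 := by
      intro h3
      rw [ee_eq_one_iff] at h3
      obtain ⟨n, hn⟩ := h3
      rw [div_eq_iff hM0] at hn
      have h4 : z = n * M := by exact_mod_cast hn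
      rcases eq_or_ne n 0 with h5 | h5
      · rw [h5, zero_mul] at h4; exact h h4
      · have h6 : 1 ≤ |n| := Int.one_le_abs h5
        have h7 : |z| = |n| * M := by rw [h4, abs_mul, Nat.abs_cast]
        have : (M : ℤ) ≤ |n| * M := le_mul_of_one_le_left (by positivity) h6
        omega
    have h3 := mul_geom_sum (ee ((z : ℝ) / M)) M
    have h4 : ee ((z : ℝ) / M) ^ M = 1 := by
      rw [← ee_nat_mul, mul_div_cancel₀ _ hM0, ee_int]
    rw [h4, sub_self] at h3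
    rcases mul_eq_zero.1 h3 with h5 | h5
    · exact absurd (sub_eq_zero.1 h5) h2
    · exact h5

lemma parsevalS (M : ℕ) (hM : 1 ≤ M) (S : Finset ℕ) (hS : S ⊆ range M) (a : ℕ → ℂ) :
    ∑ ξ ∈ range M, ‖∑ n ∈ S, a n * ee ((ξ : ℝ) * (n / M))‖ ^ 2 = M * ∑ n ∈ S, ‖a n‖ ^ 2 := by
  have h1 : ((∑ ξ ∈ range M, ‖∑ n ∈ S, a n * ee ((ξ : ℝ) * (n / M))‖ ^ 2 : ℝ) : ℂ) =
      ∑ n ∈ S, ∑ n' ∈ S, (a n * (starRingEnd ℂ) (a n')) * ∑ ξ ∈ range M, ee ((ξ : ℝ) * ((((n : ℤ) - n' : ℤ) : ℝ) / M)) := by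
    push_cast
    have h2 : ∀ ξ ∈ range M, ((‖∑ n ∈ S, a n * ee ((ξ : ℝ) * (n / M))‖ : ℂ)) ^ 2 = ∑ n ∈ S, ∑ n' ∈ S,
        (a n * (starRingEnd ℂ) (a n')) * ee ((ξ : ℝ) * (((n : ℝ) - n') / M)) := by
      intro ξ _
      rw [← Complex.mul_conj', map_sum, sum_mul_sum]
      apply sum_congr rfl; intro n _
      apply sum_congr rfl; intro n' _
      rw [map_mul, ee_conj]
      have e : ee ((ξ : ℝ) * (((n : ℝ) - n') / M)) = ee ((ξ : ℝ) * (n / M)) * ee (-((ξ : ℝ) * (n' / M))) := by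
        rw [← ee_add]; congr 1; ring
      rw [e]; ring
    rw [sum_congr rfl h2, sum_comm]
    apply sum_congr rfl; intro n _
    rw [sum_comm]
    apply sum_congr rfl; intro n' _
    rw [mul_sum]
  have h3 : ∀ n ∈ S, ∀ n' ∈ S, ∑ ξ ∈ range M, ee ((ξ : ℝ) * ((((n : ℤ) - n' : ℤ) : ℝ) / M)) = if n = n' then (M : ℂ) else 0 := by
    intro n hn n' hn'
    have g1 := mem_range.1 (hS hn)
    have g2 := mem_range.1 (hS hn')
    rw [orthZ M hM _ (by rw [abs_lt]; omega)]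
    by_cases h : n = n'
    · rw [if_pos h, if_pos (by omega)]
    · rw [if_neg h, if_neg (by omega)]
  have h4 : ((∑ ξ ∈ range M, ‖∑ n ∈ S, a n * ee ((ξ : ℝ) * (n / M))‖ ^ 2 : ℝ) : ℂ) =
      ((M * ∑ n ∈ S, ‖a n‖ ^ 2 : ℝ) : ℂ) := by
    rw [h1]
    push_cast
    rw [mul_sum]
    apply sum_congr rfl; intro n hn
    calc ∑ n' ∈ S, (a n * (starRingEnd ℂ) (a n')) * ∑ ξ ∈ range M, ee ((ξ : ℝ) * (((n : ℝ) - n') / M))
        = ∑ n' ∈ S, (a n * (starRingEnd ℂ) (a n')) * (if n = n' then (M : ℂ) else 0) := by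
          apply sum_congr rfl; intro n' hn'
          have := h3 n hn n' hn'
          push_cast at this
          rw [this]
      _ = M * ‖a n‖ ^ 2 := by
          simp only [mul_ite, mul_zero]
          rw [sum_ite_eq, if_pos hn, Complex.mul_conj']
          ring
  exact_mod_cast h4

/-- the mean square of the correlations -/
theorem variance (N : ℕ) (f g : ℕ → ℂ) (F : ℝ)
    (hF : (∀ β : ℝ, ‖∑ n ∈ Ioc 0 N, f n * ee (β * n)‖ ≤ F)) :
    ∑ h ∈ range (N + 1), ‖∑ n ∈ Ioc 0 N, ∑ m ∈ Ioc 0 N, (if m = n + h then f n * g m else 0)‖ ^ 2 ≤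
      F ^ 2 * ∑ m ∈ Ioc 0 N, ‖g m‖ ^ 2 := by
  set M : ℕ := 2 * N + 1 with hM
  have hM1 : 1 ≤ M := by omega
  have hMr : (0 : ℝ) < M := by exact_mod_cast hM1
  set A : ℕ → ℂ := fun ξ => ∑ n ∈ Ioc 0 N, f n * ee ((ξ : ℝ) * (n / M)) with hA
  set B : ℕ → ℂ := fun ξ => ∑ m ∈ Ioc 0 N, g m * ee (-((ξ : ℝ) * (m / M))) with hB
  have hc : ∀ h ∈ range (N + 1), ∑ n ∈ Ioc 0 N, ∑ m ∈ Ioc 0 N, (if m = n + h then f n * g m else 0) =
      (1 / M : ℂ) * ∑ ξ ∈ range M, (A ξ * B ξ) * ee ((ξ : ℝ) * (h / M)) := by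
    intro h hh
    rw [mem_range] at hh
    have h1 : ∑ ξ ∈ range M, (A ξ * B ξ) * ee ((ξ : ℝ) * (h / M)) =
        ∑ n ∈ Ioc 0 N, ∑ m ∈ Ioc 0 N, (f n * g m) * ∑ ξ ∈ range M, ee ((ξ : ℝ) * ((((n : ℤ) + h - m : ℤ) : ℝ) / M)) := by
      have h2 : ∀ ξ ∈ range M, (A ξ * B ξ) * ee ((ξ : ℝ) * (h / M)) = ∑ n ∈ Ioc 0 N, ∑ m ∈ Ioc 0 N,
          (f n * g m) * ee ((ξ : ℝ) * ((((n : ℤ) + h - m : ℤ) : ℝ) / M)) := by
        intro ξ _
        simp only [hA, hB]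
        rw [sum_mul_sum, sum_mul]
        apply sum_congr rfl; intro n _
        rw [sum_mul]
        apply sum_congr rfl; intro m _
        have e : ee ((ξ : ℝ) * ((((n : ℤ) + h - m : ℤ) : ℝ) / M)) =
            ee ((ξ : ℝ) * (n / M)) * ee (-((ξ : ℝ) * (m / M))) * ee ((ξ : ℝ) * (h / M)) := by
          rw [← ee_add, ← ee_add]; congr 1; push_cast; ring
        rw [e]; ring
      rw [sum_congr rfl h2, sum_comm]
      apply sum_congr rfl; intro n _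
      rw [sum_comm]
      apply sum_congr rfl; intro m _
      rw [mul_sum]
    rw [h1, mul_sum]
    apply sum_congr rfl; intro n hn
    rw [mul_sum]
    apply sum_congr rfl; intro m hm
    rw [mem_Ioc] at hn hm
    rw [orthZ M hM1 _ (by rw [abs_lt]; omega)]
    have hMc : (M : ℂ) ≠ 0 := by exact_mod_cast (by omega : M ≠ 0)
    by_cases h3 : m = n + h
    · rw [if_pos h3, if_pos (by omega)]; field_simp
    · rw [if_neg h3, if_neg (by omega)]; ring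
  have h5 : ∑ h ∈ range (N + 1), ‖∑ n ∈ Ioc 0 N, ∑ m ∈ Ioc 0 N, (if m = n + h then f n * g m else 0)‖ ^ 2 ≤
      ∑ h ∈ range M, (1 / (M : ℝ)) ^ 2 * ‖∑ ξ ∈ range M, (A ξ * B ξ) * ee ((h : ℝ) * (ξ / M))‖ ^ 2 := by
    have h6 : ∀ h ∈ range (N + 1), ‖∑ n ∈ Ioc 0 N, ∑ m ∈ Ioc 0 N, (if m = n + h then f n * g m else 0)‖ ^ 2 =
        (1 / (M : ℝ)) ^ 2 * ‖∑ ξ ∈ range M, (A ξ * B ξ) * ee ((h : ℝ) * (ξ / M))‖ ^ 2 := by
      intro h hh
      rw [hc h hh, norm_mul, mul_pow]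
      congr 1
      · simp
      · congr 2
        apply sum_congr rfl; intro ξ _
        congr 2; ring
    rw [sum_congr rfl h6]
    exact sum_le_sum_of_subset_of_nonneg (range_subset_range.2 (by omega)) fun _ _ _ => by positivity
  refine h5.trans ?_
  rw [← mul_sum, parsevalS M hM1 (range M) subset_rfl]
  have h7 : ∀ ξ ∈ range M, ‖A ξ * B ξ‖ ^ 2 ≤ F ^ 2 * ‖∑ m ∈ Ioc 0 N, (starRingEnd ℂ) (g m) * ee ((ξ : ℝ) * (m / M))‖ ^ 2 := by
    intro ξ _
    have e : ‖B ξ‖ = ‖∑ m ∈ Ioc 0 N, (starRingEnd ℂ) (g m) * ee ((ξ : ℝ) * (m / M))‖ := by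
      rw [← RCLike.norm_conj (B ξ)]
      congr 1
      simp only [hB]
      rw [map_sum]
      apply sum_congr rfl; intro m _
      rw [map_mul, ee_conj, neg_neg]
    rw [norm_mul, mul_pow, e]
    apply mul_le_mul_of_nonneg_right _ (by positivity)
    apply pow_le_pow_left₀ (norm_nonneg _)
    have h8 := hF ((ξ : ℝ) / M)
    have e2 : A ξ = ∑ n ∈ Ioc 0 N, f n * ee ((ξ : ℝ) / M * n) := by
      simp only [hA]
      apply sum_congr rfl; intro n _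
      congr 2; ring
    rw [e2]; exact h8
  have h9 : ∑ ξ ∈ range M, ‖A ξ * B ξ‖ ^ 2 ≤ F ^ 2 * (M * ∑ m ∈ Ioc 0 N, ‖g m‖ ^ 2) := by
    refine (sum_le_sum h7).trans ?_
    rw [← mul_sum, parsevalS M hM1 (Ioc 0 N) (fun x hx => by rw [mem_Ioc] at hx; rw [mem_range]; omega)]
    apply le_of_eq
    congr 2
    apply sum_congr rfl; intro m _
    rw [RCLike.norm_conj]
  calc (1 / (M : ℝ)) ^ 2 * (M * ∑ ξ ∈ range M, ‖A ξ * B ξ‖ ^ 2)
      ≤ (1 / (M : ℝ)) ^ 2 * (M * (F ^ 2 * (M * ∑ m ∈ Ioc 0 N, ‖g m‖ ^ 2))) := by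
        apply mul_le_mul_of_nonneg_left _ (by positivity)
        exact mul_le_mul_of_nonneg_left h9 hMr.le
    _ = _ := by field_simp

/-- the same with a bound for the second function -/
theorem variance' (N : ℕ) (f g : ℕ → ℂ) (F : ℝ)
    (hF : (∀ β : ℝ, ‖∑ n ∈ Ioc 0 N, g n * ee (β * n)‖ ≤ F)) :
    ∑ h ∈ range (N + 1), ‖∑ n ∈ Ioc 0 N, ∑ m ∈ Ioc 0 N, (if m = n + h then f n * g m else 0)‖ ^ 2 ≤
      F ^ 2 * ∑ n ∈ Ioc 0 N, ‖f n‖ ^ 2 := by
  -- reflect: n -> N + 1 - n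
  have h1 := variance N (fun n => g (N + 1 - n)) (fun n => f (N + 1 - n)) F (by
    intro β
    have e : ∑ n ∈ Ioc 0 N, g (N + 1 - n) * ee (β * n) = ee (β * (N + 1)) * ∑ n ∈ Ioc 0 N, g n * ee (-β * n) := by
      rw [mul_sum]
      apply sum_nbij' (fun n => N + 1 - n) (fun n => N + 1 - n)
      · intro n hn; rw [mem_Ioc] at hn ⊢; omega
      · intro n hn; rw [mem_Ioc] at hn ⊢; omega
      · intro n hn; rw [mem_Ioc] at hn; show N + 1 - (N + 1 - n) = n; omega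
      · intro n hn; rw [mem_Ioc] at hn; show N + 1 - (N + 1 - n) = n; omega
      · intro n hn
        rw [mem_Ioc] at hn
        have : ee (β * n) = ee (β * (N + 1)) * ee (-β * ((N + 1 - n : ℕ) : ℝ)) := by
          rw [← ee_add, Nat.cast_sub (by omega)]; congr 1; push_cast; ring
        rw [this]; ring
    rw [e, norm_mul, norm_ee, one_mul]
    exact hF (-β))
  have e1 : ∀ h ∈ range (N + 1), ∑ n ∈ Ioc 0 N, ∑ m ∈ Ioc 0 N, (if m = n + h then g (N + 1 - n) * f (N + 1 - m) else 0) =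
      ∑ n ∈ Ioc 0 N, ∑ m ∈ Ioc 0 N, (if m = n + h then f n * g m else 0) := by
    intro h _
    rw [sum_comm]
    apply sum_nbij' (fun n => N + 1 - n) (fun n => N + 1 - n)
    · intro n hn; rw [mem_Ioc] at hn ⊢; omega
    · intro n hn; rw [mem_Ioc] at hn ⊢; omega
    · intro n hn; rw [mem_Ioc] at hn; show N + 1 - (N + 1 - n) = n; omega
    · intro n hn; rw [mem_Ioc] at hn; show N + 1 - (N + 1 - n) = n; omega
    · intro m hm
      rw [mem_Ioc] at hm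
      apply sum_nbij' (fun n => N + 1 - n) (fun n => N + 1 - n)
      · intro n hn; rw [mem_Ioc] at hn ⊢; omega
      · intro n hn; rw [mem_Ioc] at hn ⊢; omega
      · intro n hn; rw [mem_Ioc] at hn; show N + 1 - (N + 1 - n) = n; omega
      · intro n hn; rw [mem_Ioc] at hn; show N + 1 - (N + 1 - n) = n; omega
      · intro n hn
        rw [mem_Ioc] at hn
        by_cases h3 : m = n + h
        · rw [if_pos h3, if_pos (by omega)]; ring
        · rw [if_neg h3, if_neg (by omega)]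
  have e2 : ∑ m ∈ Ioc 0 N, ‖f (N + 1 - m)‖ ^ 2 = ∑ n ∈ Ioc 0 N, ‖f n‖ ^ 2 := by
    apply sum_nbij' (fun n => N + 1 - n) (fun n => N + 1 - n)
    · intro n hn; rw [mem_Ioc] at hn ⊢; omega
    · intro n hn; rw [mem_Ioc] at hn ⊢; omega
    · intro n hn; rw [mem_Ioc] at hn; show N + 1 - (N + 1 - n) = n; omega
    · intro n hn; rw [mem_Ioc] at hn; show N + 1 - (N + 1 - n) = n; omega
    · intro n _; rfl
  rw [e2] at h1
  refine le_trans (le_of_eq ?_) h1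
  apply sum_congr rfl; intro h hh
  rw [← e1 h hh]

end Pool.Agent.H806.PD
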