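import Mathlib
import Pool.Agent.H806.PD.L2

/-! From exponential sums to the numbers of points in boxes. -/

set_option autoImplicit false

namespace Pool.Agent.H806.PD
open Finset
open Pool.Agent.Helper602.MK (ee)
open Pool.Agent.Helper602.MK.N_J5b (ee_add ee_zero ee_conj norm_ee ee_int KD KD_far KD_nonneg)

/-- the Fejér kernel, shifted -/
lemma fejer_exp (K : ℕ) (v : ℝ) : ((‖∑ j ∈ range K, ee (j * v)‖ ^ 2 : ℝ) : ℂ) =
    ∑ k ∈ Ioo (-(K : ℤ)) K, (((((range K) ×ˢ (range K)).filter (fun p => (p.1 : ℤ) - p.2 = k)).card : ℕ) : ℂ) * ee (k * v) := by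
  have h1 : ((‖∑ j ∈ range K, ee (j * v)‖ ^ 2 : ℝ) : ℂ) = ∑ p ∈ (range K) ×ˢ (range K), ee (((p.1 : ℝ) - p.2) * v) := by
    push_cast
    rw [← Complex.mul_conj', map_sum, sum_mul_sum, sum_product]
    apply sum_congr rfl; intro j _
    apply sum_congr rfl; intro j' _
    rw [ee_conj, ← ee_add]
    congr 1; ring
  rw [h1]
  have h2 : ∀ p ∈ (range K) ×ˢ (range K), (p.1 : ℤ) - p.2 ∈ Ioo (-(K : ℤ)) K := by
    intro p hp
    rw [mem_product, mem_range, mem_range] at hp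
    rw [mem_Ioo]; omega
  rw [← sum_fiberwise_of_maps_to h2]
  apply sum_congr rfl; intro k _
  have h3 : ∀ p ∈ ((range K) ×ˢ (range K)).filter (fun p => (p.1 : ℤ) - p.2 = k), ee (((p.1 : ℝ) - p.2) * v) = ee (k * v) := by
    intro p hp
    rw [mem_filter] at hp
    have : ((p.1 : ℝ) - p.2) = k := by rw [← hp.2]; push_cast; ring
    rw [this]
  rw [sum_congr rfl h3, sum_const, nsmul_eq_mul]

lemma fiber_card (K : ℕ) (k : ℤ) : (((range K) ×ˢ (range K)).filter (fun p => (p.1 : ℤ) - p.2 = k)).card ≤ K := by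
  have h : (((range K) ×ˢ (range K)).filter (fun p => (p.1 : ℤ) - p.2 = k)).card ≤ (range K).card := by
    apply card_le_card_of_injOn (fun p => p.1)
    · intro p hp
      rw [mem_coe, mem_filter, mem_product] at hp
      exact hp.1.1
    · intro p hp p' hp' h
      rw [mem_coe, mem_filter] at hp hp'
      simp only at h
      ext
      · exact h
      · have := hp.2; have := hp'.2; omega
  rwa [card_range] at h

lemma fiber_card_zero (K : ℕ) : (((range K) ×ˢ (range K)).filter (fun p => (p.1 : ℤ) - p.2 = 0)).card = K := by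
  have h : ((range K) ×ˢ (range K)).filter (fun p => (p.1 : ℤ) - p.2 = 0) = (range K).image (fun j => (j, j)) := by
    ext p
    rw [mem_filter, mem_product, mem_image]
    constructor
    · rintro ⟨⟨h1, h2⟩, h3⟩
      exact ⟨p.1, h1, by ext <;> simp; omega⟩
    · rintro ⟨j, hj, rfl⟩
      exact ⟨⟨hj, hj⟩, by simp⟩
  rw [h, card_image_of_injective _ (fun a b h => (Prod.mk.inj h).1), card_range]

/-- a nonnegative trigonometric polynomial above the indicator function of an interval -/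
theorem majorant (L : ℕ) (hL : 2 ≤ L) (a b : ℝ) (hb : 0 ≤ b) :
    ∃ (C : ℤ → ℂ) (c₀ : ℝ) (T : ℝ → ℝ), C 0 = c₀ ∧ 0 ≤ c₀ ∧ c₀ ≤ b + 4 / L ∧ (∀ k, ‖C k‖ ≤ 2) ∧
      (∀ t, ((T t : ℝ) : ℂ) = ∑ k ∈ Ioo (-((L ^ 3 : ℕ) : ℤ)) (L ^ 3 : ℕ), C k * ee (k * t)) ∧
      (∀ t, 0 ≤ T t) ∧ (∀ t, Int.fract (t - a) < b → 1 ≤ T t) := by
  classical
  have hL0 : (0 : ℝ) < L := by exact_mod_cast (by omega : 0 < L)
  have hL2 : (2 : ℝ) ≤ L := by exact_mod_cast hL
  set K : ℕ := L ^ 3 with hK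
  have hK1 : 1 ≤ K := Nat.one_le_pow _ _ (by omega)
  have hKr : (K : ℝ) = (L : ℝ) ^ 3 := by rw [hK]; push_cast; ring
  have hK0 : (0 : ℝ) < K := by exact_mod_cast hK1
  rcases le_or_gt 1 (b + 2 / L) with hbig | hsmall
  · refine ⟨fun k => if k = 0 then 1 else 0, 1, fun _ => 1, by simp, by norm_num, ?_, ?_, ?_, fun _ => by norm_num, fun _ _ => le_rfl⟩
    · have : (4 : ℝ) / L = 2 / L + 2 / L := by ring
      have h0 : 0 ≤ 2 / (L : ℝ) := by positivity
      linarith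
    · intro k; show ‖(if k = 0 then (1 : ℂ) else 0)‖ ≤ 2; split_ifs <;> simp
    · intro t
      rw [sum_eq_single 0]
      · simp [ee_zero]
      · intro k _ hk; simp [hk]
      · intro h
        exact absurd (mem_Ioo.2 ⟨by omega, by omega⟩) h
  set δ : ℝ := 1 / L with hδ
  have hδ0 : 0 < δ := by positivity
  set ε₀ : ℝ := 1 / (4 * L) with hε₀
  have hε0 : 0 < ε₀ := by positivity
  -- the grid
  set c : ℕ → ℝ := fun r => a - δ + r / K with hc
  set I : Finset ℕ := (range K).filter (fun r : ℕ => (r : ℝ) / K < b + 2 / L) with hI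
  have hIc : (I.card : ℝ) ≤ K * (b + 2 / L) + 1 := by
    have h1 : I ⊆ range (⌊(K : ℝ) * (b + 2 / L)⌋₊ + 1) := by
      intro r hr
      rw [hI, mem_filter, div_lt_iff₀ hK0] at hr
      rw [mem_range, Nat.lt_succ_iff]
      apply Nat.le_floor
      linarith [hr.2]
    have h2 := card_le_card h1
    rw [card_range] at h2
    have h3 : (⌊(K : ℝ) * (b + 2 / L)⌋₊ : ℝ) ≤ K * (b + 2 / L) := Nat.floor_le (by positivity)
    have h4 : (I.card : ℝ) ≤ ((⌊(K : ℝ) * (b + 2 / L)⌋₊ + 1 : ℕ) : ℝ) := by exact_mod_cast h2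
    push_cast at h4
    linarith
  have hIK : (I.card : ℝ) ≤ K := by
    have h1 := card_filter_le (range K) (fun r : ℕ => (r : ℝ) / K < b + 2 / L)
    rw [card_range] at h1
    exact_mod_cast h1
  set W : ℤ → ℕ := fun k => (((range K) ×ˢ (range K)).filter (fun p => (p.1 : ℤ) - p.2 = k)).card with hW
  set C : ℤ → ℂ := fun k => (1 / (K : ℂ) ^ 2) * (W k : ℂ) * (∑ r ∈ I, ee (-(k * c r))) + (if k = 0 then (ε₀ : ℂ) else 0) with hC
  set T : ℝ → ℝ := fun t => (1 / (K : ℝ) ^ 2) * (∑ r ∈ I, ‖∑ j ∈ range K, ee (j * (t - c r))‖ ^ 2) + ε₀ with hT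
  have hW0 : W 0 = K := fiber_card_zero K
  have hKc : (K : ℂ) ≠ 0 := by exact_mod_cast (by omega : K ≠ 0)
  refine ⟨C, (1 / K) * I.card + ε₀, T, ?_, by positivity, ?_, ?_, ?_, fun t => by positivity, ?_⟩
  · simp only [hC]
    rw [hW0]
    simp only [Int.cast_zero, zero_mul, neg_zero, ee_zero, sum_const, nsmul_eq_mul, mul_one, if_true]
    push_cast
    field_simp
  · -- the mean
    have h1 : (1 / (K : ℝ)) * I.card ≤ b + 2 / L + 1 / K := by
      have : (1 / (K : ℝ)) * I.card ≤ (1 / K) * (K * (b + 2 / L) + 1) := mul_le_mul_of_nonneg_left hIc (by positivity)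
      refine this.trans (le_of_eq ?_)
      field_simp
    have h2 : 1 / (K : ℝ) ≤ 1 / L := by
      apply one_div_le_one_div_of_le hL0
      rw [hKr]
      exact le_self_pow₀ (by linarith) (by norm_num)
    have h3 : ε₀ ≤ 1 / L := by
      rw [hε₀]; apply one_div_le_one_div_of_le hL0; linarith
    have h4 : (4 : ℝ) / L = 2 / L + 1 / L + 1 / L := by ring
    linarith
  · intro k
    simp only [hC]
    refine (norm_add_le _ _).trans ?_
    have h1 : ‖(1 / (K : ℂ) ^ 2) * (W k : ℂ) * (∑ r ∈ I, ee (-(k * c r)))‖ ≤ 1 := by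
      rw [norm_mul, norm_mul]
      have g1 : ‖(1 / (K : ℂ) ^ 2)‖ = 1 / (K : ℝ) ^ 2 := by simp
      have g2 : ‖(W k : ℂ)‖ = (W k : ℝ) := by simp
      have g3 : ‖∑ r ∈ I, ee (-(k * c r))‖ ≤ K := by
        refine (norm_sum_le _ _).trans ?_
        simp only [norm_ee, sum_const, nsmul_eq_mul, mul_one]
        exact hIK
      have g4 : (W k : ℝ) ≤ K := Nat.cast_le.2 (fiber_card K k)
      rw [g1, g2]
      calc 1 / (K : ℝ) ^ 2 * (W k : ℝ) * ‖∑ r ∈ I, ee (-(k * c r))‖ ≤ 1 / (K : ℝ) ^ 2 * K * K := by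
            apply mul_le_mul _ g3 (norm_nonneg _) (by positivity)
            exact mul_le_mul_of_nonneg_left g4 (by positivity)
        _ = 1 := by field_simp
    have h2 : ‖(if k = 0 then (ε₀ : ℂ) else 0)‖ ≤ 1 := by
      split_ifs
      · rw [Complex.norm_real, Real.norm_of_nonneg hε0.le, hε₀, div_le_one (by positivity)]
        linarith
      · simp
    linarith
  · intro t
    simp only [hT, hC]
    simp_rw [add_mul, sum_add_distrib]
    have e1 : ∑ k ∈ Ioo (-(K : ℤ)) K, (if k = 0 then (ε₀ : ℂ) else 0) * ee (k * t) = ε₀ := by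
      rw [sum_eq_single 0]
      · simp [ee_zero]
      · intro k _ hk; rw [if_neg hk, zero_mul]
      · intro h
        exact absurd (mem_Ioo.2 ⟨by omega, by omega⟩) h
    rw [e1]
    push_cast
    congr 1
    have e2 : ∀ r ∈ I, ((‖∑ j ∈ range K, ee (j * (t - c r))‖ : ℂ)) ^ 2 =
        ∑ k ∈ Ioo (-(K : ℤ)) K, (W k : ℂ) * ee (k * (t - c r)) := by
      intro r _
      have := fejer_exp K (t - c r)
      push_cast at this
      exact this
    rw [sum_congr rfl e2, sum_comm, mul_sum]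
    apply sum_congr rfl; intro k _
    rw [← mul_sum, ← mul_assoc, mul_assoc _ _ (ee (k * t)), sum_mul]
    congr 1
    apply sum_congr rfl; intro r _
    rw [← ee_add]; congr 1; ring
  · intro t ht
    simp only [hT]
    -- complete sum
    have hfull : ∑ r ∈ range K, ‖∑ j ∈ range K, ee (j * (t - c r))‖ ^ 2 = (K : ℝ) ^ 2 := by
      have h1 := parsevalS K hK1 (range K) subset_rfl (fun j => ee (-(j * (t - (a - δ)))))
      have h2 : ∀ r ∈ range K, ‖∑ j ∈ range K, ee (j * (t - c r))‖ ^ 2 =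
          ‖∑ n ∈ range K, ee (-(n * (t - (a - δ)))) * ee ((r : ℝ) * (n / K))‖ ^ 2 := by
        intro r _
        congr 1
        rw [← RCLike.norm_conj, map_sum]
        congr 1
        apply sum_congr rfl; intro j _
        rw [ee_conj, ← ee_add]
        congr 1
        simp only [hc]
        field_simp
        ring
      rw [sum_congr rfl h2, h1]
      simp only [norm_ee, one_pow, sum_const, card_range, nsmul_eq_mul, mul_one]
      ring
    have hfar : ∀ r ∈ (range K).filter (fun r : ℕ => ¬ (r : ℝ) / K < b + 2 / L), ‖∑ j ∈ range K, ee (j * (t - c r))‖ ^ 2 ≤ (L : ℝ) ^ 2 / 4 := by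
      intro r hr
      rw [mem_filter, mem_range, not_lt] at hr
      have h1 : (r : ℝ) / K < 1 := by
        rw [div_lt_one hK0]; exact_mod_cast hr.1
      have hs0 := Int.fract_nonneg (t - a)
      have hsn : t - a = Int.fract (t - a) + ⌊t - a⌋ := (Int.fract_add_floor _).symm
      set s := Int.fract (t - a) with hs
      have h2 := KD_far K (t - c r) δ hδ0 (by
        intro n
        have e3 : t - c r - n = (s + δ - r / K) + ((⌊t - a⌋ - n : ℤ) : ℝ) := by
          simp only [hc]; push_cast; linarith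
        rw [e3]
        have g1 : s + δ - r / K < -δ := by
          have : 2 / (L : ℝ) = 2 * δ := by rw [hδ]; ring
          linarith [hr.2]
        have g2 : -1 + δ < s + δ - r / K := by linarith
        rcases le_or_gt 1 (⌊t - a⌋ - n) with h | h
        · have h3 : (1 : ℝ) ≤ ((⌊t - a⌋ - n : ℤ) : ℝ) := by exact_mod_cast h
          rw [abs_of_nonneg (by linarith)]
          linarith
        · have h3 : ((⌊t - a⌋ - n : ℤ) : ℝ) ≤ 0 := by exact_mod_cast (by omega : ⌊t - a⌋ - n ≤ 0)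
          rw [abs_of_nonpos (by linarith)]
          linarith)
      unfold KD at h2
      refine h2.trans (le_of_eq ?_)
      rw [hδ]; field_simp
    have hsplit := sum_filter_add_sum_filter_not (range K) (fun r : ℕ => (r : ℝ) / K < b + 2 / L)
      (fun r => ‖∑ j ∈ range K, ee (j * (t - c r))‖ ^ 2)
    rw [hfull] at hsplit
    have hfar2 : ∑ r ∈ (range K).filter (fun r : ℕ => ¬ (r : ℝ) / K < b + 2 / L), ‖∑ j ∈ range K, ee (j * (t - c r))‖ ^ 2 ≤ K * ((L : ℝ) ^ 2 / 4) := by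
      calc _ ≤ ∑ r ∈ (range K).filter (fun r : ℕ => ¬ (r : ℝ) / K < b + 2 / L), (L : ℝ) ^ 2 / 4 := sum_le_sum hfar
        _ = ((((range K).filter (fun r : ℕ => ¬ (r : ℝ) / K < b + 2 / L)).card : ℕ) : ℝ) * ((L : ℝ) ^ 2 / 4) := by rw [sum_const, nsmul_eq_mul]
        _ ≤ _ := by
          apply mul_le_mul_of_nonneg_right _ (by positivity)
          have h1 := card_filter_le (range K) (fun r : ℕ => ¬ (r : ℝ) / K < b + 2 / L)
          rw [card_range] at h1
          exact_mod_cast h1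
    have h5 : (K : ℝ) ^ 2 - K * ((L : ℝ) ^ 2 / 4) ≤ ∑ r ∈ I, ‖∑ j ∈ range K, ee (j * (t - c r))‖ ^ 2 := by
      rw [hI]; linarith
    have h6 : (1 / (K : ℝ) ^ 2) * ((K : ℝ) ^ 2 - K * ((L : ℝ) ^ 2 / 4)) = 1 - ε₀ := by
      rw [hε₀, hKr]; field_simp
    have h7 := mul_le_mul_of_nonneg_left h5 (by positivity : 0 ≤ 1 / (K : ℝ) ^ 2)
    rw [h6] at h7
    linarith

/-- upper bound for a box -/
lemma box_upper {ι : Type*} (S : Finset ι) (x y : ι → ℝ) (L : ℕ) (hL : 2 ≤ L) (W : ℝ) (hW0 : 0 ≤ W)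
    (hW : ∀ k l : ℤ, k ∈ Ioo (-((L ^ 3 : ℕ) : ℤ)) (L ^ 3 : ℕ) → l ∈ Ioo (-((L ^ 3 : ℕ) : ℤ)) (L ^ 3 : ℕ) →
      (k ≠ 0 ∨ l ≠ 0) → ‖∑ i ∈ S, ee (k * x i + l * y i)‖ ≤ W)
    (a₁ b₁ a₂ b₂ : ℝ) (hb1 : 0 ≤ b₁) (hb1' : b₁ ≤ 1) (hb2 : 0 ≤ b₂) (hb2' : b₂ ≤ 1) :
    ((S.filter (fun i => Int.fract (x i - a₁) < b₁ ∧ Int.fract (y i - a₂) < b₂)).card : ℝ) ≤
      b₁ * b₂ * S.card + 24 * S.card / L + 16 * (L : ℝ) ^ 6 * W := by
  classical
  obtain ⟨C, c, T, hC0, hc0, hc1, hCn, hTe, hT0, hT1⟩ := majorant L hL a₁ b₁ hb1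
  obtain ⟨C', c', T', hC0', hc0', hc1', hCn', hTe', hT0', hT1'⟩ := majorant L hL a₂ b₂ hb2
  have hL0 : (0 : ℝ) < L := by exact_mod_cast (by omega : 0 < L)
  have hL2 : (2 : ℝ) ≤ L := by exact_mod_cast hL
  set F := Ioo (-((L ^ 3 : ℕ) : ℤ)) (L ^ 3 : ℕ) with hF
  have hFc : (F.card : ℝ) ≤ 2 * (L : ℝ) ^ 3 := by
    have h1 : F.card ≤ 2 * L ^ 3 := by
      rw [hF, Int.card_Ioo]
      have : (0 : ℤ) ≤ (L ^ 3 : ℕ) := by positivity
      omega
    have : (F.card : ℝ) ≤ ((2 * L ^ 3 : ℕ) : ℝ) := by exact_mod_cast h1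
    push_cast at this
    exact this
  have h1 : ((S.filter (fun i => Int.fract (x i - a₁) < b₁ ∧ Int.fract (y i - a₂) < b₂)).card : ℝ) ≤ ∑ i ∈ S, T (x i) * T' (y i) := by
    rw [card_filter]
    push_cast
    apply sum_le_sum; intro i _
    split_ifs with h
    · have g1 := hT1 (x i) h.1
      have g2 := hT1' (y i) h.2
      nlinarith
    · exact mul_nonneg (hT0 _) (hT0' _)
  refine h1.trans ?_
  have h2 : ((∑ i ∈ S, T (x i) * T' (y i) : ℝ) : ℂ) = ∑ k ∈ F, ∑ l ∈ F, C k * C' l * ∑ i ∈ S, ee (k * x i + l * y i) := by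
    push_cast
    have h3 : ∀ i ∈ S, ((T (x i) : ℝ) : ℂ) * ((T' (y i) : ℝ) : ℂ) = ∑ k ∈ F, ∑ l ∈ F, C k * C' l * ee (k * x i + l * y i) := by
      intro i _
      rw [hTe, hTe', sum_mul_sum]
      apply sum_congr rfl; intro k _
      apply sum_congr rfl; intro l _
      rw [ee_add]; ring
    rw [sum_congr rfl h3, sum_comm]
    apply sum_congr rfl; intro k _
    rw [sum_comm]
    apply sum_congr rfl; intro l _
    rw [mul_sum]
  have h0F : (0 : ℤ) ∈ F := by
    rw [hF, mem_Ioo]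
    have : 0 < L ^ 3 := by positivity
    omega
  have hterm : ∀ k ∈ F, ∀ l ∈ F, ‖C k * C' l * ∑ i ∈ S, ee (k * x i + l * y i)‖ ≤
      (if k = 0 ∧ l = 0 then c * c' * S.card else 0) + 4 * W := by
    intro k hk l hl
    by_cases h : k = 0 ∧ l = 0
    · rw [if_pos h]
      obtain ⟨rfl, rfl⟩ := h
      rw [hC0, hC0', norm_mul, norm_mul, Complex.norm_real, Complex.norm_real, Real.norm_of_nonneg hc0, Real.norm_of_nonneg hc0']
      have : ‖∑ i ∈ S, ee (((0 : ℤ) : ℝ) * x i + ((0 : ℤ) : ℝ) * y i)‖ ≤ S.card := by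
        refine (norm_sum_le _ _).trans ?_
        simp only [norm_ee, sum_const, nsmul_eq_mul, mul_one]
        exact le_rfl
      have := mul_le_mul_of_nonneg_left this (mul_nonneg hc0 hc0')
      linarith
    · rw [if_neg h, zero_add, norm_mul, norm_mul]
      have g1 := hW k l hk hl (by by_contra hcon; push Not at hcon; exact h hcon)
      calc ‖C k‖ * ‖C' l‖ * ‖∑ i ∈ S, ee (k * x i + l * y i)‖ ≤ 2 * 2 * W := by
            apply mul_le_mul _ g1 (norm_nonneg _) (by norm_num)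
            exact mul_le_mul (hCn k) (hCn' l) (norm_nonneg _) (by norm_num)
        _ = 4 * W := by ring
  have h4 : ∑ i ∈ S, T (x i) * T' (y i) ≤ c * c' * S.card + (F.card : ℝ) * F.card * (4 * W) := by
    have h5 : ∑ i ∈ S, T (x i) * T' (y i) ≤ ‖((∑ i ∈ S, T (x i) * T' (y i) : ℝ) : ℂ)‖ := by
      rw [Complex.norm_real]; exact le_abs_self _
    refine h5.trans ?_
    rw [h2]
    calc ‖∑ k ∈ F, ∑ l ∈ F, C k * C' l * ∑ i ∈ S, ee (k * x i + l * y i)‖
        ≤ ∑ k ∈ F, ∑ l ∈ F, ((if k = 0 ∧ l = 0 then c * c' * S.card else 0) + 4 * W) := by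
          refine (norm_sum_le _ _).trans (sum_le_sum fun k hk => ?_)
          exact (norm_sum_le _ _).trans (sum_le_sum fun l hl => hterm k hk l hl)
      _ = c * c' * S.card + (F.card : ℝ) * F.card * (4 * W) := by
          simp_rw [sum_add_distrib]
          congr 1
          · have : ∀ k ∈ F, ∑ l ∈ F, (if k = 0 ∧ l = 0 then c * c' * (S.card : ℝ) else 0) = if k = 0 then c * c' * S.card else 0 := by
              intro k _
              by_cases hk : k = 0
              · rw [if_pos hk]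
                simp only [hk, true_and]
                rw [sum_ite_eq' F 0, if_pos h0F]
              · rw [if_neg hk]
                simp only [hk, false_and, if_false, sum_const_zero]
            rw [sum_congr rfl this, sum_ite_eq' F 0, if_pos h0F]
          · simp only [sum_const, nsmul_eq_mul]; ring
  refine h4.trans ?_
  have hS0 : (0 : ℝ) ≤ S.card := Nat.cast_nonneg _
  have h6 : c * c' ≤ b₁ * b₂ + 24 / L := by
    have hq : (4 : ℝ) / L ≤ 2 := by rw [div_le_iff₀ hL0]; linarith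
    have hq0 : 0 ≤ (4 : ℝ) / L := by positivity
    have h24 : (24 : ℝ) / L = 6 * (4 / L) := by ring
    rw [h24]
    have g1 : c * c' ≤ (b₁ + 4 / L) * (b₂ + 4 / L) := mul_le_mul hc1 hc1' hc0' (by positivity)
    nlinarith
  have h7 : c * c' * S.card ≤ (b₁ * b₂ + 24 / L) * S.card := mul_le_mul_of_nonneg_right h6 hS0
  have h8 : (F.card : ℝ) * F.card * (4 * W) ≤ (2 * (L : ℝ) ^ 3) * (2 * (L : ℝ) ^ 3) * (4 * W) := by
    apply mul_le_mul_of_nonneg_right _ (by positivity)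
    exact mul_le_mul hFc hFc (Nat.cast_nonneg _) (by positivity)
  calc c * c' * S.card + (F.card : ℝ) * F.card * (4 * W) ≤ (b₁ * b₂ + 24 / L) * S.card + (2 * (L : ℝ) ^ 3) * (2 * (L : ℝ) ^ 3) * (4 * W) := by linarith
    _ = _ := by ring

lemma fract_compl (t b : ℝ) (hb : 0 ≤ b) (hb' : b ≤ 1) : ¬ Int.fract t < b ↔ Int.fract (t - b) < 1 - b := by
  have h0 := Int.fract_nonneg t
  have h1 := Int.fract_lt_one t
  constructor
  · intro h
    push Not at h
    have : Int.fract (t - b) = Int.fract t - b := by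
      rw [Int.fract_eq_iff]
      exact ⟨by linarith, by linarith, ⌊t⌋, by rw [Int.fract]; ring⟩
    rw [this]; linarith
  · intro h hcon
    have : Int.fract (t - b) = Int.fract t - b + 1 := by
      rw [Int.fract_eq_iff]
      refine ⟨by linarith, by linarith, ⌊t⌋ - 1, ?_⟩
      rw [Int.fract]; push_cast; ring
    rw [this] at h
    linarith

/-- the number of points in a box -/
theorem box_count {ι : Type*} (S : Finset ι) (x y : ι → ℝ) (L : ℕ) (hL : 2 ≤ L) (W : ℝ) (hW0 : 0 ≤ W)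
    (hW : ∀ k l : ℤ, k ∈ Ioo (-((L ^ 3 : ℕ) : ℤ)) (L ^ 3 : ℕ) → l ∈ Ioo (-((L ^ 3 : ℕ) : ℤ)) (L ^ 3 : ℕ) →
      (k ≠ 0 ∨ l ≠ 0) → ‖∑ i ∈ S, ee (k * x i + l * y i)‖ ≤ W)
    (a₁ b₁ a₂ b₂ : ℝ) (hb1 : 0 ≤ b₁) (hb1' : b₁ ≤ 1) (hb2 : 0 ≤ b₂) (hb2' : b₂ ≤ 1) :
    |((S.filter (fun i => Int.fract (x i - a₁) < b₁ ∧ Int.fract (y i - a₂) < b₂)).card : ℝ) - b₁ * b₂ * S.card| ≤
      48 * S.card / L + 32 * (L : ℝ) ^ 6 * W := by
  classical
  have h1 := box_upper S x y L hL W hW0 hW a₁ b₁ a₂ b₂ hb1 hb1' hb2 hb2'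
  have h2 := box_upper S x y L hL W hW0 hW (a₁ + b₁) (1 - b₁) 0 1 (by linarith) (by linarith) (by norm_num) le_rfl
  have h3 := box_upper S x y L hL W hW0 hW a₁ b₁ (a₂ + b₂) (1 - b₂) hb1 hb1' (by linarith) (by linarith)
  have hE : 0 ≤ 24 * (S.card : ℝ) / L + 16 * (L : ℝ) ^ 6 * W := by positivity
  have h4 : (S.card : ℝ) ≤ ((S.filter (fun i => Int.fract (x i - a₁) < b₁ ∧ Int.fract (y i - a₂) < b₂)).card : ℝ) +
      ((S.filter (fun i => Int.fract (x i - (a₁ + b₁)) < 1 - b₁ ∧ Int.fract (y i - 0) < 1)).card : ℝ) +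
      ((S.filter (fun i => Int.fract (x i - a₁) < b₁ ∧ Int.fract (y i - (a₂ + b₂)) < 1 - b₂)).card : ℝ) := by
    have h5 : S ⊆ (S.filter (fun i => Int.fract (x i - a₁) < b₁ ∧ Int.fract (y i - a₂) < b₂)) ∪
        (S.filter (fun i => Int.fract (x i - (a₁ + b₁)) < 1 - b₁ ∧ Int.fract (y i - 0) < 1)) ∪
        (S.filter (fun i => Int.fract (x i - a₁) < b₁ ∧ Int.fract (y i - (a₂ + b₂)) < 1 - b₂)) := by
      intro i hi
      rw [mem_union, mem_union, mem_filter, mem_filter, mem_filter]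
      have e1 : x i - (a₁ + b₁) = x i - a₁ - b₁ := by ring
      have e2 : y i - (a₂ + b₂) = y i - a₂ - b₂ := by ring
      rw [e1, e2, ← fract_compl _ _ hb1 hb1', ← fract_compl _ _ hb2 hb2']
      have h6 := Int.fract_lt_one (y i - 0)
      tauto
    have h6 := (card_le_card h5).trans ((card_union_le _ _).trans (Nat.add_le_add_right (card_union_le _ _) _))
    exact_mod_cast h6
  rw [abs_le]
  constructor
  · have : (48 : ℝ) * S.card / L = 2 * (24 * S.card / L) := by ring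
    rw [this]
    nlinarith
  · have : (48 : ℝ) * S.card / L = 2 * (24 * S.card / L) := by ring
    rw [this]
    nlinarith

end Pool.Agent.H806.PD
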