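import Mathlib
import Pool.Agent.H373R2.NB.Weyl

/-! Weyl sums with real polynomials whose leading coefficient is a multiple of a number of finite type. -/

set_option autoImplicit false

namespace Pool.Agent.H806.PD
open Finset Polynomial
open Pool.Agent.Helper602.MK (ee)
open Pool.Agent.Helper602.MK.N_J5b (ee_add ee_zero ee_conj norm_ee)
open Pool.Agent.H373R2.NB (Ph IW IW_all Ph_poly)

lemma Ph_add (d : ℕ) : ∀ (α β : ℝ) (φ ψ : ℕ → ℝ), Ph d α φ → Ph d β ψ →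
    Ph d (α + β) (fun n => φ n + ψ n) := by
  induction d with
  | zero =>
    intro α β φ ψ h1 h2 n
    have e1 : φ n = α := h1 n
    have e2 : ψ n = β := h2 n
    show φ n + ψ n = α + β
    rw [e1, e2]
  | succ d ih =>
    intro α β φ ψ h1 h2 h
    have h3 := ih (h * α) (h * β) _ _ (h1 h) (h2 h)
    have e : (h : ℝ) * (α + β) = h * α + h * β := by ring
    rw [e]
    convert h3 using 2
    ring

lemma Ph_shift (s : ℕ) : ∀ (d : ℕ) (α : ℝ) (φ : ℕ → ℝ), Ph d α φ → Ph d α (fun n => φ (n + s)) := by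
  intro d
  induction d with
  | zero => intro α φ h n; exact h (n + s)
  | succ d ih =>
    intro α φ hφ h
    have h1 := ih _ _ (hφ h)
    convert h1 using 2 with n
    congr 2
    ring

lemma Ph_real (d : ℕ) (Q : ℝ[X]) (hQ : Q.natDegree ≤ d) :
    Ph d ((d.factorial : ℝ) * Q.coeff d) (fun n => Q.eval (n : ℝ)) := by
  have key : ∀ s : Finset ℕ, (∀ j ∈ s, j ≤ d) →
      Ph d (∑ j ∈ s, Q.coeff j * ((d.factorial : ℝ) * (((X ^ j : ℤ[X]).coeff d : ℤ) : ℝ)))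
        (fun n => ∑ j ∈ s, Q.coeff j * (n : ℝ) ^ j) := by
    intro s
    induction s using Finset.induction_on with
    | empty =>
      intro _
      simp only [sum_empty]
      have h1 := Ph_poly d (0 : ℤ[X]) (by simp) 0
      simpa using h1
    | insert j s hj ih =>
      intro hs
      have h1 := ih (fun i hi => hs i (mem_insert_of_mem hi))
      have h2 := Ph_poly d (X ^ j : ℤ[X]) (by rw [natDegree_X_pow]; exact hs j (mem_insert_self _ _)) (Q.coeff j)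
      have h3 := Ph_add d _ _ _ _ h2 h1
      rw [sum_insert hj]
      convert h3 using 2 with n
      rw [sum_insert hj]
      congr 1
      rw [eval_pow, eval_X]
      push_cast
      rfl
  have h1 := key (range (d + 1)) (fun j hj => by rw [mem_range] at hj; omega)
  have e1 : ∑ j ∈ range (d + 1), Q.coeff j * ((d.factorial : ℝ) * (((X ^ j : ℤ[X]).coeff d : ℤ) : ℝ)) =
      (d.factorial : ℝ) * Q.coeff d := by
    rw [sum_eq_single d]
    · rw [coeff_X_pow, if_pos rfl]; push_cast; ring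
    · intro j _ hj
      rw [coeff_X_pow, if_neg (fun h => hj h.symm)]; push_cast; ring
    · intro h; exact absurd (mem_range.2 (Nat.lt_succ_self d)) h
  rw [e1] at h1
  convert h1 using 2 with n
  rw [eval_eq_sum_range' (Nat.lt_succ_of_le hQ)]

/-- numbers of finite type -/
def FT (τ : ℕ) (κ α : ℝ) : Prop := 0 < κ ∧ ∀ q : ℕ, 1 ≤ q → ∀ a : ℤ, κ / (q : ℝ) ^ τ ≤ |q * α - a|

lemma sum_Ioc_range (F : ℕ → ℂ) (a b : ℕ) : ∑ n ∈ Ioc a b, F n = ∑ n ∈ range (b - a), F (n + (a + 1)) := by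
  have e : Ioc a b = Ico (a + 1) (b + 1) := by ext x; rw [mem_Ioc, mem_Ico]; omega
  rw [e, sum_Ico_eq_sum_range]
  have e2 : b + 1 - (a + 1) = b - a := by omega
  rw [e2]
  apply sum_congr rfl
  intro n _
  rw [add_comm]

theorem weyl_poly (d : ℕ) (hd : 1 ≤ d) : ∃ c m : ℕ, 1 ≤ c ∧ ∀ Q : ℝ[X], Q.natDegree ≤ d → ∀ a b : ℕ, a < b →
    ∀ u : ℝ, 1 ≤ u → (b : ℝ) - a ≤ u * ‖∑ n ∈ Ioc a b, ee (Q.eval (n : ℝ))‖ →
    ∃ q : ℕ, 1 ≤ q ∧ (q : ℝ) ≤ c * u ^ m ∧
      ∃ z : ℤ, |q * ((d.factorial : ℝ) * Q.coeff d) - z| ≤ c * u ^ m / ((b : ℝ) - a) ^ d := by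
  obtain ⟨c, m, hc, h⟩ := IW_all d hd
  refine ⟨c, m, hc, fun Q hQ a b hab u hu hS => ?_⟩
  have h1 := h (b - a) u ((d.factorial : ℝ) * Q.coeff d) (fun n => Q.eval (((n + (a + 1) : ℕ)) : ℝ)) (by omega) hu
    (Ph_shift (a + 1) d _ (fun n => Q.eval (n : ℝ)) (Ph_real d Q hQ))
  rw [sum_Ioc_range] at hS
  rw [Nat.cast_sub hab.le] at h1
  exact h1 hS

theorem weyl_ft (d : ℕ) (hd : 1 ≤ d) (τ : ℕ) (κ α : ℝ) (hα : FT τ κ α) : ∃ C m : ℕ, 1 ≤ C ∧ 1 ≤ m ∧
    ∀ Q : ℝ[X], Q.natDegree ≤ d → ∀ t : ℤ, t ≠ 0 → Q.coeff d = t * α → ∀ a b : ℕ, a ≤ b → ∀ u : ℝ, 1 ≤ u →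
    ‖∑ n ∈ Ioc a b, ee (Q.eval (n : ℝ))‖ ≤ ((b : ℝ) - a) / u + C * (u * |(t : ℝ)|) ^ m := by
  obtain ⟨c, m, hc, h⟩ := weyl_poly d hd
  obtain ⟨hκ, hα⟩ := hα
  obtain ⟨C, hC⟩ := exists_nat_ge ((c : ℝ) * ((c : ℝ) * d.factorial) ^ τ / κ)
  refine ⟨C + 1, m + m * τ + τ + 1, by omega, by omega, fun Q hQ t ht hQt a b hab u hu => ?_⟩
  have hu0 : 0 < u := by linarith
  have ht1 : (1 : ℝ) ≤ |(t : ℝ)| := by
    have : (1 : ℤ) ≤ |t| := Int.one_le_abs ht
    exact_mod_cast this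
  have hut : 1 ≤ u * |(t : ℝ)| := by nlinarith
  have hpos : (0 : ℝ) ≤ ((C + 1 : ℕ) : ℝ) * (u * |(t : ℝ)|) ^ (m + m * τ + τ + 1) := by positivity
  rcases hab.eq_or_lt with h0 | h0
  · subst h0
    simp only [Ioc_self, sum_empty, norm_zero, sub_self, zero_div, zero_add]
    exact hpos
  rcases le_or_gt (‖∑ n ∈ Ioc a b, ee (Q.eval (n : ℝ))‖) (((b : ℝ) - a) / u) with h1 | h1
  · linarith
  have hba : (1 : ℝ) ≤ (b : ℝ) - a := by
    have : (a : ℝ) + 1 ≤ b := by exact_mod_cast h0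
    linarith
  obtain ⟨q, hq1, hq2, z, hz⟩ := h Q hQ a b h0 u hu (by
    rw [div_lt_iff₀ hu0] at h1
    linarith)
  have hq0 : (0 : ℝ) < q := by exact_mod_cast hq1
  have hc0 : (1 : ℝ) ≤ c := by exact_mod_cast hc
  have hf1 : (1 : ℝ) ≤ d.factorial := by exact_mod_cast Nat.one_le_iff_ne_zero.2 d.factorial_ne_zero
  -- lower bound
  have hlow : κ / ((q : ℝ) * d.factorial * |(t : ℝ)|) ^ τ ≤ |q * ((d.factorial : ℝ) * Q.coeff d) - z| := by
    rw [hQt]
    have hn : 1 ≤ q * d.factorial * t.natAbs := by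
      have h3 : 1 ≤ t.natAbs := Int.natAbs_pos.2 ht
      have h4 : 1 ≤ d.factorial := Nat.one_le_iff_ne_zero.2 d.factorial_ne_zero
      exact Nat.one_le_iff_ne_zero.2 (by positivity)
    have hna : (t.natAbs : ℝ) = |(t : ℝ)| := by rw [Nat.cast_natAbs]; push_cast; rfl
    rcases le_or_gt 0 t with h5 | h5
    · have h6 := hα (q * d.factorial * t.natAbs) hn z
      push_cast at h6
      rw [hna] at h6
      have e : |(t : ℝ)| = t := abs_of_nonneg (by exact_mod_cast h5)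
      rw [e] at h6 ⊢
      have e2 : (q : ℝ) * ((d.factorial : ℝ) * (t * α)) - z = q * d.factorial * t * α - z := by ring
      rw [e2]
      exact h6
    · have h6 := hα (q * d.factorial * t.natAbs) hn (-z)
      push_cast at h6
      rw [hna] at h6
      have e : |(t : ℝ)| = -t := abs_of_neg (by exact_mod_cast h5)
      rw [e] at h6 ⊢
      have e2 : |(q : ℝ) * ((d.factorial : ℝ) * (t * α)) - z| = |q * d.factorial * (-t) * α - -z| := by
        rw [← abs_neg]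
        congr 1
        ring
      rw [e2]
      exact h6
  have hden : 0 < ((q : ℝ) * d.factorial * |(t : ℝ)|) ^ τ := by positivity
  have hbad : 0 < ((b : ℝ) - a) ^ d := by positivity
  have h7 := hlow.trans hz
  rw [div_le_div_iff₀ hden hbad] at h7
  have h8 : ((q : ℝ) * d.factorial * |(t : ℝ)|) ^ τ ≤ ((c : ℝ) * d.factorial) ^ τ * (u ^ m * |(t : ℝ)|) ^ τ := by
    rw [← mul_pow]
    apply pow_le_pow_left₀ (by positivity)
    have : (q : ℝ) * (d.factorial * |(t : ℝ)|) ≤ (c * u ^ m) * (d.factorial * |(t : ℝ)|) :=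
      mul_le_mul_of_nonneg_right hq2 (by positivity)
    calc (q : ℝ) * d.factorial * |(t : ℝ)| = q * (d.factorial * |(t : ℝ)|) := by ring
      _ ≤ _ := this
      _ = _ := by ring
  have h9 : ((b : ℝ) - a) ^ d ≤ C * (u ^ m * (u ^ m * |(t : ℝ)|) ^ τ) := by
    have h10 : κ * ((b : ℝ) - a) ^ d ≤ c * u ^ m * (((c : ℝ) * d.factorial) ^ τ * (u ^ m * |(t : ℝ)|) ^ τ) :=
      h7.trans (mul_le_mul_of_nonneg_left h8 (by positivity))
    have h11 : ((b : ℝ) - a) ^ d ≤ (c * u ^ m * (((c : ℝ) * d.factorial) ^ τ * (u ^ m * |(t : ℝ)|) ^ τ)) / κ := by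
      rw [le_div_iff₀ hκ]; linarith
    refine h11.trans ?_
    calc (c * u ^ m * (((c : ℝ) * d.factorial) ^ τ * (u ^ m * |(t : ℝ)|) ^ τ)) / κ
        = ((c : ℝ) * ((c : ℝ) * d.factorial) ^ τ / κ) * (u ^ m * (u ^ m * |(t : ℝ)|) ^ τ) := by ring
      _ ≤ _ := mul_le_mul_of_nonneg_right hC (by positivity)
  have h12 : u ^ m * (u ^ m * |(t : ℝ)|) ^ τ ≤ (u * |(t : ℝ)|) ^ (m + m * τ + τ + 1) := by
    have g1 : u ^ m ≤ (u * |(t : ℝ)|) ^ m := pow_le_pow_left₀ hu0.le (by nlinarith) m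
    have g2 : |(t : ℝ)| ≤ u * |(t : ℝ)| := by nlinarith
    calc u ^ m * (u ^ m * |(t : ℝ)|) ^ τ ≤ (u * |(t : ℝ)|) ^ m * ((u * |(t : ℝ)|) ^ m * (u * |(t : ℝ)|)) ^ τ := by
          apply mul_le_mul g1 _ (by positivity) (by positivity)
          apply pow_le_pow_left₀ (by positivity)
          exact mul_le_mul g1 g2 (by positivity) (by positivity)
      _ = (u * |(t : ℝ)|) ^ (m + m * τ + τ) := by rw [← pow_succ, ← pow_mul, ← pow_add]; congr 1; ring
      _ ≤ _ := pow_le_pow_right₀ hut (by omega)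
  have h13 : ‖∑ n ∈ Ioc a b, ee (Q.eval (n : ℝ))‖ ≤ (b : ℝ) - a := by
    refine (norm_sum_le _ _).trans ?_
    simp only [norm_ee, sum_const, Nat.card_Ioc, nsmul_eq_mul, mul_one]
    rw [Nat.cast_sub h0.le]
  have h14 : (b : ℝ) - a ≤ ((b : ℝ) - a) ^ d := le_self_pow₀ hba (by omega)
  have h15 : (0 : ℝ) ≤ ((b : ℝ) - a) / u := by positivity
  have h16 : (C : ℝ) * (u ^ m * (u ^ m * |(t : ℝ)|) ^ τ) ≤ ((C + 1 : ℕ) : ℝ) * (u * |(t : ℝ)|) ^ (m + m * τ + τ + 1) := by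
    apply mul_le_mul (by push_cast; linarith) h12 (by positivity) (by positivity)
  linarith

end Pool.Agent.H806.PD
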