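import Mathlib
import Pool.Agent.H806.PD.W

/-! Bilinear sums with polynomial phases. -/

set_option autoImplicit false

namespace Pool.Agent.H806.PD
open Finset Polynomial
open Pool.Agent.Helper602.MK (ee)
open Pool.Agent.Helper602.MK.N_J5b (ee_add ee_zero ee_conj norm_ee ee_int)

lemma ee_re_ge {x : ℝ} (hx : |x| ≤ 1 / 8) : 1 / 2 ≤ (ee x).re := by
  have h1 : (ee x).re = Real.cos (2 * Real.pi * x) := by
    rw [Pool.Agent.Helper602.MK.N_J5b.ee_eq, Complex.exp_ofReal_mul_I_re]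
  rw [h1]
  have h2 := Real.one_sub_sq_div_two_le_cos (x := 2 * Real.pi * x)
  have h3 : (2 * Real.pi * x) ^ 2 ≤ 1 := by
    have hpi := Real.pi_lt_d2
    have hpi0 := Real.pi_pos
    have h4 : x ^ 2 ≤ (1 / 8) ^ 2 := by
      rw [← sq_abs]; exact pow_le_pow_left₀ (abs_nonneg _) hx 2
    have h5 : Real.pi ^ 2 ≤ 3.15 ^ 2 := pow_le_pow_left₀ hpi0.le hpi.le 2
    have e : (2 * Real.pi * x) ^ 2 = 4 * (Real.pi ^ 2 * x ^ 2) := by ring
    rw [e]
    have h6 : Real.pi ^ 2 * x ^ 2 ≤ 3.15 ^ 2 * (1 / 8) ^ 2 := mul_le_mul h5 h4 (by positivity) (by positivity)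
    norm_num at h6 ⊢
    linarith
  linarith

/-- points near the integers are detected by the exponential sums -/
lemma near_count {ι : Type*} (s T : Finset ι) (hT : T ⊆ s) (ψ : ι → ℝ) (J : ℕ) (hJ : 1 ≤ J) (δ W : ℝ)
    (hδ : (J : ℝ) * δ ≤ 1 / 8) (hnear : ∀ i ∈ T, ∃ z : ℤ, |ψ i - z| ≤ δ)
    (hW0 : 0 ≤ W) (hW : ∀ j : ℕ, 1 ≤ j → j < J → ‖∑ i ∈ s, ee ((j : ℝ) * ψ i)‖ ≤ W) :
    (T.card : ℝ) ≤ 4 * (s.card : ℝ) / J + 4 * W := by
  classical
  have hJ0 : (0 : ℝ) < J := by exact_mod_cast hJ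
  have hlow : ∀ i ∈ T, ((J : ℝ) / 2) ^ 2 ≤ ‖∑ j ∈ range J, ee ((j : ℝ) * ψ i)‖ ^ 2 := by
    intro i hi
    obtain ⟨z, hz⟩ := hnear i hi
    apply pow_le_pow_left₀ (by positivity)
    have h1 : ∀ j ∈ range J, 1 / 2 ≤ (ee ((j : ℝ) * ψ i)).re := by
      intro j hj
      rw [mem_range] at hj
      have e : (j : ℝ) * ψ i = (j : ℝ) * (ψ i - z) + ((((j : ℤ) * z : ℤ)) : ℝ) := by push_cast; ring
      rw [e, ee_add, ee_int, mul_one]
      apply ee_re_ge
      rw [abs_mul, abs_of_nonneg (Nat.cast_nonneg j)]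
      have hjJ : (j : ℝ) ≤ J := by exact_mod_cast hj.le
      calc (j : ℝ) * |ψ i - z| ≤ J * δ := mul_le_mul hjJ hz (abs_nonneg _) hJ0.le
        _ ≤ _ := hδ
    calc (J : ℝ) / 2 = ∑ j ∈ range J, (1 / 2 : ℝ) := by rw [sum_const, card_range, nsmul_eq_mul]; ring
      _ ≤ ∑ j ∈ range J, (ee ((j : ℝ) * ψ i)).re := sum_le_sum h1
      _ = (∑ j ∈ range J, ee ((j : ℝ) * ψ i)).re := (Complex.re_sum _ _).symm
      _ ≤ _ := Complex.re_le_norm _
  have h1 : (T.card : ℝ) * ((J : ℝ) / 2) ^ 2 ≤ ∑ i ∈ s, ‖∑ j ∈ range J, ee ((j : ℝ) * ψ i)‖ ^ 2 := by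
    calc (T.card : ℝ) * ((J : ℝ) / 2) ^ 2 = ∑ i ∈ T, ((J : ℝ) / 2) ^ 2 := by rw [sum_const, nsmul_eq_mul]
      _ ≤ ∑ i ∈ T, ‖∑ j ∈ range J, ee ((j : ℝ) * ψ i)‖ ^ 2 := sum_le_sum hlow
      _ ≤ _ := sum_le_sum_of_subset_of_nonneg hT fun _ _ _ => by positivity
  have h2 : ((∑ i ∈ s, ‖∑ j ∈ range J, ee ((j : ℝ) * ψ i)‖ ^ 2 : ℝ) : ℂ) =
      ∑ j ∈ range J, ∑ j' ∈ range J, ∑ i ∈ s, ee ((j : ℝ) * ψ i) * (starRingEnd ℂ) (ee ((j' : ℝ) * ψ i)) := by
    push_cast
    have h3 : ∀ i ∈ s, ((‖∑ j ∈ range J, ee ((j : ℝ) * ψ i)‖ : ℂ)) ^ 2 = ∑ j ∈ range J, ∑ j' ∈ range J,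
        ee ((j : ℝ) * ψ i) * (starRingEnd ℂ) (ee ((j' : ℝ) * ψ i)) := by
      intro i _
      rw [← Complex.mul_conj', map_sum, sum_mul_sum]
    rw [sum_congr rfl h3, sum_comm]
    apply sum_congr rfl; intro j _
    rw [sum_comm]
  have h4 : ∀ j ∈ range J, ∀ j' ∈ range J,
      ‖∑ i ∈ s, ee ((j : ℝ) * ψ i) * (starRingEnd ℂ) (ee ((j' : ℝ) * ψ i))‖ ≤ (if j = j' then (s.card : ℝ) else 0) + W := by
    intro j hj j' hj'
    rw [mem_range] at hj hj'
    rcases lt_trichotomy j j' with h | h | h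
    · rw [if_neg h.ne, zero_add]
      have e : ∑ i ∈ s, ee ((j : ℝ) * ψ i) * (starRingEnd ℂ) (ee ((j' : ℝ) * ψ i)) =
          (starRingEnd ℂ) (∑ i ∈ s, ee (((j' - j : ℕ) : ℝ) * ψ i)) := by
        rw [map_sum]
        apply sum_congr rfl; intro i _
        rw [ee_conj, ee_conj, ← ee_add, Nat.cast_sub h.le]
        congr 1; ring
      rw [e, RCLike.norm_conj]
      exact hW (j' - j) (by omega) (by omega)
    · rw [if_pos h]
      have h5 : ‖∑ i ∈ s, ee ((j : ℝ) * ψ i) * (starRingEnd ℂ) (ee ((j' : ℝ) * ψ i))‖ ≤ s.card := by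
        refine (norm_sum_le _ _).trans ?_
        simp only [norm_mul, norm_ee, RCLike.norm_conj, mul_one, sum_const, nsmul_eq_mul]
        exact le_rfl
      linarith
    · rw [if_neg h.ne', zero_add]
      have e : ∑ i ∈ s, ee ((j : ℝ) * ψ i) * (starRingEnd ℂ) (ee ((j' : ℝ) * ψ i)) =
          ∑ i ∈ s, ee (((j - j' : ℕ) : ℝ) * ψ i) := by
        apply sum_congr rfl; intro i _
        rw [ee_conj, ← ee_add, Nat.cast_sub h.le]
        congr 1; ring
      rw [e]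
      exact hW (j - j') (by omega) (by omega)
  have h5 : ∑ i ∈ s, ‖∑ j ∈ range J, ee ((j : ℝ) * ψ i)‖ ^ 2 ≤ J * (s.card : ℝ) + J ^ 2 * W := by
    have h6 : ∑ i ∈ s, ‖∑ j ∈ range J, ee ((j : ℝ) * ψ i)‖ ^ 2 =
        ‖((∑ i ∈ s, ‖∑ j ∈ range J, ee ((j : ℝ) * ψ i)‖ ^ 2 : ℝ) : ℂ)‖ := by
      rw [Complex.norm_real, Real.norm_of_nonneg (sum_nonneg fun _ _ => by positivity)]
    rw [h6, h2]
    calc ‖∑ j ∈ range J, ∑ j' ∈ range J, ∑ i ∈ s, ee ((j : ℝ) * ψ i) * (starRingEnd ℂ) (ee ((j' : ℝ) * ψ i))‖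
        ≤ ∑ j ∈ range J, ∑ j' ∈ range J, ((if j = j' then (s.card : ℝ) else 0) + W) := by
          refine (norm_sum_le _ _).trans (sum_le_sum fun j hj => ?_)
          exact (norm_sum_le _ _).trans (sum_le_sum fun j' hj' => h4 j hj j' hj')
      _ = ∑ j ∈ range J, ((s.card : ℝ) + J * W) := by
          apply sum_congr rfl; intro j hj
          rw [sum_add_distrib, sum_ite_eq, if_pos hj, sum_const, card_range, nsmul_eq_mul]
      _ = _ := by rw [sum_const, card_range, nsmul_eq_mul]; ring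
  have h7 := h1.trans h5
  rw [div_add' _ _ _ hJ0.ne', le_div_iff₀ hJ0]
  have h8 : (T.card : ℝ) * J ≤ 4 * (s.card : ℝ) + 4 * W * J := by
    have h9 : (T.card : ℝ) * J * J ≤ (4 * (s.card : ℝ) + 4 * W * J) * J := by nlinarith
    exact le_of_mul_le_mul_right h9 hJ0
  exact h8

lemma comp_natDegree (d : ℕ) (Q : ℝ[X]) (hQ : Q.natDegree ≤ d) (x : ℝ) : (Q.comp (C x * X)).natDegree ≤ d := by
  refine natDegree_comp_le.trans ?_
  have h1 : (C x * X : ℝ[X]).natDegree ≤ 1 := (natDegree_C_mul_le x X).trans natDegree_X_le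
  calc Q.natDegree * (C x * X : ℝ[X]).natDegree ≤ d * 1 := Nat.mul_le_mul hQ h1
    _ = d := mul_one d

lemma comp_coeff (d : ℕ) (Q : ℝ[X]) (x : ℝ) : (Q.comp (C x * X)).coeff d = Q.coeff d * x ^ d := by
  rw [comp_C_mul_X_coeff]

/-- the sum over the second variable -/
theorem kbound (d : ℕ) (hd : 1 ≤ d) (τ : ℕ) (κ α : ℝ) (hα : FT τ κ α) : ∃ C₁ m₁ : ℕ, 1 ≤ C₁ ∧ 1 ≤ m₁ ∧
    ∀ Q : ℝ[X], Q.natDegree ≤ d → ∀ t : ℤ, t ≠ 0 → Q.coeff d = t * α → ∀ u : ℝ, 1 ≤ u →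
    ∀ M L : ℕ, C₁ * (u * |(t : ℝ)|) ^ m₁ ≤ M → C₁ * (u * |(t : ℝ)|) ^ m₁ ≤ L →
    ∀ l : ℕ, ∀ A B : ℕ → ℕ, (∀ l', M ≤ A l') → (∀ l', B l' ≤ 2 * M) →
    ∑ l' ∈ Ioc L (2 * L), ‖∑ m ∈ Ioc (A l') (B l'), ee (Q.eval (((m * l : ℕ)) : ℝ) - Q.eval (((m * l' : ℕ)) : ℝ))‖ ≤
      3 * ((M : ℝ) * L) / u := by
  classical
  obtain ⟨c, m, hc, hW⟩ := weyl_poly d hd
  obtain ⟨C, m', hC, hm', hF⟩ := weyl_ft d hd τ κ α hα
  -- constants
  set J₀ : ℕ := 17 * c with hJ₀
  set F : ℕ := d.factorial with hFdef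
  have hF1 : 1 ≤ F := Nat.one_le_iff_ne_zero.2 d.factorial_ne_zero
  obtain ⟨C₁, hC₁⟩ : ∃ C₁ : ℕ, C₁ = 8 * c * C * (16 * c * J₀ * c * F) ^ m' + 8 * J₀ * c := ⟨_, rfl⟩
  obtain ⟨m₁, hm₁⟩ : ∃ m₁ : ℕ, m₁ = (m + 1) + (3 * m + 4) * m' + (2 * m + d + 1) := ⟨_, rfl⟩
  have hc1 : (1 : ℝ) ≤ c := by exact_mod_cast hc
  have hCr : (1 : ℝ) ≤ C := by exact_mod_cast hC
  refine ⟨C₁, m₁, ?_, by omega, ?_⟩
  · rw [hC₁, hJ₀]
    have : 1 ≤ 8 * (17 * c) * c := by nlinarith
    omega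
  intro Q hQ t ht hQt u hu M L hM hL l A B hA hB
  have hu0 : 0 < u := by linarith
  have ht1 : (1 : ℝ) ≤ |(t : ℝ)| := by
    have : (1 : ℤ) ≤ |t| := Int.one_le_abs ht
    exact_mod_cast this
  obtain ⟨w, hw⟩ : ∃ w, w = u * |(t : ℝ)| := ⟨_, rfl⟩
  rw [← hw] at hM hL
  have huw : u ≤ w := by rw [hw]; nlinarith
  have htw : |(t : ℝ)| ≤ w := by rw [hw]; nlinarith
  have hw1 : 1 ≤ w := hu.trans huw
  have hw0 : 0 < w := by linarith
  have hC₁1 : (1 : ℝ) ≤ C₁ := by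
    have : 1 ≤ C₁ := by
      rw [hC₁, hJ₀]
      have : 1 ≤ 8 * (17 * c) * c := by nlinarith
      omega
    exact_mod_cast this
  have hMpos : (1 : ℝ) ≤ M := by
    refine le_trans ?_ hM
    have := one_le_pow₀ hw1 (n := m₁)
    nlinarith
  have hLpos : (1 : ℝ) ≤ L := by
    refine le_trans ?_ hL
    have := one_le_pow₀ hw1 (n := m₁)
    nlinarith
  have hM0 : (0 : ℝ) < M := by linarith
  have hL0 : (0 : ℝ) < L := by linarith
  -- the bad set
  set K : ℕ → ℝ := fun l' => ‖∑ m ∈ Ioc (A l') (B l'), ee (Q.eval (((m * l : ℕ)) : ℝ) - Q.eval (((m * l' : ℕ)) : ℝ))‖ with hK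
  have hKM : ∀ l', K l' ≤ M := by
    intro l'
    have h1 : K l' ≤ ((Ioc (A l') (B l')).card : ℝ) := by
      refine (norm_sum_le _ _).trans ?_
      simp only [norm_ee, sum_const, nsmul_eq_mul, mul_one]
      exact le_rfl
    refine h1.trans ?_
    rw [Nat.card_Ioc]
    have := hA l'; have := hB l'
    exact_mod_cast (by omega : B l' - A l' ≤ M)
  set bad := (Ioc L (2 * L)).filter (fun l' => (M : ℝ) / u < K l') with hbad
  set δ : ℝ := c * u ^ (m + d) / (M : ℝ) ^ d with hδ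
  set Qm : ℕ := ⌊(c : ℝ) * u ^ m⌋₊ with hQm
  have hQm1 : (Qm : ℝ) ≤ c * u ^ m := Nat.floor_le (by positivity)
  set ψ : ℕ → ℕ → ℝ := fun q l' => q * (F * (t * α * ((l : ℝ) ^ d - (l' : ℝ) ^ d))) with hψ
  set T : ℕ → Finset ℕ := fun q => (Ioc L (2 * L)).filter (fun l' => ∃ z : ℤ, |ψ q l' - z| ≤ δ) with hT
  have hsub : bad ⊆ (Icc 1 Qm).biUnion T := by
    intro l' hl'
    rw [hbad, mem_filter] at hl'
    obtain ⟨hl1, hl2⟩ := hl'
    have hKpos : 0 < K l' := lt_of_le_of_lt (by positivity) hl2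
    have hAB : A l' < B l' := by
      by_contra hcon
      have h0 : K l' = 0 := by
        simp only [hK]
        rw [Ioc_eq_empty_of_le (by omega), sum_empty, norm_zero]
      linarith
    set R : ℝ[X] := Q.comp (Polynomial.C (l : ℝ) * X) - Q.comp (Polynomial.C (l' : ℝ) * X) with hR
    have hRd : R.natDegree ≤ d := (natDegree_sub_le _ _).trans (max_le (comp_natDegree d Q hQ _) (comp_natDegree d Q hQ _))
    have hRc : R.coeff d = t * α * ((l : ℝ) ^ d - (l' : ℝ) ^ d) := by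
      rw [hR, coeff_sub, comp_coeff, comp_coeff, hQt]; ring
    have hRe : ∀ n : ℕ, R.eval (n : ℝ) = Q.eval (((n * l : ℕ)) : ℝ) - Q.eval (((n * l' : ℕ)) : ℝ) := by
      intro n
      rw [hR, eval_sub, eval_comp, eval_comp]
      simp only [eval_mul, eval_C, eval_X]
      push_cast
      rw [mul_comm (l : ℝ), mul_comm (l' : ℝ)]
    have hlen1 : ((B l' : ℝ) - A l') ≤ M := by
      have := hA l'; have := hB l'
      have h2 : (B l' : ℝ) ≤ 2 * M := by exact_mod_cast hB l'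
      have h3 : (M : ℝ) ≤ A l' := by exact_mod_cast hA l'
      linarith
    have hlen2 : (M : ℝ) / u < (B l' : ℝ) - A l' := by
      refine lt_of_lt_of_le hl2 ?_
      have h1 : K l' ≤ ((Ioc (A l') (B l')).card : ℝ) := by
        refine (norm_sum_le _ _).trans ?_
        simp only [norm_ee, sum_const, nsmul_eq_mul, mul_one]
        exact le_rfl
      rw [Nat.card_Ioc, Nat.cast_sub hAB.le] at h1
      exact h1
    obtain ⟨q, hq1, hq2, z, hz⟩ := hW R hRd (A l') (B l') hAB u hu (by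
      have e1 : ∑ n ∈ Ioc (A l') (B l'), ee (R.eval (n : ℝ)) =
          ∑ m ∈ Ioc (A l') (B l'), ee (Q.eval (((m * l : ℕ)) : ℝ) - Q.eval (((m * l' : ℕ)) : ℝ)) :=
        sum_congr rfl fun n _ => by rw [hRe n]
      rw [e1]
      have h4 : (M : ℝ) < u * K l' := by
        rw [div_lt_iff₀ hu0] at hl2; linarith
      exact hlen1.trans h4.le)
    rw [mem_biUnion]
    refine ⟨q, mem_Icc.2 ⟨hq1, Nat.le_floor hq2⟩, mem_filter.2 ⟨hl1, z, ?_⟩⟩
    rw [hRc] at hz
    refine hz.trans ?_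
    rw [hδ]
    have h5 : ((M : ℝ) / u) ^ d ≤ ((B l' : ℝ) - A l') ^ d := pow_le_pow_left₀ (by positivity) hlen2.le d
    calc (c : ℝ) * u ^ m / ((B l' : ℝ) - A l') ^ d ≤ c * u ^ m / ((M : ℝ) / u) ^ d :=
          div_le_div_of_nonneg_left (by positivity) (by positivity) h5
      _ = _ := by rw [div_pow, pow_add]; field_simp
  -- J
  set J : ℕ := ⌈16 * (c : ℝ) * u ^ (m + 1)⌉₊ with hJ
  have hum : 1 ≤ u ^ (m + 1) := one_le_pow₀ hu
  have hJ1 : 16 * (c : ℝ) * u ^ (m + 1) ≤ J := Nat.le_ceil _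
  have hJ2 : (J : ℝ) ≤ J₀ * u ^ (m + 1) := by
    have h1 : (J : ℝ) < 16 * (c : ℝ) * u ^ (m + 1) + 1 := Nat.ceil_lt_add_one (by positivity)
    have h2 : (1 : ℝ) ≤ c * u ^ (m + 1) := by nlinarith
    rw [hJ₀]; push_cast; nlinarith
  have hJpos : (0 : ℝ) < J := lt_of_lt_of_le (by positivity) hJ1
  have hJn : 1 ≤ J := by exact_mod_cast hJpos
  have hJ₀1 : (1 : ℝ) ≤ J₀ := by rw [hJ₀]; push_cast; linarith
  have hFr : (1 : ℝ) ≤ F := by exact_mod_cast hF1
  -- δ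
  have hJδ : (J : ℝ) * δ ≤ 1 / 8 := by
    have hMM : (M : ℝ) ≤ (M : ℝ) ^ d := le_self_pow₀ hMpos (by omega)
    have h1 : δ ≤ c * u ^ (m + d) / M := by
      rw [hδ]
      exact div_le_div_of_nonneg_left (by positivity) hM0 hMM
    have h2 : (8 * J₀ * c : ℝ) * w ^ (2 * m + d + 1) ≤ M := by
      refine le_trans ?_ hM
      apply mul_le_mul _ (pow_le_pow_right₀ hw1 (by omega)) (by positivity) (by positivity)
      rw [hC₁]; push_cast
      have : (0 : ℝ) ≤ 8 * c * C * (16 * c * J₀ * c * F) ^ m' := by positivity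
      linarith
    have h3 : (J : ℝ) * (c * u ^ (m + d) / M) ≤ 1 / 8 := by
      rw [← mul_div_assoc, div_le_iff₀ hM0]
      have h4 : (J : ℝ) * (c * u ^ (m + d)) ≤ J₀ * u ^ (m + 1) * (c * u ^ (m + d)) :=
        mul_le_mul_of_nonneg_right hJ2 (by positivity)
      have h5 : (J₀ : ℝ) * u ^ (m + 1) * (c * u ^ (m + d)) = J₀ * c * u ^ (2 * m + d + 1) := by ring
      have h6 : u ^ (2 * m + d + 1) ≤ w ^ (2 * m + d + 1) := pow_le_pow_left₀ hu0.le huw _
      have h7 : (J₀ : ℝ) * c * u ^ (2 * m + d + 1) ≤ J₀ * c * w ^ (2 * m + d + 1) :=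
        mul_le_mul_of_nonneg_left h6 (by positivity)
      linarith
    exact (mul_le_mul_of_nonneg_left h1 hJpos.le).trans h3
  -- the sums
  set u' : ℝ := 16 * c * u ^ (m + 1) with hu'
  have hu'1 : 1 ≤ u' := by rw [hu']; nlinarith
  have hu'0 : 0 < u' := by linarith
  set W : ℝ := L / u' + C * (16 * c * J₀ * c * F) ^ m' * w ^ ((3 * m + 4) * m') with hWdef
  have hTq : ∀ q ∈ Icc 1 Qm, ((T q).card : ℝ) ≤ 4 * (L : ℝ) / J + 4 * W := by
    intro q hq
    rw [mem_Icc] at hq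
    have hqr : (q : ℝ) ≤ c * u ^ m := le_trans (by exact_mod_cast hq.2) hQm1
    have h1 := near_count (Ioc L (2 * L)) (T q) (filter_subset _ _) (fun l' => ψ q l') J hJn δ W hJδ
      (fun i hi => (mem_filter.1 hi).2) (by positivity) (by
        intro j hj1 hjJ
        set t' : ℤ := -((j : ℤ) * q * F * t) with ht'
        have ht'0 : t' ≠ 0 := by
          rw [ht', neg_ne_zero]
          have g1 : (j : ℤ) ≠ 0 := by exact_mod_cast (by omega : j ≠ 0)
          have g2 : (q : ℤ) ≠ 0 := by exact_mod_cast (by omega : q ≠ 0)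
          have g3 : (F : ℤ) ≠ 0 := by exact_mod_cast (by omega : F ≠ 0)
          positivity
        set R : ℝ[X] := Polynomial.C ((j : ℝ) * (q * (F * (t * α * (l : ℝ) ^ d)))) + Polynomial.C ((t' : ℝ) * α) * X ^ d with hR
        have hRd : R.natDegree ≤ d := by
          rw [hR]
          refine (natDegree_add_le _ _).trans (max_le ?_ (natDegree_C_mul_X_pow_le _ _))
          rw [natDegree_C]; omega
        have hRc : R.coeff d = t' * α := by
          rw [hR, coeff_add, coeff_C, if_neg (by omega), coeff_C_mul_X_pow, if_pos rfl, zero_add]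
        have hRe : ∀ n : ℕ, R.eval (n : ℝ) = j * ψ q n := by
          intro n
          rw [hR, hψ]
          simp only [eval_add, eval_C, eval_mul, eval_pow, eval_X]
          rw [ht']; push_cast; ring
        have h2 := hF R hRd t' ht'0 hRc L (2 * L) (by omega) u' hu'1
        have e1 : ∑ n ∈ Ioc L (2 * L), ee (R.eval (n : ℝ)) = ∑ i ∈ Ioc L (2 * L), ee ((j : ℝ) * ψ q i) :=
          sum_congr rfl fun n _ => by rw [hRe n]
        rw [e1] at h2
        refine h2.trans ?_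
        rw [hWdef]
        have e2 : (((2 * L : ℕ) : ℝ) - L) = L := by push_cast; ring
        rw [e2]
        have h3 : u' * |(t' : ℝ)| ≤ (16 * c * J₀ * c * F) * w ^ (3 * m + 4) := by
          have e3 : |(t' : ℝ)| = j * q * F * |(t : ℝ)| := by
            rw [ht']; push_cast
            rw [abs_neg, abs_mul, abs_mul, abs_mul, Nat.abs_cast, Nat.abs_cast, Nat.abs_cast]
          rw [e3]
          have hjr : (j : ℝ) ≤ J₀ * u ^ (m + 1) := le_trans (by exact_mod_cast hjJ.le) hJ2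
          calc u' * (j * q * F * |(t : ℝ)|) ≤ u' * ((J₀ * u ^ (m + 1)) * (c * u ^ m) * F * |(t : ℝ)|) := by
                apply mul_le_mul_of_nonneg_left _ hu'0.le
                apply mul_le_mul_of_nonneg_right _ (abs_nonneg _)
                apply mul_le_mul_of_nonneg_right _ (by positivity)
                exact mul_le_mul hjr hqr (by positivity) (by positivity)
            _ = (16 * c * J₀ * c * F) * (u ^ (3 * m + 2) * |(t : ℝ)|) := by rw [hu']; ring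
            _ ≤ (16 * c * J₀ * c * F) * w ^ (3 * m + 4) := by
                apply mul_le_mul_of_nonneg_left _ (by positivity)
                calc u ^ (3 * m + 2) * |(t : ℝ)| ≤ w ^ (3 * m + 2) * w :=
                      mul_le_mul (pow_le_pow_left₀ hu0.le huw _) htw (abs_nonneg _) (by positivity)
                  _ = w ^ (3 * m + 3) := by rw [← pow_succ]
                  _ ≤ w ^ (3 * m + 4) := pow_le_pow_right₀ hw1 (by omega)
        have h4 : (u' * |(t' : ℝ)|) ^ m' ≤ (16 * c * J₀ * c * F) ^ m' * w ^ ((3 * m + 4) * m') := by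
          calc (u' * |(t' : ℝ)|) ^ m' ≤ ((16 * c * J₀ * c * F) * w ^ (3 * m + 4)) ^ m' :=
                pow_le_pow_left₀ (by positivity) h3 m'
            _ = _ := by rw [mul_pow, ← pow_mul]
        have h5 : (C : ℝ) * (u' * |(t' : ℝ)|) ^ m' ≤ C * ((16 * c * J₀ * c * F) ^ m' * w ^ ((3 * m + 4) * m')) :=
          mul_le_mul_of_nonneg_left h4 (by positivity)
        linarith)
    have e : (((Ioc L (2 * L)).card : ℕ) : ℝ) = L := by
      rw [Nat.card_Ioc]; congr 1; omega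
    rw [e] at h1
    exact h1
  have hbadc : (bad.card : ℝ) ≤ 2 * L / u := by
    have h1 : (bad.card : ℝ) ≤ ∑ q ∈ Icc 1 Qm, ((T q).card : ℝ) := by
      have := (card_le_card hsub).trans card_biUnion_le
      exact_mod_cast this
    have h2 : ∑ q ∈ Icc 1 Qm, ((T q).card : ℝ) ≤ (c * u ^ m) * (4 * (L : ℝ) / J + 4 * W) := by
      calc ∑ q ∈ Icc 1 Qm, ((T q).card : ℝ) ≤ ∑ q ∈ Icc 1 Qm, (4 * (L : ℝ) / J + 4 * W) := sum_le_sum hTq
        _ = Qm * (4 * (L : ℝ) / J + 4 * W) := by rw [sum_const, Nat.card_Icc, nsmul_eq_mul]; simp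
        _ ≤ _ := mul_le_mul_of_nonneg_right hQm1 (by positivity)
    have h3 : 4 * (L : ℝ) / J ≤ 4 * L / u' := div_le_div_of_nonneg_left (by positivity) hu'0 hJ1
    have h4 : (c * u ^ m) * (4 * (L : ℝ) / u') = L / (4 * u) := by
      rw [hu', pow_succ]; field_simp; ring
    have h4' : (c * u ^ m) * (4 * (L / u')) = L / (4 * u) := by rw [← h4]; ring
    have h5 : (c * u ^ m) * (4 * (C * (16 * c * J₀ * c * F) ^ m' * w ^ ((3 * m + 4) * m'))) ≤ L / u := by
      rw [le_div_iff₀ hu0]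
      have h6 : (8 * c * C * (16 * c * J₀ * c * F) ^ m' : ℝ) * w ^ m₁ ≤ L := by
        refine le_trans ?_ hL
        apply mul_le_mul_of_nonneg_right _ (by positivity)
        rw [hC₁]; push_cast
        have : (0 : ℝ) ≤ 8 * J₀ * c := by positivity
        linarith
      have h7 : u ^ m * w ^ ((3 * m + 4) * m') * u ≤ w ^ m₁ := by
        calc u ^ m * w ^ ((3 * m + 4) * m') * u ≤ w ^ m * w ^ ((3 * m + 4) * m') * w := by
              apply mul_le_mul _ huw hu0.le (by positivity)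
              exact mul_le_mul_of_nonneg_right (pow_le_pow_left₀ hu0.le huw _) (by positivity)
          _ = w ^ (m + (3 * m + 4) * m' + 1) := by rw [pow_add, pow_add, pow_one]
          _ ≤ _ := pow_le_pow_right₀ hw1 (by omega)
      have h8 : (c * u ^ m) * (4 * (C * (16 * c * J₀ * c * F) ^ m' * w ^ ((3 * m + 4) * m'))) * u =
          (4 * c * C * (16 * c * J₀ * c * F) ^ m') * (u ^ m * w ^ ((3 * m + 4) * m') * u) := by ring
      rw [h8]
      have h9 : (4 * c * C * (16 * c * J₀ * c * F) ^ m' : ℝ) * (u ^ m * w ^ ((3 * m + 4) * m') * u) ≤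
          (4 * c * C * (16 * c * J₀ * c * F) ^ m') * w ^ m₁ := mul_le_mul_of_nonneg_left h7 (by positivity)
      have h10 : (0 : ℝ) ≤ (4 * c * C * (16 * c * J₀ * c * F) ^ m') * w ^ m₁ := by positivity
      linarith
    have h11 : (c * u ^ m) * (4 * (L : ℝ) / J + 4 * W) ≤ 2 * L / u := by
      have h12 : (c * u ^ m) * (4 * (L : ℝ) / J) ≤ (c * u ^ m) * (4 * (L : ℝ) / u') :=
        mul_le_mul_of_nonneg_left h3 (by positivity)
      have h13 : (c * u ^ m) * (4 * W) = (c * u ^ m) * (4 * (L / u')) +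
          (c * u ^ m) * (4 * (C * (16 * c * J₀ * c * F) ^ m' * w ^ ((3 * m + 4) * m'))) := by rw [hWdef]; ring
      have h14 : L / (4 * u) + L / (4 * u) + L / u ≤ 2 * L / u := by
        have : L / (4 * u) + L / (4 * u) + L / u = (3 / 2) * (L / u) := by field_simp; ring
        rw [this]
        have h15 : 0 ≤ L / u := by positivity
        have : 2 * L / u = 2 * (L / u) := by ring
        rw [this]; linarith
      rw [mul_add, h13]
      linarith
    linarith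
  -- conclusion
  have h1 : ∀ l' ∈ Ioc L (2 * L), K l' ≤ M / u + (if (M : ℝ) / u < K l' then (M : ℝ) else 0) := by
    intro l' _
    split_ifs with h
    · have := hKM l'
      have : 0 ≤ (M : ℝ) / u := by positivity
      linarith [hKM l']
    · push Not at h; linarith
  calc ∑ l' ∈ Ioc L (2 * L), K l' ≤ ∑ l' ∈ Ioc L (2 * L), (M / u + (if (M : ℝ) / u < K l' then (M : ℝ) else 0)) := sum_le_sum h1
    _ = L * (M / u) + bad.card * M := by
        rw [sum_add_distrib, sum_const, Nat.card_Ioc, nsmul_eq_mul, ← sum_filter, sum_const, nsmul_eq_mul]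
        congr 2
        have : 2 * L - L = L := by omega
        rw [this]
    _ ≤ L * (M / u) + (2 * L / u) * M := by
        have := mul_le_mul_of_nonneg_right hbadc hM0.le
        linarith
    _ = _ := by ring

end Pool.Agent.H806.PD
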