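import Mathlib
import Pool.Agent.H806.PD.T2
import Pool.Agent.H373R2.T7.Vau
import Pool.Agent.H373R2.T7.Lin

/-! Exponential sums over primes with polynomial phases. -/

set_option autoImplicit false

namespace Pool.Agent.H806.PD
open Finset Polynomial
open Pool.Agent.Helper602.MK (ee)
open Pool.Agent.Helper602.MK.N_J5b (ee_add ee_zero ee_conj norm_ee ee_int)
open Pool.Agent.H373R2.T7 (cs_norm vaughan_gen)

theorem typeII (d : ℕ) (hd : 1 ≤ d) (τ : ℕ) (κ α : ℝ) (hα : FT τ κ α) : ∃ C₁ m₁ : ℕ, 1 ≤ C₁ ∧ 1 ≤ m₁ ∧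
    ∀ Q : ℝ[X], Q.natDegree ≤ d → ∀ t : ℤ, t ≠ 0 → Q.coeff d = t * α → ∀ u : ℝ, 1 ≤ u →
    ∀ M L : ℕ, C₁ * (u * |(t : ℝ)|) ^ m₁ ≤ M → C₁ * (u * |(t : ℝ)|) ^ m₁ ≤ L →
    ∀ (N N' : ℕ) (a b : ℕ → ℂ),
    ‖∑ m ∈ Ioc M (2 * M), ∑ l ∈ Ioc L (2 * L), a m * b l *
      (if N < m * l ∧ m * l ≤ N' then ee (Q.eval (((m * l : ℕ)) : ℝ)) else 0)‖ ^ 2 ≤
      (∑ m ∈ Ioc M (2 * M), ‖a m‖ ^ 2) * ((∑ l ∈ Ioc L (2 * L), ‖b l‖ ^ 2) * (3 * ((M : ℝ) * L) / u)) := by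
  classical
  obtain ⟨C₁, m₁, hC₁, hm₁, hkb⟩ := kbound d hd τ κ α hα
  refine ⟨C₁, m₁, hC₁, hm₁, fun Q hQ t ht hQt u hu M L hM hL N N' a b => ?_⟩
  have hkb' := hkb Q hQ t ht hQt u hu M L hM hL
  set S : ℕ → ℂ := fun m => ∑ l ∈ Ioc L (2 * L), b l * (if N < m * l ∧ m * l ≤ N' then ee (Q.eval (((m * l : ℕ)) : ℝ)) else 0) with hS
  have e1 : ∑ m ∈ Ioc M (2 * M), ∑ l ∈ Ioc L (2 * L), a m * b l *
      (if N < m * l ∧ m * l ≤ N' then ee (Q.eval (((m * l : ℕ)) : ℝ)) else 0) = ∑ m ∈ Ioc M (2 * M), a m * S m := by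
    apply sum_congr rfl; intro m _
    rw [hS, mul_sum]
    apply sum_congr rfl; intro l _
    ring
  rw [e1]
  refine (cs_norm _ _ _).trans (mul_le_mul_of_nonneg_left ?_ (by positivity))
  set lo : ℕ → ℕ → ℕ := fun l l' => max M (max (N / l) (N / l')) with hlo
  set hi : ℕ → ℕ → ℕ := fun l l' => min (2 * M) (min (N' / l) (N' / l')) with hhi
  set KK : ℕ → ℕ → ℝ := fun l l' => ‖∑ m ∈ Ioc (lo l l') (hi l l'), ee (Q.eval (((m * l : ℕ)) : ℝ) - Q.eval (((m * l' : ℕ)) : ℝ))‖ with hKK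
  have hsym : ∀ l l', KK l l' = KK l' l := by
    intro l l'
    have e2 : ∑ m ∈ Ioc (lo l l') (hi l l'), ee (Q.eval (((m * l : ℕ)) : ℝ) - Q.eval (((m * l' : ℕ)) : ℝ)) =
        (starRingEnd ℂ) (∑ m ∈ Ioc (lo l' l) (hi l' l), ee (Q.eval (((m * l' : ℕ)) : ℝ) - Q.eval (((m * l : ℕ)) : ℝ))) := by
      rw [map_sum]
      have g1 : lo l l' = lo l' l := by simp only [hlo]; rw [max_comm (N / l)]
      have g2 : hi l l' = hi l' l := by simp only [hhi]; rw [min_comm (N' / l)]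
      rw [g1, g2]
      apply sum_congr rfl; intro m _
      rw [ee_conj]; congr 1; ring
    simp only [hKK]
    rw [e2, RCLike.norm_conj]
  -- expand the square
  have h1 : ((∑ m ∈ Ioc M (2 * M), ‖S m‖ ^ 2 : ℝ) : ℂ) =
      ∑ l ∈ Ioc L (2 * L), ∑ l' ∈ Ioc L (2 * L), (b l * (starRingEnd ℂ) (b l')) *
        ∑ m ∈ (Ioc M (2 * M)).filter (fun m => (N < m * l ∧ m * l ≤ N') ∧ (N < m * l' ∧ m * l' ≤ N')),
          ee (Q.eval (((m * l : ℕ)) : ℝ) - Q.eval (((m * l' : ℕ)) : ℝ)) := by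
    push_cast
    have h2 : ∀ m ∈ Ioc M (2 * M), ((‖S m‖ : ℂ)) ^ 2 = ∑ l ∈ Ioc L (2 * L), ∑ l' ∈ Ioc L (2 * L),
        (b l * (starRingEnd ℂ) (b l')) * (if (N < m * l ∧ m * l ≤ N') ∧ (N < m * l' ∧ m * l' ≤ N') then
          ee (Q.eval (((m * l : ℕ)) : ℝ) - Q.eval (((m * l' : ℕ)) : ℝ)) else 0) := by
      intro m _
      rw [← Complex.mul_conj', hS]
      simp only
      rw [map_sum, sum_mul_sum]
      apply sum_congr rfl; intro l _
      apply sum_congr rfl; intro l' _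
      rw [map_mul]
      by_cases g1 : N < m * l ∧ m * l ≤ N'
      · by_cases g2 : N < m * l' ∧ m * l' ≤ N'
        · rw [if_pos g1, if_pos g2, if_pos ⟨g1, g2⟩, ee_conj]
          have : ee (Q.eval (((m * l : ℕ)) : ℝ) - Q.eval (((m * l' : ℕ)) : ℝ)) =
              ee (Q.eval (((m * l : ℕ)) : ℝ)) * ee (-(Q.eval (((m * l' : ℕ)) : ℝ))) := by
            rw [← ee_add]; congr 1
          rw [this]; ring
        · rw [if_neg g2, if_neg (show ¬ ((N < m * l ∧ m * l ≤ N') ∧ (N < m * l' ∧ m * l' ≤ N')) from fun h => g2 h.2)]; simp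
      · rw [if_neg g1, if_neg (show ¬ ((N < m * l ∧ m * l ≤ N') ∧ (N < m * l' ∧ m * l' ≤ N')) from fun h => g1 h.1)]; simp
    have h2' : ∑ m ∈ Ioc M (2 * M), ((‖S m‖ : ℂ)) ^ 2 = ∑ m ∈ Ioc M (2 * M), ∑ l ∈ Ioc L (2 * L), ∑ l' ∈ Ioc L (2 * L),
        (b l * (starRingEnd ℂ) (b l')) * (if (N < m * l ∧ m * l ≤ N') ∧ (N < m * l' ∧ m * l' ≤ N') then
          ee (Q.eval (((m * l : ℕ)) : ℝ) - Q.eval (((m * l' : ℕ)) : ℝ)) else 0) := sum_congr rfl h2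
    rw [h2', sum_comm]
    apply sum_congr rfl; intro l _
    rw [sum_comm]
    apply sum_congr rfl; intro l' _
    rw [← mul_sum, sum_filter]
    push_cast
    rfl
  have hK : ∀ l ∈ Ioc L (2 * L), ∀ l' ∈ Ioc L (2 * L),
      ‖∑ m ∈ (Ioc M (2 * M)).filter (fun m => (N < m * l ∧ m * l ≤ N') ∧ (N < m * l' ∧ m * l' ≤ N')),
          ee (Q.eval (((m * l : ℕ)) : ℝ) - Q.eval (((m * l' : ℕ)) : ℝ))‖ ≤ KK l l' := by
    intro l hl l' hl'
    rw [mem_Ioc] at hl hl'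
    have hl0 : 0 < l := by omega
    have hl0' : 0 < l' := by omega
    have hset : (Ioc M (2 * M)).filter (fun m => (N < m * l ∧ m * l ≤ N') ∧ (N < m * l' ∧ m * l' ≤ N')) =
        Ioc (lo l l') (hi l l') := by
      ext m
      rw [mem_filter, mem_Ioc, mem_Ioc]
      have g1 : N < m * l ↔ N / l < m := (Nat.div_lt_iff_lt_mul hl0).symm
      have g2 : m * l ≤ N' ↔ m ≤ N' / l := (Nat.le_div_iff_mul_le hl0).symm
      have g3 : N < m * l' ↔ N / l' < m := (Nat.div_lt_iff_lt_mul hl0').symm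
      have g4 : m * l' ≤ N' ↔ m ≤ N' / l' := (Nat.le_div_iff_mul_le hl0').symm
      rw [g1, g2, g3, g4]
      simp only [hlo, hhi]
      omega
    rw [hset]
  have h2 : ∑ m ∈ Ioc M (2 * M), ‖S m‖ ^ 2 ≤
      ∑ l ∈ Ioc L (2 * L), ∑ l' ∈ Ioc L (2 * L), (‖b l‖ ^ 2 + ‖b l'‖ ^ 2) / 2 * KK l l' := by
    have h3 : (∑ m ∈ Ioc M (2 * M), ‖S m‖ ^ 2) = ‖((∑ m ∈ Ioc M (2 * M), ‖S m‖ ^ 2 : ℝ) : ℂ)‖ := by
      rw [Complex.norm_real, Real.norm_of_nonneg (by positivity)]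
    rw [h3, h1]
    refine (norm_sum_le _ _).trans (sum_le_sum fun l hl => ?_)
    refine (norm_sum_le _ _).trans (sum_le_sum fun l' hl' => ?_)
    rw [norm_mul, norm_mul, RCLike.norm_conj]
    apply mul_le_mul _ (hK l hl l' hl') (norm_nonneg _) (by positivity)
    nlinarith [sq_nonneg (‖b l‖ - ‖b l'‖)]
  refine h2.trans ?_
  have h4 : ∑ l ∈ Ioc L (2 * L), ∑ l' ∈ Ioc L (2 * L), (‖b l‖ ^ 2 + ‖b l'‖ ^ 2) / 2 * KK l l' =
      ∑ l ∈ Ioc L (2 * L), ‖b l‖ ^ 2 * ∑ l' ∈ Ioc L (2 * L), KK l l' := by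
    have e2 : ∀ l l' : ℕ, (‖b l‖ ^ 2 + ‖b l'‖ ^ 2) / 2 * KK l l' =
        1 / 2 * (‖b l‖ ^ 2 * KK l l') + 1 / 2 * (‖b l'‖ ^ 2 * KK l l') := by
      intro l l'; ring
    simp_rw [e2, sum_add_distrib]
    have e3 : ∑ l ∈ Ioc L (2 * L), ∑ l' ∈ Ioc L (2 * L), 1 / 2 * (‖b l'‖ ^ 2 * KK l l') =
        ∑ l ∈ Ioc L (2 * L), ∑ l' ∈ Ioc L (2 * L), 1 / 2 * (‖b l‖ ^ 2 * KK l l') := by
      rw [sum_comm]
      apply sum_congr rfl; intro l _
      apply sum_congr rfl; intro l' _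
      rw [hsym l' l]
    rw [e3, ← sum_add_distrib]
    apply sum_congr rfl; intro l _
    rw [← sum_add_distrib, mul_sum]
    apply sum_congr rfl; intro l' _
    ring
  rw [h4, sum_mul]
  apply sum_le_sum
  intro l _
  apply mul_le_mul_of_nonneg_left _ (by positivity)
  exact hkb' l (fun l' => lo l l') (fun l' => hi l l') (fun l' => le_max_left _ _) (fun l' => min_le_left _ _)

/-- one dyadic block -/
theorem block (d : ℕ) (hd : 1 ≤ d) (τ : ℕ) (κ α : ℝ) (hα : FT τ κ α) : ∃ C₂ m₂ : ℕ, 1 ≤ C₂ ∧ 1 ≤ m₂ ∧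
    ∀ Q : ℝ[X], Q.natDegree ≤ d → ∀ t : ℤ, t ≠ 0 → Q.coeff d = t * α → ∀ u : ℝ, 1 ≤ u →
    ∀ N N' : ℕ, C₂ * (u * |(t : ℝ)|) ^ m₂ ≤ N → N ≤ N' → N' ≤ 2 * N →
    ‖∑ n ∈ Ioc N N', ((ArithmeticFunction.vonMangoldt n : ℝ) : ℂ) * ee (Q.eval (n : ℝ))‖ ≤
      40 * (1 + Real.log (4 * N)) ^ 5 * (N / √u) := by
  classical
  obtain ⟨C₁, m₁, hC₁, hm₁, hII⟩ := typeII d hd τ κ α hα
  obtain ⟨C, m, hC, hm, hF⟩ := weyl_ft d hd τ κ α hα
  -- U = 2 ⌈C₁ w^m₁⌉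
  obtain ⟨C₂, hC₂⟩ : ∃ C₂ : ℕ, C₂ = (4 * C₁) ^ 2 + C * (4 * C₁) ^ (2 * (d * m + 1)) := ⟨_, rfl⟩
  obtain ⟨m₂, hm₂⟩ : ∃ m₂ : ℕ, m₂ = 2 * m₁ * (d * m + 1) + m + 1 := ⟨_, rfl⟩
  refine ⟨C₂, m₂, ?_, by omega, ?_⟩
  · rw [hC₂]; nlinarith [Nat.zero_le (C * (4 * C₁) ^ (2 * (d * m + 1)))]
  intro Q hQ t ht hQt u hu N N' hN hNN' hN'
  have hu0 : 0 < u := by linarith
  have ht1 : (1 : ℝ) ≤ |(t : ℝ)| := by
    have : (1 : ℤ) ≤ |t| := Int.one_le_abs ht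
    exact_mod_cast this
  obtain ⟨w, hw⟩ : ∃ w, w = u * |(t : ℝ)| := ⟨_, rfl⟩
  rw [← hw] at hN
  have huw : u ≤ w := by rw [hw]; nlinarith
  have htw : |(t : ℝ)| ≤ w := by rw [hw]; nlinarith
  have hw1 : 1 ≤ w := hu.trans huw
  have hw0 : 0 < w := by linarith
  have hC₁r : (1 : ℝ) ≤ C₁ := by exact_mod_cast hC₁
  have hCr : (1 : ℝ) ≤ C := by exact_mod_cast hC
  have hwm : 1 ≤ w ^ m₁ := one_le_pow₀ hw1
  set U : ℕ := 2 * ⌈(C₁ : ℝ) * w ^ m₁⌉₊ with hU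
  have hc1 : (C₁ : ℝ) * w ^ m₁ ≤ ⌈(C₁ : ℝ) * w ^ m₁⌉₊ := Nat.le_ceil _
  have hc2 : ((⌈(C₁ : ℝ) * w ^ m₁⌉₊ : ℕ) : ℝ) ≤ 2 * (C₁ * w ^ m₁) := by
    have h1 := Nat.ceil_lt_add_one (a := (C₁ : ℝ) * w ^ m₁) (by positivity)
    have h2 : (1 : ℝ) ≤ C₁ * w ^ m₁ := by nlinarith
    linarith
  have hUr : (U : ℝ) ≤ 4 * C₁ * w ^ m₁ := by rw [hU]; push_cast; linarith
  have hU1 : 1 ≤ U := by
    have : (1 : ℝ) ≤ ((⌈(C₁ : ℝ) * w ^ m₁⌉₊ : ℕ) : ℝ) := by nlinarith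
    have : 1 ≤ ⌈(C₁ : ℝ) * w ^ m₁⌉₊ := by exact_mod_cast this
    omega
  have hU0 : (0 : ℝ) < U := by exact_mod_cast hU1
  have hUU : (U : ℝ) * U ≤ (4 * C₁) ^ 2 * w ^ (2 * m₁) := by
    calc (U : ℝ) * U ≤ (4 * C₁ * w ^ m₁) * (4 * C₁ * w ^ m₁) := mul_le_mul hUr hUr hU0.le (by positivity)
      _ = _ := by ring
  have hUN : U * U ≤ N := by
    have h1 : ((4 * C₁ : ℕ) : ℝ) ^ 2 * w ^ (2 * m₁) ≤ N := by
      refine le_trans ?_ hN
      apply mul_le_mul _ (pow_le_pow_right₀ hw1 (by rw [hm₂]; nlinarith [Nat.zero_le (d * m * m₁)])) (by positivity) (by positivity)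
      rw [hC₂]; push_cast
      have : (0 : ℝ) ≤ C * (4 * C₁) ^ (2 * (d * m + 1)) := by positivity
      linarith
    have h2 : ((U * U : ℕ) : ℝ) ≤ N := by
      push_cast at h1 ⊢
      exact hUU.trans h1
    exact_mod_cast h2
  have hNn1 : 1 ≤ N := le_trans (Nat.mul_pos hU1 hU1) hUN
  have hNr : (1 : ℝ) ≤ N := by exact_mod_cast hNn1
  have hN0 : (0 : ℝ) < N := by linarith
  have hsu : 0 < √u := Real.sqrt_pos.2 hu0
  have hsu1 : √u ≤ u := by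
    rw [Real.sqrt_le_left hu0.le]; nlinarith
  set Y : ℕ → ℝ := fun n => 2 * (N : ℝ) / n / u + C * (u * |(((t * (n : ℤ) ^ d : ℤ)) : ℝ)|) ^ m with hY
  have hvg := vaughan_gen (fun n => ee (Q.eval (n : ℝ))) N N' U hNn1 hNN' hN' hU1 hUN Y (√12 * (N / √u)) (by positivity)
    (fun n => by positivity) (by
      intro n hn b' hb'
      rw [mem_Icc] at hn
      have hn0 : (0 : ℝ) < n := by exact_mod_cast (by omega : 0 < n)
      rcases le_or_gt b' (N / n) with h | h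
      · rw [Ioc_eq_empty_of_le h, sum_empty, norm_zero]; simp only [hY]; positivity
      set R : ℝ[X] := Q.comp (Polynomial.C (n : ℝ) * X) with hR
      have hRd : R.natDegree ≤ d := comp_natDegree d Q hQ _
      have hRc : R.coeff d = ((t * (n : ℤ) ^ d : ℤ) : ℝ) * α := by
        rw [hR, comp_coeff, hQt]; push_cast; ring
      have h1 := hF R hRd (t * (n : ℤ) ^ d) (mul_ne_zero ht (pow_ne_zero _ (by exact_mod_cast (by omega : n ≠ 0)))) hRc (N / n) b' h.le u hu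
      have e1 : ∑ l ∈ Ioc (N / n) b', ee (R.eval (l : ℝ)) = ∑ l ∈ Ioc (N / n) b', ee (Q.eval (((n * l : ℕ)) : ℝ)) := by
        apply sum_congr rfl; intro l _
        rw [hR, eval_comp]
        simp only [eval_mul, eval_C, eval_X]
        push_cast; rfl
      rw [e1] at h1
      refine h1.trans ?_
      simp only [hY]
      have h2 : ((b' : ℝ) - ((N / n : ℕ) : ℝ)) ≤ 2 * N / n := by
        have h3 : (b' : ℝ) ≤ ((N' / n : ℕ) : ℝ) := by exact_mod_cast hb'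
        have h4 : ((N' / n : ℕ) : ℝ) ≤ N' / n := Nat.cast_div_le
        have h5 : (N' : ℝ) / n ≤ 2 * N / n := div_le_div_of_nonneg_right (by exact_mod_cast hN') hn0.le
        have h6 : (0 : ℝ) ≤ ((N / n : ℕ) : ℝ) := Nat.cast_nonneg _
        linarith
      have h7 : ((b' : ℝ) - ((N / n : ℕ) : ℝ)) / u ≤ 2 * N / n / u := div_le_div_of_nonneg_right h2 hu0.le
      linarith) (by
      intro a b A₂ B₂ hA0 hB0 M L hM1 hL1 hM2 hL2 hML hA hB
      have hMr : C₁ * w ^ m₁ ≤ (M : ℝ) := by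
        have h1 : ⌈(C₁ : ℝ) * w ^ m₁⌉₊ ≤ M := by omega
        exact hc1.trans (by exact_mod_cast h1)
      have hLr : C₁ * w ^ m₁ ≤ (L : ℝ) := by
        have h1 : ⌈(C₁ : ℝ) * w ^ m₁⌉₊ ≤ L := by omega
        exact hc1.trans (by exact_mod_cast h1)
      have h1 := hII Q hQ t ht hQt u hu M L (by rw [← hw]; exact hMr) (by rw [← hw]; exact hLr) N N' a b
      refine h1.trans ?_
      have hM0 : (0 : ℝ) < M := by exact_mod_cast hM1
      have hL0 : (0 : ℝ) < L := by exact_mod_cast hL1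
      have hMLr : (M : ℝ) * L ≤ 2 * N := by exact_mod_cast hML.trans hN'
      have h2 : (√12 * (N / √u)) ^ 2 = 12 * N ^ 2 / u := by
        rw [mul_pow, div_pow, Real.sq_sqrt (by norm_num), Real.sq_sqrt hu0.le]; ring
      rw [h2]
      calc (∑ m ∈ Ioc M (2 * M), ‖a m‖ ^ 2) * ((∑ l ∈ Ioc L (2 * L), ‖b l‖ ^ 2) * (3 * ((M : ℝ) * L) / u))
          ≤ (A₂ * M) * ((B₂ * L) * (3 * ((M : ℝ) * L) / u)) := by
            apply mul_le_mul hA _ (by positivity) (by positivity)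
            exact mul_le_mul_of_nonneg_right hB (by positivity)
        _ = A₂ * B₂ * (3 * ((M : ℝ) * L) ^ 2 / u) := by ring
        _ ≤ A₂ * B₂ * (12 * N ^ 2 / u) := by
            apply mul_le_mul_of_nonneg_left _ (by positivity)
            apply div_le_div_of_nonneg_right _ hu0.le
            nlinarith [mul_pos hM0 hL0])
  refine hvg.trans ?_
  set Lg : ℝ := 1 + Real.log (4 * N) with hLg
  have hlog4N : 0 ≤ Real.log (4 * (N : ℝ)) := Real.log_nonneg (by linarith)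
  have hLg1 : 1 ≤ Lg := by linarith
  have hLg0 : 0 < Lg := by linarith
  -- the type I sums
  have hYs : ∑ n ∈ Icc 1 (U * U), Y n ≤ 3 * (N / √u) * Lg := by
    simp only [hY]
    rw [sum_add_distrib]
    have h1 : ∑ n ∈ Icc 1 (U * U), 2 * (N : ℝ) / n / u ≤ 2 * (N / √u) * Lg := by
      have h2 : ∑ n ∈ Icc 1 (U * U), 2 * (N : ℝ) / n / u = (2 * N / u) * ∑ n ∈ Icc 1 (U * U), ((n : ℝ))⁻¹ := by
        rw [mul_sum]; apply sum_congr rfl; intro n _; ring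
      have h3 : ∑ n ∈ Icc 1 (U * U), ((n : ℝ))⁻¹ ≤ Lg := by
        have h4 := harmonic_le_one_add_log (U * U)
        have h5 : ((harmonic (U * U) : ℚ) : ℝ) = ∑ n ∈ Icc 1 (U * U), ((n : ℝ))⁻¹ := by
          rw [harmonic_eq_sum_Icc]; push_cast; rfl
        rw [h5] at h4
        refine h4.trans ?_
        rw [hLg]
        have h6 : Real.log ((U * U : ℕ) : ℝ) ≤ Real.log (4 * N) := by
          apply Real.log_le_log
          · exact_mod_cast Nat.mul_pos hU1 hU1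
          · have : ((U * U : ℕ) : ℝ) ≤ N := by exact_mod_cast hUN
            linarith
        linarith
      rw [h2]
      have h7 : 2 * (N : ℝ) / u ≤ 2 * (N / √u) := by
        rw [mul_div_assoc]
        apply mul_le_mul_of_nonneg_left _ (by norm_num)
        exact div_le_div_of_nonneg_left hN0.le hsu hsu1
      exact mul_le_mul h7 h3 (sum_nonneg fun _ _ => by positivity) (by positivity)
    have h8 : ∑ n ∈ Icc 1 (U * U), C * (u * |(((t * (n : ℤ) ^ d : ℤ)) : ℝ)|) ^ m ≤ N / √u := by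
      have h9 : ∀ n ∈ Icc 1 (U * U), C * (u * |(((t * (n : ℤ) ^ d : ℤ)) : ℝ)|) ^ m ≤ C * (w * ((U : ℝ) * U) ^ d) ^ m := by
        intro n hn
        rw [mem_Icc] at hn
        apply mul_le_mul_of_nonneg_left _ (by positivity)
        apply pow_le_pow_left₀ (by positivity)
        push_cast
        rw [abs_mul, abs_pow, Nat.abs_cast, hw]
        have : (n : ℝ) ≤ (U : ℝ) * U := by exact_mod_cast hn.2
        calc u * (|(t : ℝ)| * (n : ℝ) ^ d) = u * |(t : ℝ)| * (n : ℝ) ^ d := by ring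
          _ ≤ u * |(t : ℝ)| * ((U : ℝ) * U) ^ d :=
            mul_le_mul_of_nonneg_left (pow_le_pow_left₀ (Nat.cast_nonneg _) this d) (by positivity)
      calc ∑ n ∈ Icc 1 (U * U), C * (u * |(((t * (n : ℤ) ^ d : ℤ)) : ℝ)|) ^ m
          ≤ ∑ n ∈ Icc 1 (U * U), C * (w * ((U : ℝ) * U) ^ d) ^ m := sum_le_sum h9
        _ = ((U : ℝ) * U) * (C * (w * ((U : ℝ) * U) ^ d) ^ m) := by
            rw [sum_const, Nat.card_Icc, nsmul_eq_mul]; push_cast; simp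
        _ = C * w ^ m * ((U : ℝ) * U) ^ (d * m + 1) := by rw [mul_pow, ← pow_mul]; ring
        _ ≤ C * w ^ m * ((4 * C₁) ^ 2 * w ^ (2 * m₁)) ^ (d * m + 1) :=
            mul_le_mul_of_nonneg_left (pow_le_pow_left₀ (by positivity) hUU _) (by positivity)
        _ = (C * (4 * C₁) ^ (2 * (d * m + 1))) * w ^ (2 * m₁ * (d * m + 1) + m) := by
            rw [mul_pow, ← pow_mul, ← pow_mul]; ring
        _ ≤ N / √u := by
            rw [le_div_iff₀ hsu]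
            have h10 : (C * (4 * C₁) ^ (2 * (d * m + 1))) * w ^ (2 * m₁ * (d * m + 1) + m) * √u ≤
                (C * (4 * C₁) ^ (2 * (d * m + 1))) * w ^ (2 * m₁ * (d * m + 1) + m) * w :=
              mul_le_mul_of_nonneg_left (hsu1.trans huw) (by positivity)
            refine h10.trans (le_trans ?_ hN)
            have h11 : (C * (4 * C₁) ^ (2 * (d * m + 1))) * w ^ (2 * m₁ * (d * m + 1) + m) * w =
                (C * (4 * C₁) ^ (2 * (d * m + 1))) * w ^ m₂ := by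
              rw [hm₂, pow_succ w (2 * m₁ * (d * m + 1) + m)]; ring
            rw [h11]
            apply mul_le_mul_of_nonneg_right _ (by positivity)
            rw [hC₂]; push_cast
            have : (0 : ℝ) ≤ (4 * C₁ : ℝ) ^ 2 := by positivity
            linarith
    have h12 : N / √u ≤ (N / √u) * Lg := le_mul_of_one_le_right (by positivity) hLg1
    linarith
  have hs12 : √12 ≤ 3.5 := by
    rw [Real.sqrt_le_left (by norm_num)]; norm_num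
  have hLg2 : Lg ^ 2 ≤ Lg ^ 5 := pow_le_pow_right₀ hLg1 (by norm_num)
  have hNu : 0 ≤ N / √u := by positivity
  calc 8 * Lg ^ 5 * (√12 * (N / √u)) + 3 * Lg * ∑ n ∈ Icc 1 (U * U), Y n
      ≤ 8 * Lg ^ 5 * (3.5 * (N / √u)) + 3 * Lg * (3 * (N / √u) * Lg) := by
        apply add_le_add
        · apply mul_le_mul_of_nonneg_left _ (by positivity)
          exact mul_le_mul_of_nonneg_right hs12 hNu
        · exact mul_le_mul_of_nonneg_left hYs (by positivity)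
    _ = 28 * Lg ^ 5 * (N / √u) + 9 * Lg ^ 2 * (N / √u) := by ring
    _ ≤ 28 * Lg ^ 5 * (N / √u) + 9 * Lg ^ 5 * (N / √u) := by
        have := mul_le_mul_of_nonneg_right hLg2 hNu
        linarith
    _ ≤ 40 * Lg ^ 5 * (N / √u) := by
        have : 0 ≤ Lg ^ 5 * (N / √u) := by positivity
        linarith

end Pool.Agent.H806.PD
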