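import Mathlib
import Pool.Agent.H806.PD.V
import Pool.Agent.H373R2.T3.TypeI

/-! From the von Mangoldt function to the primes, power saving, uniformity in the linear term. -/

set_option autoImplicit false

namespace Pool.Agent.H806.PD
open Finset Polynomial Filter
open Pool.Agent.Helper602.MK (ee)
open Pool.Agent.Helper602.MK.N_J5b (ee_add ee_zero ee_conj norm_ee ee_int)
open Pool.Agent.H373R2.T3 (abel_Ioc)

lemma dyadic (E : ℕ → ℂ) (hE : ∀ n, ‖E n‖ ≤ 1) (N X₀ : ℕ) (hX : 1 ≤ X₀) (B : ℝ) (hB : 0 ≤ B)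
    (h : ∀ a b : ℕ, X₀ ≤ a → a ≤ b → b ≤ 2 * a → b ≤ N →
      ‖∑ n ∈ Ioc a b, ((ArithmeticFunction.vonMangoldt n : ℝ) : ℂ) * E n‖ ≤ B * a) :
    ∀ y : ℕ, y ≤ N → ‖∑ n ∈ Ioc 0 y, ((ArithmeticFunction.vonMangoldt n : ℝ) : ℂ) * E n‖ ≤
      (2 * X₀ + 2) * Real.log N + 4 * B * y := by
  intro y
  induction y using Nat.strong_induction_on with
  | _ y ih =>
    intro hy
    have hlogN : 0 ≤ Real.log N := Real.log_natCast_nonneg N
    rcases lt_or_ge y (2 * X₀ + 2) with h1 | h1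
    · have h2 : ‖∑ n ∈ Ioc 0 y, ((ArithmeticFunction.vonMangoldt n : ℝ) : ℂ) * E n‖ ≤ y * Real.log N := by
        refine (norm_sum_le _ _).trans ?_
        have h3 : ∀ n ∈ Ioc 0 y, ‖((ArithmeticFunction.vonMangoldt n : ℝ) : ℂ) * E n‖ ≤ Real.log N := by
          intro n hn
          rw [mem_Ioc] at hn
          rw [norm_mul, Complex.norm_real, Real.norm_of_nonneg ArithmeticFunction.vonMangoldt_nonneg]
          have h4 : ArithmeticFunction.vonMangoldt n ≤ Real.log N := by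
            refine ArithmeticFunction.vonMangoldt_le_log.trans ?_
            exact Real.log_le_log (by exact_mod_cast hn.1) (by exact_mod_cast hn.2.trans hy)
          calc ArithmeticFunction.vonMangoldt n * ‖E n‖ ≤ Real.log N * 1 :=
                mul_le_mul h4 (hE n) (norm_nonneg _) hlogN
            _ = _ := mul_one _
        calc ∑ n ∈ Ioc 0 y, ‖((ArithmeticFunction.vonMangoldt n : ℝ) : ℂ) * E n‖ ≤ ∑ n ∈ Ioc 0 y, Real.log N := sum_le_sum h3
          _ = _ := by rw [sum_const, Nat.card_Ioc, nsmul_eq_mul, Nat.sub_zero]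
      have h5 : (y : ℝ) ≤ 2 * X₀ + 2 := by exact_mod_cast h1.le
      have h6 : (y : ℝ) * Real.log N ≤ (2 * X₀ + 2) * Real.log N := mul_le_mul_of_nonneg_right h5 hlogN
      have : 0 ≤ 4 * B * y := by positivity
      linarith
    · have h2 : (y + 1) / 2 < y := by omega
      have h3 := ih ((y + 1) / 2) h2 (by omega)
      have h4 := h ((y + 1) / 2) y (by omega) (by omega) (by omega) hy
      have e : ∑ n ∈ Ioc 0 y, ((ArithmeticFunction.vonMangoldt n : ℝ) : ℂ) * E n =
          ∑ n ∈ Ioc 0 ((y + 1) / 2), ((ArithmeticFunction.vonMangoldt n : ℝ) : ℂ) * E n +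
          ∑ n ∈ Ioc ((y + 1) / 2) y, ((ArithmeticFunction.vonMangoldt n : ℝ) : ℂ) * E n := by
        rw [← sum_Ioc_consecutive _ (Nat.zero_le _) h2.le]
      rw [e]
      refine (norm_add_le _ _).trans ?_
      have h5 : ((((y + 1) / 2 : ℕ)) : ℝ) ≤ ((y : ℝ) + 1) / 2 := by
        have : (((y + 1) / 2 : ℕ) : ℝ) ≤ ((y + 1 : ℕ) : ℝ) / ((2 : ℕ) : ℝ) := Nat.cast_div_le
        push_cast at this ⊢
        exact this
      have h6 : (4 : ℝ) ≤ y := by exact_mod_cast (by omega : 4 ≤ y)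
      have h7 : 4 * B * (((y + 1) / 2 : ℕ) : ℝ) + B * (((y + 1) / 2 : ℕ) : ℝ) ≤ 4 * B * y := by
        have : 4 * B * (((y + 1) / 2 : ℕ) : ℝ) + B * (((y + 1) / 2 : ℕ) : ℝ) = B * (5 * (((y + 1) / 2 : ℕ) : ℝ)) := by ring
        rw [this]
        have h8 : 5 * (((y + 1) / 2 : ℕ) : ℝ) ≤ 4 * y := by linarith
        have := mul_le_mul_of_nonneg_left h8 hB
        linarith
      linarith

lemma to_primes (E : ℕ → ℂ) (hE : ∀ n, ‖E n‖ ≤ 1) (N : ℕ) (hN : 1 ≤ N) (T : ℝ)
    (h : ∀ y : ℕ, y ≤ N → ‖∑ n ∈ Ioc 0 y, ((ArithmeticFunction.vonMangoldt n : ℝ) : ℂ) * E n‖ ≤ T) :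
    ∀ y : ℕ, y ≤ N → ‖∑ p ∈ (Ioc 0 y).filter Nat.Prime, E p‖ ≤ 5 * (T + 2 * √(N : ℝ) * Real.log N) := by
  classical
  set z : ℕ → ℂ := fun n => if n.Prime then (Real.log n : ℂ) * E n else 0 with hz
  set T' : ℝ := T + 2 * √(N : ℝ) * Real.log N with hT'
  have h1 : ∀ y : ℕ, y ≤ N → ‖∑ n ∈ Ioc 0 y, z n‖ ≤ T' := by
    intro y hy
    rcases Nat.eq_zero_or_pos y with h0 | h0
    · subst h0
      have := h 0 (Nat.zero_le _)
      simp only [Ioc_self, sum_empty, norm_zero] at this ⊢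
      have h3 : 0 ≤ 2 * √(N : ℝ) * Real.log N := mul_nonneg (by positivity) (Real.log_natCast_nonneg N)
      linarith
    have e : ∑ n ∈ Ioc 0 y, z n = ∑ n ∈ Ioc 0 y, ((ArithmeticFunction.vonMangoldt n : ℝ) : ℂ) * E n -
        ∑ n ∈ (Ioc 0 y).filter (fun n => ¬ n.Prime), ((ArithmeticFunction.vonMangoldt n : ℝ) : ℂ) * E n := by
      rw [sum_filter, ← sum_sub_distrib]
      apply sum_congr rfl; intro n _
      simp only [hz]
      by_cases hp : n.Prime
      · rw [if_pos hp, if_neg (by simpa using hp), sub_zero, ArithmeticFunction.vonMangoldt_apply_prime hp]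
      · rw [if_neg hp, if_pos hp, sub_self]
    rw [e]
    refine (norm_sub_le _ _).trans ?_
    have h2 := h y hy
    have h3 : ‖∑ n ∈ (Ioc 0 y).filter (fun n => ¬ n.Prime), ((ArithmeticFunction.vonMangoldt n : ℝ) : ℂ) * E n‖ ≤
        2 * √(N : ℝ) * Real.log N := by
      have hy1 : (1 : ℝ) ≤ y := by exact_mod_cast h0
      have hyN : (y : ℝ) ≤ N := by exact_mod_cast hy
      have h4 : ‖∑ n ∈ (Ioc 0 y).filter (fun n => ¬ n.Prime), ((ArithmeticFunction.vonMangoldt n : ℝ) : ℂ) * E n‖ ≤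
          ∑ n ∈ (Ioc 0 y).filter (fun n => ¬ n.Prime), ArithmeticFunction.vonMangoldt n := by
        refine (norm_sum_le _ _).trans (sum_le_sum fun n _ => ?_)
        rw [norm_mul, Complex.norm_real, Real.norm_of_nonneg ArithmeticFunction.vonMangoldt_nonneg]
        calc ArithmeticFunction.vonMangoldt n * ‖E n‖ ≤ ArithmeticFunction.vonMangoldt n * 1 :=
              mul_le_mul_of_nonneg_left (hE n) ArithmeticFunction.vonMangoldt_nonneg
          _ = _ := mul_one _
      have h5 := Chebyshev.psi_sub_theta_eq_sum_not_prime (y : ℝ)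
      rw [Nat.floor_natCast] at h5
      have h6 := Chebyshev.psi_sub_theta_le hy1
      have h7 : 2 * √(y : ℝ) * Real.log y ≤ 2 * √(N : ℝ) * Real.log N := by
        apply mul_le_mul _ (Real.log_le_log (by linarith) hyN) (Real.log_nonneg hy1) (by positivity)
        exact mul_le_mul_of_nonneg_left (Real.sqrt_le_sqrt hyN) (by norm_num)
      linarith
    linarith
  intro y hy
  set c : ℝ := 1 / Real.log 2 with hc
  have hl2 : 0 < Real.log 2 := Real.log_pos (by norm_num)
  have hc0 : 0 < c := by positivity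
  set w : ℕ → ℝ := fun n => c - 1 / Real.log (max n 2 : ℕ) with hw
  have hlm : ∀ n : ℕ, Real.log 2 ≤ Real.log (max n 2 : ℕ) := fun n =>
    Real.log_le_log (by norm_num) (by exact_mod_cast le_max_right n 2)
  have hw0 : ∀ n, 0 ≤ w n := by
    intro n
    simp only [hw, hc]
    have : 1 / Real.log (max n 2 : ℕ) ≤ 1 / Real.log 2 := one_div_le_one_div_of_le hl2 (hlm n)
    linarith
  have hwm : Monotone w := by
    intro a b hab
    simp only [hw]
    have h2 : Real.log (max a 2 : ℕ) ≤ Real.log (max b 2 : ℕ) := by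
      apply Real.log_le_log
      · have : 0 < max a 2 := by omega
        exact_mod_cast this
      · exact_mod_cast max_le_max_right 2 hab
    have h3 : 1 / Real.log (max b 2 : ℕ) ≤ 1 / Real.log (max a 2 : ℕ) :=
      one_div_le_one_div_of_le (lt_of_lt_of_le hl2 (hlm a)) h2
    linarith
  have h2 := abel_Ioc 0 y (Nat.zero_le _) w z T' hwm hw0 (fun b' hb' => h1 b' (hb'.trans hy))
  have h3 : w y ≤ c := by
    simp only [hw]
    have : 0 ≤ 1 / Real.log (max y 2 : ℕ) := by
      have := lt_of_lt_of_le hl2 (hlm y)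
      positivity
    linarith
  have hT'0 : 0 ≤ T' := (norm_nonneg _).trans (h1 y hy)
  have e : ∑ p ∈ (Ioc 0 y).filter Nat.Prime, E p = (c : ℂ) * ∑ l ∈ Ioc 0 y, z l - ∑ l ∈ Ioc 0 y, (w l : ℂ) * z l := by
    rw [mul_sum, ← sum_sub_distrib, sum_filter]
    apply sum_congr rfl; intro n _
    simp only [hz]
    by_cases hp : n.Prime
    · rw [if_pos hp, if_pos hp]
      have h4 : max n 2 = n := max_eq_left hp.two_le
      have h5 : Real.log n ≠ 0 := by
        have := Real.log_pos (by exact_mod_cast hp.one_lt : (1 : ℝ) < n)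
        exact this.ne'
      simp only [hw]
      rw [h4]
      push_cast
      have h6 : ((Real.log n : ℝ) : ℂ) ≠ 0 := by exact_mod_cast h5
      rw [← Complex.natCast_log] at *
      field_simp
      ring
    · rw [if_neg hp, if_neg hp, mul_zero, mul_zero, sub_zero]
  rw [e]
  refine (norm_sub_le _ _).trans ?_
  rw [norm_mul, Complex.norm_real, Real.norm_of_nonneg hc0.le]
  have h5 : c ≤ 3 / 2 := by
    rw [hc, div_le_iff₀ hl2]
    have := Real.log_two_gt_d9
    linarith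
  have h6 := h1 y hy
  calc c * ‖∑ l ∈ Ioc 0 y, z l‖ + ‖∑ l ∈ Ioc 0 y, (w l : ℂ) * z l‖ ≤ c * T' + 2 * w y * T' := by
        have := mul_le_mul_of_nonneg_left h6 hc0.le
        linarith
    _ ≤ c * T' + 2 * c * T' := by
        have := mul_le_mul_of_nonneg_right (mul_le_mul_of_nonneg_left h3 (by norm_num : (0 : ℝ) ≤ 2)) hT'0
        linarith
    _ ≤ 5 * T' := by
        have := mul_le_mul_of_nonneg_right h5 hT'0
        linarith

end Pool.Agent.H806.PD
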