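import Mathlib
import Pool.Agent.H806.PD.S

/-! Power saving in the exponential sums over primes. -/

set_option autoImplicit false

namespace Pool.Agent.H806.PD
open Finset Polynomial Filter
open Pool.Agent.Helper602.MK (ee)
open Pool.Agent.Helper602.MK.N_J5b (ee_add ee_zero ee_conj norm_ee ee_int)

lemma ev_pow (C ε : ℝ) (hε : 0 < ε) : ∃ N₀ : ℕ, ∀ N : ℕ, N₀ ≤ N → C ≤ (N : ℝ) ^ ε := by
  have h1 := (tendsto_rpow_atTop hε).comp tendsto_natCast_atTop_atTop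
  obtain ⟨N₀, h⟩ := eventually_atTop.1 (h1.eventually_ge_atTop C)
  exact ⟨N₀, h⟩

lemma ev_logpow (C : ℝ) (hC : 0 ≤ C) (k : ℕ) (hk : 1 ≤ k) (ε : ℝ) (hε : 0 < ε) :
    ∃ N₀ : ℕ, ∀ N : ℕ, N₀ ≤ N → C * (1 + Real.log (4 * N)) ^ k ≤ (N : ℝ) ^ ε := by
  have hk0 : (0 : ℝ) < k := by exact_mod_cast hk
  set δ : ℝ := ε / (2 * k) with hδ
  have hδ0 : 0 < δ := by positivity
  obtain ⟨N₀, h⟩ := ev_pow (C * ((1 + 1 / δ) * 4 ^ δ) ^ k) (ε / 2) (by positivity)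
  refine ⟨N₀ + 1, fun N hN => ?_⟩
  have hN1 : (1 : ℝ) ≤ N := by exact_mod_cast (by omega : 1 ≤ N)
  have hN0 : (0 : ℝ) < N := by linarith
  have h1 : Real.log (4 * N) ≤ (4 * N) ^ δ / δ := Real.log_le_rpow_div (by positivity) hδ0
  have h2 : (1 : ℝ) ≤ (4 * (N : ℝ)) ^ δ := Real.one_le_rpow (by linarith) hδ0.le
  have h3 : 1 + Real.log (4 * N) ≤ (1 + 1 / δ) * 4 ^ δ * (N : ℝ) ^ δ := by
    rw [mul_assoc, ← Real.mul_rpow (by norm_num) hN0.le]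
    have : (1 + 1 / δ) * (4 * (N : ℝ)) ^ δ = (4 * (N : ℝ)) ^ δ + (4 * N) ^ δ / δ := by ring
    rw [this]; linarith
  have h4 : 0 ≤ 1 + Real.log (4 * N) := by
    have := Real.log_nonneg (by linarith : (1 : ℝ) ≤ 4 * N)
    linarith
  have h5 : (1 + Real.log (4 * N)) ^ k ≤ ((1 + 1 / δ) * 4 ^ δ) ^ k * (N : ℝ) ^ (ε / 2) := by
    calc (1 + Real.log (4 * N)) ^ k ≤ ((1 + 1 / δ) * 4 ^ δ * (N : ℝ) ^ δ) ^ k := pow_le_pow_left₀ h4 h3 k
      _ = _ := by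
        rw [mul_pow, ← Real.rpow_natCast ((N : ℝ) ^ δ) k, ← Real.rpow_mul hN0.le]
        congr 2
        rw [hδ]; field_simp
  have h6 := h N (by omega)
  calc C * (1 + Real.log (4 * N)) ^ k ≤ C * (((1 + 1 / δ) * 4 ^ δ) ^ k * (N : ℝ) ^ (ε / 2)) :=
        mul_le_mul_of_nonneg_left h5 hC
    _ = (C * ((1 + 1 / δ) * 4 ^ δ) ^ k) * (N : ℝ) ^ (ε / 2) := by ring
    _ ≤ (N : ℝ) ^ (ε / 2) * (N : ℝ) ^ (ε / 2) := mul_le_mul_of_nonneg_right h6 (by positivity)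
    _ = _ := by rw [← Real.rpow_add hN0]; congr 1; ring

theorem prime_sum (d : ℕ) (hd : 2 ≤ d) (τ : ℕ) (κ α : ℝ) (hα : FT τ κ α) (P : ℝ[X]) (hP : P.natDegree ≤ d)
    (hPc : P.coeff d = α) : ∃ η : ℝ, 0 < η ∧ η ≤ 1 / 16 ∧ ∃ N₀ : ℕ, ∀ N : ℕ, N₀ ≤ N → ∀ k : ℤ, k ≠ 0 →
    |(k : ℝ)| ≤ (N : ℝ) ^ η → ∀ β : ℝ, ∀ y : ℕ, y ≤ N →
    ‖∑ p ∈ (Ioc 0 y).filter Nat.Prime, ee (k * P.eval (p : ℝ) + β * p)‖ ≤ (N : ℝ) ^ (1 - η) := by
  obtain ⟨C₂, m₂, hC₂, hm₂, hb⟩ := block d (by omega) τ κ α hα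
  have hm0 : (1 : ℝ) ≤ m₂ := by exact_mod_cast hm₂
  set η : ℝ := 1 / (16 * m₂) with hη
  have hη0 : 0 < η := by positivity
  have hη1 : η ≤ 1 / 16 := by
    rw [hη]
    apply one_div_le_one_div_of_le (by norm_num)
    linarith
  obtain ⟨n1, h1⟩ := ev_pow C₂ (3 / 16) (by norm_num)
  obtain ⟨n2, h2⟩ := ev_logpow 840 (by norm_num) 5 (by norm_num) η hη0
  refine ⟨η, hη0, hη1, n1 + n2 + 4, fun N hN k hk hkN β => ?_⟩
  have hN4 : (4 : ℝ) ≤ N := by exact_mod_cast (by omega : 4 ≤ N)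
  have hN1 : (1 : ℝ) ≤ N := by linarith
  have hN0 : (0 : ℝ) < N := by linarith
  set u : ℝ := (N : ℝ) ^ (4 * η) with hu
  have hu1 : 1 ≤ u := Real.one_le_rpow hN1 (by positivity)
  have hu0 : 0 < u := by linarith
  have hk1 : (1 : ℝ) ≤ |(k : ℝ)| := by
    have : (1 : ℤ) ≤ |k| := Int.one_le_abs hk
    exact_mod_cast this
  have hw : (u * |(k : ℝ)|) ^ m₂ ≤ (N : ℝ) ^ (5 / 16 : ℝ) := by
    have h3 : u * |(k : ℝ)| ≤ (N : ℝ) ^ (5 * η) := by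
      calc u * |(k : ℝ)| ≤ u * (N : ℝ) ^ η := mul_le_mul_of_nonneg_left hkN hu0.le
        _ = _ := by rw [hu, ← Real.rpow_add hN0]; congr 1; ring
    calc (u * |(k : ℝ)|) ^ m₂ ≤ ((N : ℝ) ^ (5 * η)) ^ m₂ := pow_le_pow_left₀ (by positivity) h3 m₂
      _ = (N : ℝ) ^ (5 * η * m₂) := by rw [← Real.rpow_natCast, ← Real.rpow_mul hN0.le]
      _ = _ := by congr 1; rw [hη]; field_simp
  set X₀ : ℕ := ⌈(C₂ : ℝ) * (u * |(k : ℝ)|) ^ m₂⌉₊ with hX₀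
  have hC₂r : (1 : ℝ) ≤ C₂ := by exact_mod_cast hC₂
  have hone : (1 : ℝ) ≤ (C₂ : ℝ) * (u * |(k : ℝ)|) ^ m₂ := by
    have h4 : 1 ≤ (u * |(k : ℝ)|) ^ m₂ := one_le_pow₀ (by nlinarith)
    nlinarith
  have hX1 : (C₂ : ℝ) * (u * |(k : ℝ)|) ^ m₂ ≤ X₀ := Nat.le_ceil _
  have hX1' : 1 ≤ X₀ := by exact_mod_cast hone.trans hX1
  have hX2 : (X₀ : ℝ) ≤ 2 * √(N : ℝ) := by
    have h3 := Nat.ceil_lt_add_one (a := (C₂ : ℝ) * (u * |(k : ℝ)|) ^ m₂) (by positivity)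
    have h4 : (C₂ : ℝ) * (u * |(k : ℝ)|) ^ m₂ ≤ √(N : ℝ) := by
      calc (C₂ : ℝ) * (u * |(k : ℝ)|) ^ m₂ ≤ (N : ℝ) ^ (3 / 16 : ℝ) * (N : ℝ) ^ (5 / 16 : ℝ) :=
            mul_le_mul (h1 N (by omega)) hw (by positivity) (by positivity)
        _ = √(N : ℝ) := by rw [← Real.rpow_add hN0, Real.sqrt_eq_rpow]; norm_num
    linarith
  set E : ℕ → ℂ := fun n => ee (k * P.eval (n : ℝ) + β * n) with hE
  have hE1 : ∀ n, ‖E n‖ ≤ 1 := fun n => (norm_ee _).le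
  set R : ℝ[X] := Polynomial.C (k : ℝ) * P + Polynomial.C β * X with hR
  have hRd : R.natDegree ≤ d := by
    rw [hR]
    refine (natDegree_add_le _ _).trans (max_le ((natDegree_C_mul_le _ _).trans hP) ?_)
    exact (natDegree_C_mul_le _ _).trans (natDegree_X_le.trans (by omega))
  have hRc : R.coeff d = k * α := by
    rw [hR, coeff_add, coeff_C_mul, coeff_C_mul, hPc, coeff_X, if_neg (by omega), mul_zero, add_zero]
  have hRe : ∀ n : ℕ, R.eval (n : ℝ) = k * P.eval (n : ℝ) + β * n := by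
    intro n; rw [hR]; simp
  have hlog4 : ∀ a : ℕ, 1 ≤ a → a ≤ N → 1 + Real.log (4 * a) ≤ 1 + Real.log (4 * N) ∧ 0 ≤ 1 + Real.log (4 * a) := by
    intro a ha haN
    have ha1 : (1 : ℝ) ≤ a := by exact_mod_cast ha
    have haN' : (a : ℝ) ≤ N := by exact_mod_cast haN
    have g1 := Real.log_le_log (by linarith : (0 : ℝ) < 4 * a) (by linarith : (4 : ℝ) * a ≤ 4 * N)
    have g2 := Real.log_nonneg (by linarith : (1 : ℝ) ≤ 4 * a)
    exact ⟨by linarith, by linarith⟩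
  set B : ℝ := 40 * (1 + Real.log (4 * N)) ^ 5 / √u with hB
  have hsu : 0 < √u := Real.sqrt_pos.2 hu0
  have hLN : 0 ≤ 1 + Real.log (4 * N) := (hlog4 N (by omega) le_rfl).2
  have hB0 : 0 ≤ B := by positivity
  have hdy := dyadic E hE1 N X₀ hX1' B hB0 (by
    intro a b ha hab hb2 hbN
    have haX : (X₀ : ℝ) ≤ a := by exact_mod_cast ha
    have h3 := hb R hRd k hk hRc u hu1 a b (hX1.trans haX) hab hb2
    have e1 : ∑ n ∈ Ioc a b, ((ArithmeticFunction.vonMangoldt n : ℝ) : ℂ) * ee (R.eval (n : ℝ)) =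
        ∑ n ∈ Ioc a b, ((ArithmeticFunction.vonMangoldt n : ℝ) : ℂ) * E n := by
      apply sum_congr rfl; intro n _; rw [hRe n]
    rw [e1] at h3
    refine h3.trans ?_
    obtain ⟨g1, g2⟩ := hlog4 a (by omega) (by omega)
    have h4 : (1 + Real.log (4 * a)) ^ 5 ≤ (1 + Real.log (4 * N)) ^ 5 := pow_le_pow_left₀ g2 g1 5
    have e2 : B * a = 40 * (1 + Real.log (4 * N)) ^ 5 * (a / √u) := by rw [hB]; ring
    rw [e2]
    apply mul_le_mul_of_nonneg_right _ (by positivity)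
    linarith)
  have hlogN : 0 ≤ Real.log N := Real.log_natCast_nonneg N
  set T : ℝ := (2 * X₀ + 2) * Real.log N + 4 * B * N with hT
  have h5 := to_primes E hE1 N (by omega) T (by
    intro y hy
    refine (hdy y hy).trans ?_
    have : (y : ℝ) ≤ N := by exact_mod_cast hy
    have := mul_le_mul_of_nonneg_left this (by positivity : 0 ≤ 4 * B)
    rw [hT]; linarith)
  intro y hy
  refine (h5 y hy).trans ?_
  -- numerics
  have hs1 : 1 ≤ √(N : ℝ) := by rw [Real.one_le_sqrt]; exact hN1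
  have h6 : (2 * (X₀ : ℝ) + 2) * Real.log N ≤ 6 * √(N : ℝ) * Real.log N := by
    apply mul_le_mul_of_nonneg_right _ hlogN
    linarith
  have hsq : √u = (N : ℝ) ^ (2 * η) := by
    rw [hu, Real.sqrt_eq_rpow, ← Real.rpow_mul hN0.le]; congr 1; ring
  have h7 : B * N = 40 * (1 + Real.log (4 * N)) ^ 5 * (N : ℝ) ^ (1 - 2 * η) := by
    rw [hB, hsq, Real.rpow_sub hN0, Real.rpow_one]; ring
  have hL1 : 1 ≤ 1 + Real.log (4 * N) := by
    have := Real.log_nonneg (by linarith : (1 : ℝ) ≤ 4 * N)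
    linarith
  have h8 : √(N : ℝ) * Real.log N ≤ (1 + Real.log (4 * N)) ^ 5 * (N : ℝ) ^ (1 - 2 * η) := by
    have g1 : √(N : ℝ) ≤ (N : ℝ) ^ (1 - 2 * η) := by
      rw [Real.sqrt_eq_rpow]
      apply Real.rpow_le_rpow_of_exponent_le hN1
      linarith
    have g2 : Real.log N ≤ (1 + Real.log (4 * N)) ^ 5 := by
      have g3 : Real.log N ≤ Real.log (4 * N) := Real.log_le_log hN0 (by linarith)
      have g4 : 1 + Real.log (4 * N) ≤ (1 + Real.log (4 * N)) ^ 5 := le_self_pow₀ hL1 (by norm_num)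
      linarith
    rw [mul_comm]
    exact mul_le_mul g2 g1 (by positivity) (by positivity)
  have h9 := h2 N (by omega)
  have h10 : (N : ℝ) ^ η * (N : ℝ) ^ (1 - 2 * η) = (N : ℝ) ^ (1 - η) := by
    rw [← Real.rpow_add hN0]; congr 1; ring
  have h11 := mul_le_mul_of_nonneg_right h9 (by positivity : 0 ≤ (N : ℝ) ^ (1 - 2 * η))
  rw [h10] at h11
  have h12 : 5 * (T + 2 * √(N : ℝ) * Real.log N) ≤ 840 * (1 + Real.log (4 * N)) ^ 5 * (N : ℝ) ^ (1 - 2 * η) := by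
    rw [hT]
    have e3 : 4 * B * N = 160 * ((1 + Real.log (4 * N)) ^ 5 * (N : ℝ) ^ (1 - 2 * η)) := by
      have : 4 * B * N = 4 * (B * N) := by ring
      rw [this, h7]; ring
    rw [e3]
    have h13 : 6 * √(N : ℝ) * Real.log N = 6 * (√(N : ℝ) * Real.log N) := by ring
    have h14 : 2 * √(N : ℝ) * Real.log N = 2 * (√(N : ℝ) * Real.log N) := by ring
    rw [h14]
    rw [h13] at h6
    have : 840 * (1 + Real.log (4 * N)) ^ 5 * (N : ℝ) ^ (1 - 2 * η) =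
      840 * ((1 + Real.log (4 * N)) ^ 5 * (N : ℝ) ^ (1 - 2 * η)) := by ring
    rw [this]
    linarith
  exact h12.trans h11

end Pool.Agent.H806.PD
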