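import Mathlib
import Pool.Agent.H806.PD.S2
import Pool.Agent.H806.PD.EQ

/-! Equidistribution of polynomials at the primes `p` with `p + h` prime, for almost all `h`. -/

set_option autoImplicit false

namespace Pool.Agent.H806.PD
open Finset Polynomial
open Pool.Agent.Helper602.MK (ee)
open Pool.Agent.Helper602.MK.N_J5b (ee_add ee_zero ee_conj norm_ee ee_int)

/-- the primes `p ≡ a (mod q)` with `p + h ≤ y` a prime -/
def SP (a q h y : ℕ) : Finset ℕ := (Ioc 0 y).filter (fun p => p.Prime ∧ (p + h).Prime ∧ p + h ≤ y ∧ p ≡ a [MOD q])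

lemma orthD (M : ℕ) (hM : 1 ≤ M) (z : ℤ) :
    ∑ ξ ∈ range M, ee ((ξ : ℝ) * (z / M)) = if (M : ℤ) ∣ z then (M : ℂ) else 0 := by
  have hM0 : (M : ℝ) ≠ 0 := by exact_mod_cast (by omega : M ≠ 0)
  have hM0' : (M : ℤ) ≠ 0 := by exact_mod_cast (by omega : M ≠ 0)
  have hmod : ∀ ξ ∈ range M, ee ((ξ : ℝ) * (z / M)) = ee ((ξ : ℝ) * ((z % M : ℤ) / M)) := by
    intro ξ _
    have h1 : (z : ℝ) = ((z % M : ℤ) : ℝ) + M * ((z / M : ℤ) : ℝ) := by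
      have := Int.emod_add_mul_ediv z M
      exact_mod_cast this.symm
    have h2 : (ξ : ℝ) * (z / M) = (ξ : ℝ) * ((z % M : ℤ) / M) + (((ξ : ℤ) * (z / M) : ℤ) : ℝ) := by
      rw [h1]
      push_cast
      field_simp
    rw [h2, ee_add, ee_int, mul_one]
  rw [sum_congr rfl hmod, orthZ M hM _ (by
    rw [abs_of_nonneg (Int.emod_nonneg _ hM0')]
    exact Int.emod_lt_of_pos _ (by omega))]
  by_cases h : (M : ℤ) ∣ z
  · rw [if_pos (Int.emod_eq_zero_of_dvd h), if_pos h]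
  · rw [if_neg (fun h1 => h (Int.dvd_of_emod_eq_zero h1)), if_neg h]

/-- restriction to a residue class -/
lemma prog (N q a : ℕ) (hq : 1 ≤ q) (φ : ℕ → ℝ) (F : ℝ)
    (hF : ∀ β : ℝ, ‖∑ p ∈ (Ioc 0 N).filter Nat.Prime, ee (φ p + β * p)‖ ≤ F) (β : ℝ) :
    ‖∑ p ∈ (Ioc 0 N).filter (fun p => p.Prime ∧ p ≡ a [MOD q]), ee (φ p + β * p)‖ ≤ F := by
  classical
  have hq0 : (0 : ℝ) < q := by exact_mod_cast hq
  have hqc : (q : ℂ) ≠ 0 := by exact_mod_cast (by omega : q ≠ 0)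
  have e1 : ∑ p ∈ (Ioc 0 N).filter (fun p => p.Prime ∧ p ≡ a [MOD q]), ee (φ p + β * p) =
      (1 / q : ℂ) * ∑ ξ ∈ range q, ee (-((ξ : ℝ) * (a / q))) * ∑ p ∈ (Ioc 0 N).filter Nat.Prime, ee (φ p + (β + ξ / q) * p) := by
    have e2 : ∑ ξ ∈ range q, ee (-((ξ : ℝ) * (a / q))) * ∑ p ∈ (Ioc 0 N).filter Nat.Prime, ee (φ p + (β + ξ / q) * p) =
        ∑ p ∈ (Ioc 0 N).filter Nat.Prime, ee (φ p + β * p) * ∑ ξ ∈ range q, ee ((ξ : ℝ) * ((((p : ℤ) - a : ℤ) : ℝ) / q)) := by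
      simp_rw [mul_sum]
      rw [sum_comm]
      apply sum_congr rfl; intro p _
      apply sum_congr rfl; intro ξ _
      rw [← ee_add, ← ee_add]
      congr 1; push_cast; ring
    rw [e2, ← filter_filter, sum_filter, mul_sum]
    apply sum_congr rfl; intro p _
    rw [orthD q hq]
    have e3 : ((q : ℤ) ∣ (p : ℤ) - a) ↔ p ≡ a [MOD q] := by
      rw [Nat.ModEq.comm, Nat.modEq_iff_dvd]
    by_cases h : p ≡ a [MOD q]
    · rw [if_pos h, if_pos (e3.2 h)]; field_simp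
    · rw [if_neg h, if_neg (fun h1 => h (e3.1 h1))]; ring
  rw [e1, norm_mul]
  have e4 : ‖(1 / q : ℂ)‖ = 1 / q := by simp
  rw [e4]
  have h1 : ‖∑ ξ ∈ range q, ee (-((ξ : ℝ) * (a / q))) * ∑ p ∈ (Ioc 0 N).filter Nat.Prime, ee (φ p + (β + ξ / q) * p)‖ ≤ q * F := by
    refine (norm_sum_le _ _).trans ?_
    calc ∑ ξ ∈ range q, ‖ee (-((ξ : ℝ) * (a / q))) * ∑ p ∈ (Ioc 0 N).filter Nat.Prime, ee (φ p + (β + ξ / q) * p)‖
        ≤ ∑ _ξ ∈ range q, F := by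
          apply sum_le_sum; intro ξ _
          rw [norm_mul, norm_ee, one_mul]
          exact hF _
      _ = q * F := by rw [sum_const, card_range, nsmul_eq_mul]
  calc 1 / (q : ℝ) * ‖∑ ξ ∈ range q, ee (-((ξ : ℝ) * (a / q))) * ∑ p ∈ (Ioc 0 N).filter Nat.Prime, ee (φ p + (β + ξ / q) * p)‖
      ≤ 1 / q * (q * F) := mul_le_mul_of_nonneg_left h1 (by positivity)
    _ = F := by field_simp

lemma sum_SP (a q N h y : ℕ) (hy : y ≤ N) (φ ψ : ℕ → ℝ) :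
    ∑ p ∈ SP a q h y, ee (φ p + ψ (p + h)) = ∑ n ∈ Ioc 0 N, ∑ m ∈ Ioc 0 N,
      (if m = n + h then (if n.Prime ∧ n ≡ a [MOD q] then ee (φ n) else 0) * (if m.Prime ∧ m ≤ y then ee (ψ m) else 0) else 0) := by
  classical
  have h1 : ∀ n ∈ Ioc 0 N, ∑ m ∈ Ioc 0 N,
      (if m = n + h then (if n.Prime ∧ n ≡ a [MOD q] then ee (φ n) else 0) * (if m.Prime ∧ m ≤ y then ee (ψ m) else 0) else 0) =
      if n.Prime ∧ (n + h).Prime ∧ n + h ≤ y ∧ n ≡ a [MOD q] then ee (φ n + ψ (n + h)) else 0 := by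
    intro n hn
    rw [mem_Ioc] at hn
    rw [sum_ite_eq']
    by_cases h2 : n.Prime ∧ (n + h).Prime ∧ n + h ≤ y ∧ n ≡ a [MOD q]
    · rw [if_pos h2, if_pos (mem_Ioc.2 ⟨by omega, by omega⟩), if_pos ⟨h2.1, h2.2.2.2⟩, if_pos ⟨h2.2.1, h2.2.2.1⟩, ee_add]
    · rw [if_neg h2]
      by_cases h3 : n.Prime ∧ n ≡ a [MOD q]
      · have h4 : ¬ ((n + h).Prime ∧ n + h ≤ y) := fun h5 => h2 ⟨h3.1, h5.1, h5.2, h3.2⟩
        rw [if_neg h4, mul_zero, ite_self]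
      · rw [if_neg h3, zero_mul, ite_self]
  rw [sum_congr rfl h1, ← sum_filter]
  apply sum_congr _ fun _ _ => rfl
  ext p
  rw [SP, mem_filter, mem_filter, mem_Ioc, mem_Ioc]
  constructor
  · rintro ⟨⟨g1, g2⟩, g3, g4, g5, g6⟩
    exact ⟨⟨g1, g2.trans hy⟩, g3, g4, g5, g6⟩
  · rintro ⟨⟨g1, g2⟩, g3, g4, g5, g6⟩
    exact ⟨⟨g1, by omega⟩, g3, g4, g5, g6⟩

/-- mean square over the differences -/
lemma mean_square (P R : ℝ[X]) (η : ℝ) (N : ℕ)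
    (hP : ∀ k : ℤ, k ≠ 0 → |(k : ℝ)| ≤ (N : ℝ) ^ η → ∀ β : ℝ, ∀ y : ℕ, y ≤ N →
      ‖∑ p ∈ (Ioc 0 y).filter Nat.Prime, ee (k * P.eval (p : ℝ) + β * p)‖ ≤ (N : ℝ) ^ (1 - η))
    (hR : ∀ k : ℤ, k ≠ 0 → |(k : ℝ)| ≤ (N : ℝ) ^ η → ∀ β : ℝ, ∀ y : ℕ, y ≤ N →
      ‖∑ p ∈ (Ioc 0 y).filter Nat.Prime, ee (k * R.eval (p : ℝ) + β * p)‖ ≤ (N : ℝ) ^ (1 - η))
    (k l : ℤ) (hkl : k ≠ 0 ∨ l ≠ 0) (hk : |(k : ℝ)| ≤ (N : ℝ) ^ η) (hl : |(l : ℝ)| ≤ (N : ℝ) ^ η)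
    (y : ℕ) (hy : y ≤ N) (a q : ℕ) (hq : 1 ≤ q) :
    ∑ h ∈ range (N + 1), ‖∑ p ∈ SP a q h y, ee (k * P.eval (p : ℝ) + l * R.eval (((p + h : ℕ)) : ℝ))‖ ^ 2 ≤
      ((N : ℝ) ^ (1 - η)) ^ 2 * N := by
  classical
  set f : ℕ → ℂ := fun n => if n.Prime ∧ n ≡ a [MOD q] then ee (k * P.eval (n : ℝ)) else 0 with hf
  set g : ℕ → ℂ := fun m => if m.Prime ∧ m ≤ y then ee (l * R.eval (m : ℝ)) else 0 with hg
  have e1 : ∀ h ∈ range (N + 1), ‖∑ p ∈ SP a q h y, ee (k * P.eval (p : ℝ) + l * R.eval (((p + h : ℕ)) : ℝ))‖ ^ 2 =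
      ‖∑ n ∈ Ioc 0 N, ∑ m ∈ Ioc 0 N, (if m = n + h then f n * g m else 0)‖ ^ 2 := by
    intro h _
    have := sum_SP a q N h y hy (fun n => k * P.eval (n : ℝ)) (fun m => l * R.eval (m : ℝ))
    rw [this]
  rw [sum_congr rfl e1]
  have hfn : ∀ n, ‖f n‖ ^ 2 ≤ 1 := by
    intro n; simp only [hf]; split_ifs <;> simp [norm_ee]
  have hgn : ∀ n, ‖g n‖ ^ 2 ≤ 1 := by
    intro n; simp only [hg]; split_ifs <;> simp [norm_ee]
  have hs : ∀ F : ℕ → ℂ, (∀ n, ‖F n‖ ^ 2 ≤ 1) → ∑ n ∈ Ioc 0 N, ‖F n‖ ^ 2 ≤ N := by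
    intro F hF
    calc ∑ n ∈ Ioc 0 N, ‖F n‖ ^ 2 ≤ ∑ _n ∈ Ioc 0 N, (1 : ℝ) := sum_le_sum fun n _ => hF n
      _ = N := by simp
  rcases ne_or_eq k 0 with h | h
  · refine (variance N f g ((N : ℝ) ^ (1 - η)) ?_).trans (mul_le_mul_of_nonneg_left (hs g hgn) (by positivity))
    intro β
    have e2 : ∑ n ∈ Ioc 0 N, f n * ee (β * n) = ∑ p ∈ (Ioc 0 N).filter (fun p => p.Prime ∧ p ≡ a [MOD q]), ee (k * P.eval (p : ℝ) + β * p) := by
      rw [sum_filter]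
      apply sum_congr rfl; intro n _
      simp only [hf]
      split_ifs
      · rw [ee_add]
      · rw [zero_mul]
    rw [e2]
    exact prog N q a hq (fun p => k * P.eval (p : ℝ)) _ (fun β => hP k h hk β N le_rfl) β
  · have hl0 : l ≠ 0 := by
      rcases hkl with h1 | h1
      · exact absurd h h1
      · exact h1
    refine (variance' N f g ((N : ℝ) ^ (1 - η)) ?_).trans (mul_le_mul_of_nonneg_left (hs f hfn) (by positivity))
    intro β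
    have e2 : ∑ n ∈ Ioc 0 N, g n * ee (β * n) = ∑ p ∈ (Ioc 0 y).filter Nat.Prime, ee (l * R.eval (p : ℝ) + β * p) := by
      have e3 : ∑ n ∈ Ioc 0 N, g n * ee (β * n) = ∑ n ∈ Ioc 0 N, (if n.Prime ∧ n ≤ y then ee (l * R.eval (n : ℝ) + β * n) else 0) := by
        apply sum_congr rfl; intro n _
        simp only [hg]
        split_ifs
        · rw [ee_add]
        · rw [zero_mul]
      rw [e3, ← sum_filter]
      apply sum_congr _ fun _ _ => rfl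
      ext p
      rw [mem_filter, mem_filter, mem_Ioc, mem_Ioc]
      constructor
      · rintro ⟨⟨g1, g2⟩, g3, g4⟩; exact ⟨⟨g1, g4⟩, g3⟩
      · rintro ⟨⟨g1, g2⟩, g3⟩; exact ⟨⟨g1, g2.trans hy⟩, g3, g2⟩
    rw [e2]
    exact hR l hl0 hl β y hy

/-- the number of the primes `p` with `p + h ≤ y` prime and `P p`, `R (p + h)` in given intervals modulo one -/
noncomputable def box (P R : ℝ[X]) (a q h y : ℕ) (a₁ b₁ a₂ b₂ : ℝ) : ℕ := by
  classical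
  exact ((SP a q h y).filter (fun p : ℕ => Int.fract (P.eval (p : ℝ) - a₁) < b₁ ∧
    Int.fract (R.eval (((p + h : ℕ)) : ℝ) - a₂) < b₂)).card

lemma box_window (P R : ℝ[X]) (a q h y y' : ℕ) (hyy : y' ≤ y) (a₁ b₁ a₂ b₂ : ℝ) :
    (box P R a q h y' a₁ b₁ a₂ b₂ : ℝ) ≤ box P R a q h y a₁ b₁ a₂ b₂ ∧
    (box P R a q h y a₁ b₁ a₂ b₂ : ℝ) ≤ box P R a q h y' a₁ b₁ a₂ b₂ + ((y : ℝ) - y') := by
  classical
  unfold box
  constructor
  · apply Nat.cast_le.2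
    apply card_le_card
    intro p hp
    rw [mem_filter, SP, mem_filter, mem_Ioc] at hp ⊢
    exact ⟨⟨⟨hp.1.1.1, by omega⟩, hp.1.2.1, hp.1.2.2.1, by omega, hp.1.2.2.2.2⟩, hp.2⟩
  · have h1 : (SP a q h y).filter (fun p : ℕ => Int.fract (P.eval (p : ℝ) - a₁) < b₁ ∧ Int.fract (R.eval (((p + h : ℕ)) : ℝ) - a₂) < b₂) ⊆
        (SP a q h y').filter (fun p : ℕ => Int.fract (P.eval (p : ℝ) - a₁) < b₁ ∧ Int.fract (R.eval (((p + h : ℕ)) : ℝ) - a₂) < b₂) ∪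
        (Ioc y' y).image (fun q => q - h) := by
      intro p hp
      rw [mem_union, mem_image]
      rw [mem_filter, SP, mem_filter, mem_Ioc] at hp
      rcases le_or_gt (p + h) y' with h2 | h2
      · left
        rw [mem_filter, SP, mem_filter, mem_Ioc]
        exact ⟨⟨⟨hp.1.1.1, by omega⟩, hp.1.2.1, hp.1.2.2.1, h2, hp.1.2.2.2.2⟩, hp.2⟩
      · right
        exact ⟨p + h, mem_Ioc.2 ⟨h2, hp.1.2.2.2.1⟩, by omega⟩
    have h2 := (card_le_card h1).trans (card_union_le _ _)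
    have h3 : ((Ioc y' y).image (fun q => q - h)).card ≤ y - y' := card_image_le.trans (by rw [Nat.card_Ioc])
    have h4 := h2.trans (Nat.add_le_add_left h3 _)
    rw [← Nat.cast_sub hyy, ← Nat.cast_add]
    exact Nat.cast_le.2 h4

lemma SP_window (a q h y y' : ℕ) (hyy : y' ≤ y) : ((SP a q h y').card : ℝ) ≤ (SP a q h y).card ∧
    ((SP a q h y).card : ℝ) ≤ (SP a q h y').card + ((y : ℝ) - y') := by
  classical
  have h1 := box_window 0 0 a q h y y' hyy 0 1 0 1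
  have e : ∀ z, box 0 0 a q h z 0 1 0 1 = (SP a q h z).card := by
    intro z
    unfold box
    rw [filter_true_of_mem]
    intro p _
    exact ⟨Int.fract_lt_one _, Int.fract_lt_one _⟩
  rw [e, e] at h1
  exact h1

theorem main_eq (d₁ d₂ : ℕ) (hd₁ : 2 ≤ d₁) (hd₂ : 2 ≤ d₂) (τ₁ τ₂ : ℕ) (κ₁ κ₂ α₁ α₂ : ℝ) (hα₁ : FT τ₁ κ₁ α₁) (hα₂ : FT τ₂ κ₂ α₂)
    (P R : ℝ[X]) (hP : P.natDegree ≤ d₁) (hPc : P.coeff d₁ = α₁) (hR : R.natDegree ≤ d₂) (hRc : R.coeff d₂ = α₂) :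
    ∃ η : ℝ, 0 < η ∧ η ≤ 1 / 16 ∧ ∃ N₀ : ℕ, ∀ N : ℕ, N₀ ≤ N → ∃ B : Finset ℕ, (B.card : ℝ) ≤ (N : ℝ) ^ (1 - η) ∧
      ∀ h : ℕ, h ≤ N → h ∉ B → ∀ q : ℕ, 1 ≤ q → (q : ℝ) ≤ (N : ℝ) ^ η → ∀ a y : ℕ, y ≤ N → ∀ a₁ b₁ a₂ b₂ : ℝ, 0 ≤ b₁ → b₁ ≤ 1 → 0 ≤ b₂ → b₂ ≤ 1 →
        |(box P R a q h y a₁ b₁ a₂ b₂ : ℝ) - b₁ * b₂ * (SP a q h y).card| ≤ (N : ℝ) ^ (1 - η) := by
  classical
  obtain ⟨η₁, h10, h11, n1, hs1⟩ := prime_sum d₁ hd₁ τ₁ κ₁ α₁ hα₁ P hP hPc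
  obtain ⟨η₂, h20, h21, n2, hs2⟩ := prime_sum d₂ hd₂ τ₂ κ₂ α₂ hα₂ R hR hRc
  set θ : ℝ := min η₁ η₂ / 16 with hθ
  have hθ0 : 0 < θ := by rw [hθ]; have := lt_min h10 h20; positivity
  have hθ1 : 16 * θ ≤ η₁ := by rw [hθ]; have := min_le_left η₁ η₂; linarith
  have hθ2 : 16 * θ ≤ η₂ := by rw [hθ]; have := min_le_right η₁ η₂; linarith
  obtain ⟨n3, hn3⟩ := ev_pow 200 (θ / 2) (by positivity)
  refine ⟨θ / 2, by positivity, by linarith, n1 + n2 + n3 + 4, fun N hN => ?_⟩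
  have hN4 : (4 : ℝ) ≤ N := by exact_mod_cast (by omega : 4 ≤ N)
  have hN1 : (1 : ℝ) ≤ N := by linarith
  have hN0 : (0 : ℝ) < N := by linarith
  have hbig : 200 ≤ (N : ℝ) ^ (θ / 2) := hn3 N (by omega)
  have hbig2 : 200 ≤ (N : ℝ) ^ θ := hbig.trans (Real.rpow_le_rpow_of_exponent_le hN1 (by linarith))
  set L : ℕ := ⌊(N : ℝ) ^ θ⌋₊ with hL
  have hLle : (L : ℝ) ≤ (N : ℝ) ^ θ := Nat.floor_le (by positivity)
  have hLge : (N : ℝ) ^ θ / 2 ≤ L := by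
    have := Nat.lt_floor_add_one ((N : ℝ) ^ θ)
    linarith
  have hL2 : 2 ≤ L := by
    have : (2 : ℝ) ≤ L := by linarith
    exact_mod_cast this
  have hLr : (2 : ℝ) ≤ L := by exact_mod_cast hL2
  have hL0 : (0 : ℝ) < L := by linarith
  -- the bounds for the sums
  have hP' : ∀ k : ℤ, k ≠ 0 → |(k : ℝ)| ≤ (N : ℝ) ^ (16 * θ) → ∀ β : ℝ, ∀ y : ℕ, y ≤ N →
      ‖∑ p ∈ (Ioc 0 y).filter Nat.Prime, ee (k * P.eval (p : ℝ) + β * p)‖ ≤ (N : ℝ) ^ (1 - 16 * θ) := by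
    intro k hk hkN β y hy
    refine (hs1 N (by omega) k hk (hkN.trans (Real.rpow_le_rpow_of_exponent_le hN1 hθ1)) β y hy).trans ?_
    exact Real.rpow_le_rpow_of_exponent_le hN1 (by linarith)
  have hR' : ∀ k : ℤ, k ≠ 0 → |(k : ℝ)| ≤ (N : ℝ) ^ (16 * θ) → ∀ β : ℝ, ∀ y : ℕ, y ≤ N →
      ‖∑ p ∈ (Ioc 0 y).filter Nat.Prime, ee (k * R.eval (p : ℝ) + β * p)‖ ≤ (N : ℝ) ^ (1 - 16 * θ) := by
    intro k hk hkN β y hy
    refine (hs2 N (by omega) k hk (hkN.trans (Real.rpow_le_rpow_of_exponent_le hN1 hθ2)) β y hy).trans ?_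
    exact Real.rpow_le_rpow_of_exponent_le hN1 (by linarith)
  set F := Ioo (-((L ^ 3 : ℕ) : ℤ)) (L ^ 3 : ℕ) with hF
  have hFk : ∀ k ∈ F, |(k : ℝ)| ≤ (N : ℝ) ^ (16 * θ) := by
    intro k hk
    rw [hF, mem_Ioo] at hk
    have h1 : |k| ≤ (L ^ 3 : ℕ) := by rw [abs_le]; omega
    have h2 : |(k : ℝ)| ≤ (L : ℝ) ^ 3 := by exact_mod_cast h1
    refine h2.trans ?_
    calc (L : ℝ) ^ 3 ≤ ((N : ℝ) ^ θ) ^ 3 := pow_le_pow_left₀ hL0.le hLle 3
      _ = (N : ℝ) ^ (θ * 3) := by rw [← Real.rpow_natCast, ← Real.rpow_mul hN0.le]; norm_num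
      _ ≤ _ := Real.rpow_le_rpow_of_exponent_le hN1 (by linarith)
  have hFc : (F.card : ℝ) ≤ 2 * (L : ℝ) ^ 3 := by
    have h1 : F.card ≤ 2 * L ^ 3 := by
      rw [hF, Int.card_Ioo]
      have : (0 : ℤ) ≤ (L ^ 3 : ℕ) := by positivity
      omega
    have : (F.card : ℝ) ≤ ((2 * L ^ 3 : ℕ) : ℝ) := by exact_mod_cast h1
    push_cast at this
    exact this
  set G : ℕ := N / L + 1 with hG
  have hGr : (G : ℝ) ≤ N / L + 1 := by
    rw [hG]; push_cast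
    have : ((N / L : ℕ) : ℝ) ≤ N / L := Nat.cast_div_le
    linarith
  set W : ℝ := (N : ℝ) ^ (1 - 8 * θ) with hW
  have hW0 : 0 < W := by positivity
  set S : ℤ → ℤ → ℕ → ℕ → ℕ → ℕ → ℝ := fun k l j a q h => ‖∑ p ∈ SP a q h (j * G), ee (k * P.eval (p : ℝ) + l * R.eval (((p + h : ℕ)) : ℝ))‖ with hS
  set idx := (((F ×ˢ F) ×ˢ (range (L + 1))) ×ˢ (range L ×ˢ Icc 1 L)).filter (fun i => (i.1.1.1 ≠ 0 ∨ i.1.1.2 ≠ 0) ∧ i.1.2 * G ≤ N) with hidx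
  set B : Finset ℕ := (range (N + 1)).filter (fun h => ∃ i ∈ idx, W < S i.1.1.1 i.1.1.2 i.1.2 i.2.1 i.2.2 h) with hB
  refine ⟨B, ?_, ?_⟩
  · -- the number of exceptions
    have h1 : B ⊆ idx.biUnion (fun i => (range (N + 1)).filter (fun h => W < S i.1.1.1 i.1.1.2 i.1.2 i.2.1 i.2.2 h)) := by
      intro h hh
      rw [hB, mem_filter] at hh
      obtain ⟨i, hi, hi2⟩ := hh.2
      exact mem_biUnion.2 ⟨i, hi, mem_filter.2 ⟨hh.1, hi2⟩⟩
    have h2 : ∀ i ∈ idx, (((range (N + 1)).filter (fun h => W < S i.1.1.1 i.1.1.2 i.1.2 i.2.1 i.2.2 h)).card : ℝ) ≤ (N : ℝ) ^ (1 - 16 * θ) := by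
      intro i hi
      rw [hidx, mem_filter, mem_product, mem_product, mem_product, mem_product, mem_Icc] at hi
      obtain ⟨⟨⟨⟨hk, hl⟩, _⟩, _, hq1, _⟩, hne, hjN⟩ := hi
      have h3 := mean_square P R (16 * θ) N hP' hR' i.1.1.1 i.1.1.2 hne (hFk _ hk) (hFk _ hl) (i.1.2 * G) hjN i.2.1 i.2.2 hq1
      have h4 : (((range (N + 1)).filter (fun h => W < S i.1.1.1 i.1.1.2 i.1.2 i.2.1 i.2.2 h)).card : ℝ) * W ^ 2 ≤
          ((N : ℝ) ^ (1 - 16 * θ)) ^ 2 * N := by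
        refine le_trans ?_ h3
        calc (((range (N + 1)).filter (fun h => W < S i.1.1.1 i.1.1.2 i.1.2 i.2.1 i.2.2 h)).card : ℝ) * W ^ 2
            = ∑ h ∈ (range (N + 1)).filter (fun h => W < S i.1.1.1 i.1.1.2 i.1.2 i.2.1 i.2.2 h), W ^ 2 := by rw [sum_const, nsmul_eq_mul]
          _ ≤ ∑ h ∈ (range (N + 1)).filter (fun h => W < S i.1.1.1 i.1.1.2 i.1.2 i.2.1 i.2.2 h), S i.1.1.1 i.1.1.2 i.1.2 i.2.1 i.2.2 h ^ 2 := by
            apply sum_le_sum; intro h hh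
            rw [mem_filter] at hh
            exact pow_le_pow_left₀ hW0.le hh.2.le 2
          _ ≤ _ := sum_le_sum_of_subset_of_nonneg (filter_subset _ _) fun _ _ _ => by positivity
      have e1 : ((N : ℝ) ^ (1 - 16 * θ)) ^ 2 * N = (N : ℝ) ^ (1 - 16 * θ) * W ^ 2 := by
        rw [hW, ← Real.rpow_natCast, ← Real.rpow_natCast, ← Real.rpow_mul hN0.le, ← Real.rpow_mul hN0.le]
        nth_rewrite 2 [← Real.rpow_one (N : ℝ)]
        rw [← Real.rpow_add hN0, ← Real.rpow_add hN0]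
        congr 1; push_cast; ring
      rw [e1] at h4
      exact le_of_mul_le_mul_right h4 (by positivity)
    have h5 : (B.card : ℝ) ≤ ∑ i ∈ idx, (((range (N + 1)).filter (fun h => W < S i.1.1.1 i.1.1.2 i.1.2 i.2.1 i.2.2 h)).card : ℝ) := by
      have := (card_le_card h1).trans card_biUnion_le
      exact_mod_cast this
    have h6 : (idx.card : ℝ) ≤ 8 * (L : ℝ) ^ 9 := by
      have h7 : (idx.card : ℝ) ≤ (((((F ×ˢ F) ×ˢ (range (L + 1))) ×ˢ (range L ×ˢ Icc 1 L)).card : ℕ) : ℝ) := Nat.cast_le.2 (card_filter_le _ _)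
      rw [card_product, card_product, card_product, card_product, card_range, card_range, Nat.card_Icc, Nat.add_sub_cancel] at h7
      push_cast at h7
      calc (idx.card : ℝ) ≤ (F.card : ℝ) * F.card * (L + 1) * (L * L) := h7
        _ ≤ (2 * (L : ℝ) ^ 3) * (2 * (L : ℝ) ^ 3) * (2 * L) * (L * L) := by
            apply mul_le_mul_of_nonneg_right _ (by positivity)
            apply mul_le_mul _ (by linarith) (by positivity) (by positivity)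
            exact mul_le_mul hFc hFc (Nat.cast_nonneg _) (by positivity)
        _ = _ := by ring
    calc (B.card : ℝ) ≤ ∑ i ∈ idx, (N : ℝ) ^ (1 - 16 * θ) := h5.trans (sum_le_sum h2)
      _ = idx.card * (N : ℝ) ^ (1 - 16 * θ) := by rw [sum_const, nsmul_eq_mul]
      _ ≤ (8 * (L : ℝ) ^ 9) * (N : ℝ) ^ (1 - 16 * θ) := mul_le_mul_of_nonneg_right h6 (by positivity)
      _ ≤ ((N : ℝ) ^ θ * ((N : ℝ) ^ θ) ^ 9) * (N : ℝ) ^ (1 - 16 * θ) := by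
          apply mul_le_mul_of_nonneg_right _ (by positivity)
          exact mul_le_mul (by linarith) (pow_le_pow_left₀ hL0.le hLle 9) (by positivity) (by positivity)
      _ = (N : ℝ) ^ (1 - 6 * θ) := by
          rw [← Real.rpow_natCast ((N : ℝ) ^ θ), ← Real.rpow_mul hN0.le, ← Real.rpow_add hN0, ← Real.rpow_add hN0]
          congr 1; push_cast; ring
      _ ≤ _ := Real.rpow_le_rpow_of_exponent_le hN1 (by linarith)
  · intro h hhN hhB q hq1 hqN a' y hy a₁ b₁ a₂ b₂ hb1 hb1' hb2 hb2'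
    -- reduce the class
    set a : ℕ := a' % q with ha
    have haq : a < q := Nat.mod_lt _ hq1
    have hmod : ∀ p : ℕ, p ≡ a' [MOD q] ↔ p ≡ a [MOD q] := fun p =>
      ⟨fun h => h.trans (Nat.mod_modEq a' q).symm, fun h => h.trans (Nat.mod_modEq a' q)⟩
    have hSPa : SP a' q h y = SP a q h y := by
      unfold SP
      apply filter_congr; intro p _
      rw [hmod p]
    have hboxa : box P R a' q h y a₁ b₁ a₂ b₂ = box P R a q h y a₁ b₁ a₂ b₂ := by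
      unfold box
      rw [hSPa]
    rw [hSPa, hboxa]
    have hqL : q ≤ L := by
      apply Nat.le_floor
      exact hqN.trans (Real.rpow_le_rpow_of_exponent_le hN1 (by linarith))
    set j : ℕ := y / G with hj
    have hG0 : 0 < G := by rw [hG]; exact Nat.succ_pos _
    have hjy : j * G ≤ y := Nat.div_mul_le_self y G
    have hjN : j * G ≤ N := hjy.trans hy
    have hyG : y - j * G ≤ G := by
      have := Nat.mod_lt y hG0
      have h1 := Nat.div_add_mod y G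
      rw [← hj] at h1
      rw [mul_comm] at h1
      omega
    have hjL : j ≤ L := by
      by_contra hcon
      push Not at hcon
      have h1 : (L + 1) * G ≤ N := (Nat.mul_le_mul_right G hcon).trans hjN
      have h2 : N < L * G := by
        rw [hG]
        have := Nat.lt_mul_div_succ N (by omega : 0 < L)
        linarith
      nlinarith
    have hWb : ∀ k l : ℤ, k ∈ F → l ∈ F → (k ≠ 0 ∨ l ≠ 0) →
        ‖∑ p ∈ SP a q h (j * G), ee (k * P.eval (p : ℝ) + l * R.eval (((p + h : ℕ)) : ℝ))‖ ≤ W := by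
      intro k l hk hl hkl
      by_contra hcon
      push Not at hcon
      apply hhB
      rw [hB, mem_filter]
      exact ⟨mem_range.2 (by omega), (((k, l), j), (a, q)), by
        rw [hidx, mem_filter, mem_product, mem_product, mem_product, mem_product, mem_Icc]
        exact ⟨⟨⟨⟨hk, hl⟩, mem_range.2 (Nat.lt_succ_of_le hjL)⟩, mem_range.2 (haq.trans_le hqL), hq1, hqL⟩, hkl, hjN⟩, hcon⟩
    have h1 := box_count (SP a q h (j * G)) (fun p => P.eval (p : ℝ)) (fun p => R.eval (((p + h : ℕ)) : ℝ)) L hL2 W hW0.le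
      hWb a₁ b₁ a₂ b₂ hb1 hb1' hb2 hb2'
    have h1' : |(box P R a q h (j * G) a₁ b₁ a₂ b₂ : ℝ) - b₁ * b₂ * (SP a q h (j * G)).card| ≤
        48 * (SP a q h (j * G)).card / L + 32 * (L : ℝ) ^ 6 * W := by
      unfold box
      convert h1 using 6
    obtain ⟨w1, w2⟩ := box_window P R a q h y (j * G) hjy a₁ b₁ a₂ b₂
    obtain ⟨w3, w4⟩ := SP_window a q h y (j * G) hjy
    have hyG' : (y : ℝ) - ((j * G : ℕ) : ℝ) ≤ G := by
      rw [← Nat.cast_sub hjy]; exact_mod_cast hyG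
    have hb12 : 0 ≤ b₁ * b₂ := mul_nonneg hb1 hb2
    have hb12' : b₁ * b₂ ≤ 1 := mul_le_one₀ hb1' hb2 hb2'
    have hcard : ((SP a q h (j * G)).card : ℝ) ≤ N := by
      have h2 : (SP a q h (j * G)).card ≤ N := by
        refine (card_filter_le _ _).trans ?_
        rw [Nat.card_Ioc]; omega
      exact_mod_cast h2
    have h3 : |(box P R a q h y a₁ b₁ a₂ b₂ : ℝ) - b₁ * b₂ * (SP a q h y).card| ≤
        48 * (N : ℝ) / L + 32 * (L : ℝ) ^ 6 * W + G := by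
      have h4 : 48 * ((SP a q h (j * G)).card : ℝ) / L ≤ 48 * (N : ℝ) / L := by
        apply div_le_div_of_nonneg_right _ hL0.le
        linarith
      have h5 : 0 ≤ b₁ * b₂ * (((SP a q h y).card : ℝ) - (SP a q h (j * G)).card) := mul_nonneg hb12 (by linarith)
      have h6 : b₁ * b₂ * (((SP a q h y).card : ℝ) - (SP a q h (j * G)).card) ≤ G := by
        calc b₁ * b₂ * (((SP a q h y).card : ℝ) - (SP a q h (j * G)).card) ≤ 1 * (((SP a q h y).card : ℝ) - (SP a q h (j * G)).card) :=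
              mul_le_mul_of_nonneg_right hb12' (by linarith)
          _ ≤ G := by linarith
      rw [abs_le] at h1' ⊢
      constructor <;> nlinarith [h1'.1, h1'.2]
    refine h3.trans ?_
    -- numerics
    have g1 : (N : ℝ) / L ≤ 2 * (N : ℝ) ^ (1 - θ) := by
      rw [div_le_iff₀ hL0]
      have : (N : ℝ) ^ (1 - θ) * (N : ℝ) ^ θ = N := by rw [← Real.rpow_add hN0]; simp
      have h4 := mul_le_mul_of_nonneg_left hLge (by positivity : 0 ≤ 2 * (N : ℝ) ^ (1 - θ))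
      have h5 : 2 * (N : ℝ) ^ (1 - θ) * ((N : ℝ) ^ θ / 2) = N := by
        calc 2 * (N : ℝ) ^ (1 - θ) * ((N : ℝ) ^ θ / 2) = (N : ℝ) ^ (1 - θ) * (N : ℝ) ^ θ := by ring
          _ = N := this
      linarith
    have g2 : (L : ℝ) ^ 6 * W ≤ (N : ℝ) ^ (1 - θ) := by
      calc (L : ℝ) ^ 6 * W ≤ ((N : ℝ) ^ θ) ^ 6 * W := mul_le_mul_of_nonneg_right (pow_le_pow_left₀ hL0.le hLle 6) hW0.le
        _ = (N : ℝ) ^ (1 - 2 * θ) := by
            rw [hW, ← Real.rpow_natCast ((N : ℝ) ^ θ), ← Real.rpow_mul hN0.le, ← Real.rpow_add hN0]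
            congr 1; push_cast; ring
        _ ≤ _ := Real.rpow_le_rpow_of_exponent_le hN1 (by linarith)
    have g3 : (1 : ℝ) ≤ (N : ℝ) ^ (1 - θ) := Real.one_le_rpow hN1 (by linarith)
    have g4 : 48 * (N : ℝ) / L + 32 * (L : ℝ) ^ 6 * W + G ≤ 131 * (N : ℝ) ^ (1 - θ) := by
      have e2 : 48 * (N : ℝ) / L = 48 * (N / L) := by ring
      have e3 : 32 * (L : ℝ) ^ 6 * W = 32 * ((L : ℝ) ^ 6 * W) := by ring
      rw [e2, e3]
      linarith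
    refine g4.trans ?_
    have g5 : (N : ℝ) ^ (θ / 2) * (N : ℝ) ^ (1 - θ) = (N : ℝ) ^ (1 - θ / 2) := by
      rw [← Real.rpow_add hN0]; congr 1; ring
    rw [← g5]
    exact mul_le_mul_of_nonneg_right (by linarith) (by positivity)

end Pool.Agent.H806.PD
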