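import Mathlib
import Pool.Agent.H806.PD.AS
import Pool.Agent.TH935.DF5

/-! The asymptotic formula for almost all even differences. -/

set_option autoImplicit false

namespace Pool.Agent.H806.PD
open Finset Polynomial
open Pool.Agent.W93.PP (GoodD pc Cnt Li2)
open Pool.Agent.H560R3.GB (sing)
open Pool.Agent.H373R2.T7 (energy)

lemma energy_one (x : ℕ) : energy 1 x (fun m => (m : ℤ)) ≤ x := by
  classical
  unfold energy
  have h1 : (((Fintype.piFinset fun _ : Fin 1 => Icc 1 x) ×ˢ (Fintype.piFinset fun _ : Fin 1 => Icc 1 x)).filter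
      (fun q => ∑ i, ((q.1 i : ℕ) : ℤ) = ∑ i, ((q.2 i : ℕ) : ℤ))).card ≤ (Icc 1 x).card := by
    apply card_le_card_of_injOn (fun q => q.1 0)
    · intro q hq
      rw [mem_coe, mem_filter, mem_product, Fintype.mem_piFinset] at hq
      exact hq.1.1 0
    · intro q hq q' hq' h
      rw [mem_coe, mem_filter] at hq hq'
      simp only [Fin.sum_univ_one] at hq hq' h
      have e1 : q.1 0 = q.2 0 := by exact_mod_cast hq.2
      have e2 : q'.1 0 = q'.2 0 := by exact_mod_cast hq'.2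
      ext i
      · rw [Subsingleton.elim i 0]; exact h
      · rw [Subsingleton.elim i 0, ← e1, ← e2]; exact h
  rw [Nat.card_Icc, Nat.add_sub_cancel] at h1
  exact h1

lemma pc_eq (a q h y : ℕ) : pc h (y : ℝ) a q = (SP a q h y).card := by
  classical
  unfold pc SP
  rw [Nat.floor_natCast]
  congr 1
  ext p
  rw [mem_filter, mem_filter, mem_range, mem_Ioc]
  constructor
  · rintro ⟨h1, h2, h3, h4, h5⟩
    have h6 : p + h ≤ y := by exact_mod_cast h4
    exact ⟨⟨h2.pos, by omega⟩, h2, h3, h6, h5⟩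
  · rintro ⟨⟨h1, h2⟩, h3, h4, h5, h6⟩
    exact ⟨by omega, h3, h4, by exact_mod_cast h5, h6⟩

lemma ev_logpow' (C : ℝ) (hC : 0 ≤ C) (k : ℕ) (ε : ℝ) (hε : 0 < ε) :
    ∃ N₀ : ℕ, ∀ N : ℕ, N₀ ≤ N → C * Real.log N ^ k ≤ (N : ℝ) ^ ε := by
  obtain ⟨N₀, h⟩ := ev_logpow C hC (k + 1) (by omega) ε hε
  refine ⟨N₀ + 1, fun N hN => le_trans ?_ (h N (by omega))⟩
  have hN1 : (1 : ℝ) ≤ N := by exact_mod_cast (by omega : 1 ≤ N)
  have h0 : 0 ≤ Real.log N := Real.log_nonneg hN1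
  have h1 : Real.log N ≤ Real.log (4 * N) := Real.log_le_log (by linarith) (by linarith)
  apply mul_le_mul_of_nonneg_left _ hC
  calc Real.log N ^ k ≤ (1 + Real.log (4 * N)) ^ k := pow_le_pow_left₀ h0 (by linarith) k
    _ ≤ (1 + Real.log (4 * N)) ^ (k + 1) := pow_le_pow_right₀ (by linarith) (by omega)

/-- the estimate of Hardy and Littlewood for almost all even differences -/
theorem hl_almost (A B C : ℕ) : ∃ N₀ : ℕ, ∀ N : ℕ, N₀ ≤ N → ∃ E : Finset ℕ,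
    (E.card : ℝ) ≤ N / Real.log N ^ A / 2 ∧
    ∀ h : ℕ, 0 < h → Even h → (h : ℝ) ≤ N / Real.log N ^ (C + 6) → h ∉ E → ∀ q : ℕ, 1 ≤ q → (q : ℝ) ≤ Real.log N ^ B →
      ∀ a : ℕ, Nat.Coprime a q → Nat.Coprime (a + h) q → ∀ y : ℕ, 2 ≤ y → y ≤ N →
      |((SP a q h y).card : ℝ) - sing h / Cnt q h * Li2 y| ≤ N / Real.log N ^ C := by
  classical
  obtain ⟨n0, hg⟩ := Pool.Agent.TH935.DF.gd_fam 1 0 B C A 0 1 (C + 8)
  obtain ⟨n1, h1⟩ := ev_logpow' 4 (by norm_num) (C + 6) (1 / 2) (by norm_num)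
  obtain ⟨n2, h2⟩ := Pool.Agent.H373R2.T7.ev_L' (2 ^ (A + 2) + 4)
  refine ⟨(n0 + 2) ^ 2 + n1 + n2 + 16, fun N hN => ?_⟩
  have hN16 : (16 : ℝ) ≤ N := by exact_mod_cast (by omega : 16 ≤ N)
  have hN0 : (0 : ℝ) < N := by linarith
  have hL := h2 N (by omega)
  have hp2 : (0 : ℝ) < 2 ^ (A + 2) := by positivity
  have hL4 : 4 ≤ Real.log N := by linarith
  have hL0 : 0 < Real.log N := by linarith
  have hL1 : 1 ≤ Real.log N := by linarith
  have hlp := h1 N (by omega)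
  set Lc : ℝ := Real.log N ^ (C + 6) with hLc
  have hLc1 : 1 ≤ Lc := one_le_pow₀ hL1
  have hLc0 : 0 < Lc := by linarith
  have hsq : (N : ℝ) ^ (1 / 2 : ℝ) * (N : ℝ) ^ (1 / 2 : ℝ) = N := by
    rw [← Real.rpow_add hN0]; norm_num
  have hs0 : 0 < (N : ℝ) ^ (1 / 2 : ℝ) := by positivity
  set N' : ℕ := ⌊(N : ℝ) / Lc⌋₊ with hN'
  have hN'1 : (N' : ℝ) ≤ N / Lc := Nat.floor_le (by positivity)
  have hN'2 : (N : ℝ) / Lc < N' + 1 := Nat.lt_floor_add_one _
  have hq1 : 4 * (N : ℝ) ^ (1 / 2 : ℝ) ≤ N / Lc := by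
    rw [le_div_iff₀ hLc0]
    calc 4 * (N : ℝ) ^ (1 / 2 : ℝ) * Lc = (N : ℝ) ^ (1 / 2 : ℝ) * (4 * Lc) := by ring
      _ ≤ (N : ℝ) ^ (1 / 2 : ℝ) * (N : ℝ) ^ (1 / 2 : ℝ) := mul_le_mul_of_nonneg_left hlp hs0.le
      _ = N := hsq
  have hs1 : ((n0 : ℝ) + 2) ≤ (N : ℝ) ^ (1 / 2 : ℝ) := by
    rw [← Real.sqrt_eq_rpow]
    apply Real.le_sqrt_of_sq_le
    exact_mod_cast (by omega : (n0 + 2) ^ 2 ≤ N)
  have hn0 : (0 : ℝ) ≤ n0 := Nat.cast_nonneg _
  have hN'ge : (N : ℝ) ^ (1 / 2 : ℝ) ≤ N' := by linarith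
  have hN'n0 : n0 ≤ N' := by
    have : (n0 : ℝ) ≤ N' := by linarith
    exact_mod_cast this
  have hN'pos : (0 : ℝ) < N' := by linarith
  have hhalf : (N : ℝ) / Lc ≤ 2 * N' := by linarith
  have hNN' : N' ≤ N := by
    have : (N' : ℝ) ≤ N := hN'1.trans (div_le_self hN0.le hLc1)
    exact_mod_cast this
  have hlogN' : Real.log N / 2 ≤ Real.log N' := by
    have g1 : Real.log ((N : ℝ) ^ (1 / 2 : ℝ)) ≤ Real.log N' := Real.log_le_log hs0 hN'ge
    rw [Real.log_rpow hN0] at g1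
    linarith
  have hgd := hg N' hN'n0 N' (fun m => (m : ℤ)) (by
    intro m hm
    rw [mem_Icc] at hm
    rw [Nat.abs_cast]
    push_cast
    have : (m : ℤ) ≤ N' := by exact_mod_cast hm.2
    linarith) (by
    rw [pow_zero, one_mul]
    have g1 : ((energy 1 N' (fun m => (m : ℤ)) : ℕ) : ℝ) ≤ N' := by exact_mod_cast energy_one N'
    calc ((energy 1 N' (fun m => (m : ℤ)) : ℕ) : ℝ) * N' ≤ N' * N' := mul_le_mul_of_nonneg_right g1 hN'pos.le
      _ = _ := by ring) N hNN' (by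
    rw [← hLc]
    rw [← le_div_iff₀ hLc0]; exact hN'1) (by
    have e : Real.log N ^ (C + 8) = Lc * (Real.log N * Real.log N) := by rw [hLc]; ring
    rw [e]
    have g1 : (N : ℝ) ≤ 2 * N' * Lc := by rwa [div_le_iff₀ hLc0] at hhalf
    have g2 : (2 : ℝ) ≤ Real.log N * Real.log N := by nlinarith
    calc (N : ℝ) ≤ 2 * N' * Lc := g1
      _ = (N' * Lc) * 2 := by ring
      _ ≤ (N' * Lc) * (Real.log N * Real.log N) := mul_le_mul_of_nonneg_left g2 (by positivity)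
      _ = _ := by ring)
  set S : Finset ℕ := (Icc 1 N').filter (fun m => ¬ GoodD 0 B C N m) with hS
  have hSc := hgd S (filter_subset _ _) (by
    intro m hm
    rw [hS, mem_filter] at hm
    refine ⟨Int.natCast_nonneg m, ?_⟩
    rw [Int.toNat_natCast]
    exact hm.2)
  refine ⟨S, ?_, ?_⟩
  · refine hSc.trans ?_
    rw [div_div]
    have hLA : 0 < Real.log N ^ A := by positivity
    have hLN'0 : 0 < Real.log N' := by linarith
    rw [div_le_div_iff₀ (by positivity) (by positivity)]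
    have g1 : (Real.log N / 2) ^ A ≤ Real.log N' ^ A := pow_le_pow_left₀ (by positivity) hlogN' A
    have g2 : Real.log N ^ A = 2 ^ A * (Real.log N / 2) ^ A := by rw [div_pow]; field_simp
    have g3 : (N' : ℝ) * 2 ^ (A + 2) ≤ N := by
      have g4 : (2 : ℝ) ^ (A + 2) ≤ Lc := by
        calc (2 : ℝ) ^ (A + 2) ≤ Real.log N := by linarith
          _ ≤ Lc := le_self_pow₀ hL1 (by omega)
      have g5 : (N' : ℝ) * Lc ≤ N := by rw [← le_div_iff₀ hLc0]; exact hN'1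
      exact (mul_le_mul_of_nonneg_left g4 hN'pos.le).trans g5
    have g6 : (2 : ℝ) ^ (A + 2) = 4 * 2 ^ A := by ring
    rw [g6] at g3
    calc (N' : ℝ) * (Real.log N ^ A * 2) = (N' * (4 * 2 ^ A)) / 2 * (Real.log N / 2) ^ A := by rw [g2]; ring
      _ ≤ N * (Real.log N / 2) ^ A := by
          apply mul_le_mul_of_nonneg_right _ (by positivity)
          linarith
      _ ≤ _ := mul_le_mul_of_nonneg_left g1 hN0.le
  · intro h hh0 hhe hhN hhS q hq1 hq2 a ha1 ha2 y hy2 hyN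
    have hhN' : h ≤ N' := Nat.le_floor hhN
    have hgood : GoodD 0 B C N h := by
      by_contra hcon
      exact hhS (mem_filter.2 ⟨mem_Icc.2 ⟨hh0, hhN'⟩, hcon⟩)
    have h3 := hgood 0 q a (by simp) hq1 hq2 ha1 (by simpa using ha2) (by simpa using hhe.two_dvd) (by omega) (y : ℝ)
      (by exact_mod_cast hy2) (by exact_mod_cast hyN)
    rw [add_zero, pc_eq] at h3
    exact h3

end Pool.Agent.H806.PD
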