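import Mathlib
import Pool.Agent.H806.PD.SG
import Pool.Agent.H806.PD.Fin
import Pool.Agent.TH935.GF

/-! Sums of two primes with polynomial conditions. -/

set_option autoImplicit false

namespace Pool.Agent.H806.PD
open Finset Polynomial
open Pool.Agent.W93.PG (WinP cnt)
open Pool.Agent.H560R3.GB (sing)

lemma energy_oneN (x : ℕ) (s : ℕ → ℕ) (hs : Function.Injective s) : Pool.Agent.H560R3.GB.energy 1 x s ≤ x := by
  classical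
  unfold Pool.Agent.H560R3.GB.energy
  have h1 : (((Fintype.piFinset fun _ : Fin 1 => Icc 1 x) ×ˢ (Fintype.piFinset fun _ : Fin 1 => Icc 1 x)).filter
      (fun q => ∑ i, s (q.1 i) = ∑ i, s (q.2 i))).card ≤ (Icc 1 x).card := by
    apply card_le_card_of_injOn (fun q => q.1 0)
    · intro q hq
      rw [mem_coe, mem_filter, mem_product, Fintype.mem_piFinset] at hq
      exact hq.1.1 0
    · intro q hq q' hq' h
      rw [mem_coe, mem_filter] at hq hq'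
      simp only [Fin.sum_univ_one] at hq hq' h
      have e1 : q.1 0 = q.2 0 := hs hq.2
      have e2 : q'.1 0 = q'.2 0 := hs hq'.2
      ext i
      · rw [Subsingleton.elim i 0]; exact h
      · rw [Subsingleton.elim i 0, ← e1, ← e2]; exact h
  rw [Nat.card_Icc, Nat.add_sub_cancel] at h1
  exact h1

theorem win_almost (ε : ℝ) (hε : 0 < ε) (W A : ℕ) : ∃ N₀ : ℕ, ∀ N : ℕ, N₀ ≤ N → ∃ E : Finset ℕ,
    (E.card : ℝ) ≤ N / Real.log N ^ A / 4 ∧ ∀ n : ℕ, 0 < n → Even n → n ≤ N → n ∉ E → WinP ε W n := by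
  classical
  obtain ⟨n0, h0⟩ := Pool.Agent.TH935.GF.fam_win 1 2 0 W (A + 1) 0 le_rfl ε hε (WinP ε W) (fun m _ _ h => h)
  obtain ⟨n1, h1⟩ := Pool.Agent.H373R2.T7.ev_L' 4
  refine ⟨n0 + n1 + 1, fun N hN => ?_⟩
  have hL := h1 N (by omega)
  have hL0 : 0 < Real.log N := by linarith
  have hN0 : (0 : ℝ) < N := by exact_mod_cast (by omega : 0 < N)
  set S : Finset ℕ := (Icc 1 N).filter (fun m => ¬ WinP ε W (2 * m)) with hS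
  have hSc := h0 N (by omega) N (fun m => 2 * m) (by
    intro m hm
    rw [mem_Icc] at hm
    exact ⟨by omega, Dvd.intro _ rfl⟩) (by
    rw [pow_zero, one_mul]
    have g1 : ((Pool.Agent.H560R3.GB.energy 1 N (fun m => 2 * m) : ℕ) : ℝ) ≤ N := by
      exact_mod_cast energy_oneN N (fun m => 2 * m) (fun a b h => by simpa using h)
    calc ((Pool.Agent.H560R3.GB.energy 1 N (fun m => 2 * m) : ℕ) : ℝ) * N ≤ N * N := mul_le_mul_of_nonneg_right g1 hN0.le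
      _ = _ := by ring) S (filter_subset _ _) (by
    intro m hm
    rw [hS, mem_filter] at hm
    exact hm.2)
  refine ⟨S.image (fun m => 2 * m), ?_, ?_⟩
  · have g1 : ((S.image (fun m => 2 * m)).card : ℝ) ≤ S.card := by exact_mod_cast card_image_le
    refine (g1.trans hSc).trans ?_
    rw [div_div]
    apply div_le_div_of_nonneg_left hN0.le (by positivity)
    rw [pow_succ]
    exact mul_le_mul_of_nonneg_left hL (by positivity)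
  · intro n hn0 hne hnN hnE
    by_contra hcon
    apply hnE
    obtain ⟨m, hm⟩ := hne
    rw [mem_image]
    refine ⟨m, ?_, by omega⟩
    rw [hS, mem_filter, mem_Icc]
    refine ⟨⟨by omega, by omega⟩, ?_⟩
    rw [show 2 * m = n by omega]
    exact hcon

/-- the number of the primes `y₁ < p ≤ y₂` with `n - p` prime, `p ≡ a (mod q)`, and `P p`, `R (n - p)` in given arcs -/
noncomputable def wbox (P R : ℝ[X]) (a q n y₁ y₂ : ℕ) (a₁ b₁ a₂ b₂ : ℝ) : ℕ := by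
  classical
  exact ((Ioc y₁ y₂).filter (fun p : ℕ => (p.Prime ∧ (n - p).Prime ∧ p ≡ a [MOD q]) ∧
    Int.fract (P.eval (p : ℝ) - a₁) < b₁ ∧ Int.fract (R.eval (((n - p : ℕ)) : ℝ) - a₂) < b₂)).card

/-- the number of the primes `y₁ < p ≤ y₂` with `n - p` prime, `p ≡ a (mod q)` -/
def wnum (a q n y₁ y₂ : ℕ) : ℕ := ((Ioc y₁ y₂).filter (fun p : ℕ => p.Prime ∧ (n - p).Prime ∧ p ≡ a [MOD q])).card

lemma wbox_add (P R : ℝ[X]) (a q n y₁ y₂ : ℕ) (hy : y₁ ≤ y₂) (a₁ b₁ a₂ b₂ : ℝ) :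
    wbox P R a q n y₁ y₂ a₁ b₁ a₂ b₂ + gbox P R a q n y₁ a₁ b₁ a₂ b₂ = gbox P R a q n y₂ a₁ b₁ a₂ b₂ := by
  classical
  unfold wbox gbox SG
  rw [filter_filter, filter_filter, ← card_union_of_disjoint]
  · congr 1
    ext p
    rw [mem_union, mem_filter, mem_filter, mem_filter, mem_Ioc, mem_Ioc, mem_Ioc]
    constructor
    · rintro (⟨⟨h1, h2⟩, h3⟩ | ⟨⟨h1, h2⟩, h3⟩)
      · exact ⟨⟨by omega, h2⟩, h3⟩
      · exact ⟨⟨h1, by omega⟩, h3⟩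
    · rintro ⟨⟨h1, h2⟩, h3⟩
      rcases le_or_gt p y₁ with h | h
      · exact Or.inr ⟨⟨h1, h⟩, h3⟩
      · exact Or.inl ⟨⟨h, h2⟩, h3⟩
  · rw [disjoint_left]
    intro p hp hp'
    rw [mem_filter, mem_Ioc] at hp hp'
    omega

lemma wnum_add (a q n y₁ y₂ : ℕ) (hy : y₁ ≤ y₂) : wnum a q n y₁ y₂ + (SG a q n y₁).card = (SG a q n y₂).card := by
  classical
  unfold wnum SG
  rw [← card_union_of_disjoint]
  · congr 1
    ext p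
    rw [mem_union, mem_filter, mem_filter, mem_filter, mem_Ioc, mem_Ioc, mem_Ioc]
    constructor
    · rintro (⟨⟨h1, h2⟩, h3⟩ | ⟨⟨h1, h2⟩, h3⟩)
      · exact ⟨⟨by omega, h2⟩, h3⟩
      · exact ⟨⟨h1, by omega⟩, h3⟩
    · rintro ⟨⟨h1, h2⟩, h3⟩
      rcases le_or_gt p y₁ with h | h
      · exact Or.inr ⟨⟨h1, h⟩, h3⟩
      · exact Or.inl ⟨⟨h, h2⟩, h3⟩
  · rw [disjoint_left]
    intro p hp hp'
    rw [mem_filter, mem_Ioc] at hp hp'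
    omega

lemma wnum_cnt (n y₁ y₂ : ℕ) : wnum 0 1 n y₁ y₂ = cnt n y₁ y₂ := by
  classical
  unfold wnum cnt
  congr 1
  apply filter_congr; intro p _
  constructor
  · rintro ⟨h1, h2, _⟩; exact ⟨h1, h2⟩
  · rintro ⟨h1, h2⟩; exact ⟨h1, h2, Nat.modEq_one⟩

/-- equidistribution in windows -/
theorem gold_window (P R : ℝ[X]) (η : ℝ) (hη : 0 < η) (N₁ : ℕ)
    (hmain : ∀ N : ℕ, N₁ ≤ N → ∃ B : Finset ℕ, (B.card : ℝ) ≤ (N : ℝ) ^ (1 - η) ∧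
      ∀ h : ℕ, h ≤ N → h ∉ B → ∀ q : ℕ, 1 ≤ q → (q : ℝ) ≤ (N : ℝ) ^ η → ∀ a y : ℕ, y ≤ N → ∀ a₁ b₁ a₂ b₂ : ℝ,
        0 ≤ b₁ → b₁ ≤ 1 → 0 ≤ b₂ → b₂ ≤ 1 →
        |(gbox P R a q h y a₁ b₁ a₂ b₂ : ℝ) - b₁ * b₂ * (SG a q h y).card| ≤ (N : ℝ) ^ (1 - η)) :
    ∃ N₀ : ℕ, ∀ N : ℕ, N₀ ≤ N → ∃ B : Finset ℕ, (B.card : ℝ) ≤ (N : ℝ) ^ (1 - η / 2) ∧
      ∀ h : ℕ, h ≤ N → h ∉ B → ∀ q : ℕ, 1 ≤ q → (q : ℝ) ≤ (N : ℝ) ^ (η / 2) → ∀ a y₁ y₂ : ℕ, y₁ ≤ y₂ → y₂ ≤ N →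
        ∀ a₁ b₁ a₂ b₂ : ℝ, 0 ≤ b₁ → b₁ ≤ 1 → 0 ≤ b₂ → b₂ ≤ 1 →
        |(wbox P R a q h y₁ y₂ a₁ b₁ a₂ b₂ : ℝ) - b₁ * b₂ * wnum a q h y₁ y₂| ≤ (N : ℝ) ^ (1 - η / 2) := by
  obtain ⟨n1, h1⟩ := ev_pow 2 (η / 2) (by positivity)
  refine ⟨N₁ + n1 + 1, fun N hN => ?_⟩
  have hN1 : (1 : ℝ) ≤ N := by exact_mod_cast (by omega : 1 ≤ N)
  have hN0 : (0 : ℝ) < N := by linarith
  obtain ⟨B, hB1, hB2⟩ := hmain N (by omega)
  have e1 := h1 N (by omega)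
  have e2 : 2 * (N : ℝ) ^ (1 - η) ≤ (N : ℝ) ^ (1 - η / 2) := by
    calc 2 * (N : ℝ) ^ (1 - η) ≤ (N : ℝ) ^ (η / 2) * (N : ℝ) ^ (1 - η) := mul_le_mul_of_nonneg_right e1 (by positivity)
      _ = _ := by rw [← Real.rpow_add hN0]; congr 1; ring
  refine ⟨B, hB1.trans (Real.rpow_le_rpow_of_exponent_le hN1 (by linarith)), ?_⟩
  intro h hh hhB q hq1 hqN a y₁ y₂ hy hyN a₁ b₁ a₂ b₂ hb1 hb1' hb2 hb2'
  have hqN' : (q : ℝ) ≤ (N : ℝ) ^ η := hqN.trans (Real.rpow_le_rpow_of_exponent_le hN1 (by linarith))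
  have g1 := hB2 h hh hhB q hq1 hqN' a y₁ (hy.trans hyN) a₁ b₁ a₂ b₂ hb1 hb1' hb2 hb2'
  have g2 := hB2 h hh hhB q hq1 hqN' a y₂ hyN a₁ b₁ a₂ b₂ hb1 hb1' hb2 hb2'
  have g3 : (wbox P R a q h y₁ y₂ a₁ b₁ a₂ b₂ : ℝ) = gbox P R a q h y₂ a₁ b₁ a₂ b₂ - gbox P R a q h y₁ a₁ b₁ a₂ b₂ := by
    rw [← wbox_add P R a q h y₁ y₂ hy a₁ b₁ a₂ b₂]; push_cast; ring
  have g4 : (wnum a q h y₁ y₂ : ℝ) = (SG a q h y₂).card - (SG a q h y₁).card := by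
    rw [← wnum_add a q h y₁ y₂ hy]; push_cast; ring
  rw [g3, g4]
  refine le_trans ?_ e2
  have e : (gbox P R a q h y₂ a₁ b₁ a₂ b₂ : ℝ) - gbox P R a q h y₁ a₁ b₁ a₂ b₂ - b₁ * b₂ * ((SG a q h y₂).card - (SG a q h y₁).card) =
      ((gbox P R a q h y₂ a₁ b₁ a₂ b₂ : ℝ) - b₁ * b₂ * (SG a q h y₂).card) -
      ((gbox P R a q h y₁ a₁ b₁ a₂ b₂ : ℝ) - b₁ * b₂ * (SG a q h y₁).card) := by ring
  rw [e]
  exact (abs_sub _ _).trans (by linarith)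

/-- asymptotic formula for almost all even integers, in all windows -/
theorem gold_almost (P R : ℝ[X]) (η : ℝ) (hη : 0 < η) (hη1 : η ≤ 1) (N₁ : ℕ)
    (hmain : ∀ N : ℕ, N₁ ≤ N → ∃ B : Finset ℕ, (B.card : ℝ) ≤ (N : ℝ) ^ (1 - η) ∧
      ∀ h : ℕ, h ≤ N → h ∉ B → ∀ q : ℕ, 1 ≤ q → (q : ℝ) ≤ (N : ℝ) ^ η → ∀ a y₁ y₂ : ℕ, y₁ ≤ y₂ → y₂ ≤ N →
        ∀ a₁ b₁ a₂ b₂ : ℝ, 0 ≤ b₁ → b₁ ≤ 1 → 0 ≤ b₂ → b₂ ≤ 1 →
        |(wbox P R a q h y₁ y₂ a₁ b₁ a₂ b₂ : ℝ) - b₁ * b₂ * wnum a q h y₁ y₂| ≤ (N : ℝ) ^ (1 - η))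
    (ε : ℝ) (hε : 0 < ε) (A W : ℕ) :
    ∃ N₀ : ℕ, ∀ N : ℕ, N₀ ≤ N → ∃ E : Finset ℕ, (E.card : ℝ) ≤ N / Real.log N ^ A ∧
      ∀ n : ℕ, 0 < n → Even n → n ≤ N → n ∉ E → (N : ℝ) ^ (1 / 2 : ℝ) ≤ n ∧
      ∀ y₁ y₂ : ℕ, y₁ < y₂ → y₂ ≤ n → (n : ℝ) / Real.log n ^ W ≤ (y₂ : ℝ) - y₁ → ∀ a₁ b₁ a₂ b₂ : ℝ,
      (n : ℝ) ^ (-(η / 8)) ≤ b₁ → b₁ ≤ 1 → (n : ℝ) ^ (-(η / 8)) ≤ b₂ → b₂ ≤ 1 →
      |(wbox P R 0 1 n y₁ y₂ a₁ b₁ a₂ b₂ : ℝ) - b₁ * b₂ * (sing n * ((y₂ : ℝ) - y₁) / Real.log n ^ 2)| ≤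
        ε * (b₁ * b₂ * (sing n * ((y₂ : ℝ) - y₁) / Real.log n ^ 2)) := by
  classical
  obtain ⟨n2, h2⟩ := win_almost (ε / 2) (by positivity) W A
  obtain ⟨n3, h3⟩ := ev_logpow' 8 (by norm_num) A (η / 8) (by positivity)
  obtain ⟨n4, h4⟩ := ev_logpow' (2 / ε) (by positivity) (W + 2) (η / 2) (by positivity)
  obtain ⟨n5, h5⟩ := ev_pow 4 (1 / 2) (by norm_num)
  refine ⟨N₁ + n2 + n3 + n4 + n5 + 4, fun N hN => ?_⟩
  have hN1 : (1 : ℝ) ≤ N := by exact_mod_cast (by omega : 1 ≤ N)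
  have hN4 : (4 : ℝ) ≤ N := by exact_mod_cast (by omega : 4 ≤ N)
  have hN0 : (0 : ℝ) < N := by linarith
  have hLN : 0 < Real.log N := Real.log_pos (by linarith)
  obtain ⟨B, hB1, hB2⟩ := hmain N (by omega)
  obtain ⟨E', hE1, hE2⟩ := h2 N (by omega)
  have e3 := h3 N (by omega)
  have e4 := h4 N (by omega)
  have e5 := h5 N (by omega)
  set T : ℕ := ⌈(N : ℝ) ^ (1 - η / 8)⌉₊ with hT
  have hT1 : (N : ℝ) ^ (1 - η / 8) ≤ T := Nat.le_ceil _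
  have hT2 : (T : ℝ) ≤ (N : ℝ) ^ (1 - η / 8) + 1 := (Nat.ceil_lt_add_one (by positivity)).le
  have hone : (1 : ℝ) ≤ (N : ℝ) ^ (1 - η / 8) := Real.one_le_rpow hN1 (by linarith)
  refine ⟨B ∪ (E' ∪ range T), ?_, ?_⟩
  · have g1 : ((B ∪ (E' ∪ range T)).card : ℝ) ≤ B.card + (E'.card + T) := by
      have i1 := card_union_le B (E' ∪ range T)
      have i2 := card_union_le E' (range T)
      rw [card_range] at i2
      exact_mod_cast i1.trans (Nat.add_le_add_left i2 _)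
    have g2 : (N : ℝ) ^ (1 - η) ≤ (N : ℝ) ^ (1 - η / 8) := Real.rpow_le_rpow_of_exponent_le hN1 (by linarith)
    have g3 : (N : ℝ) ^ (1 - η / 8) ≤ N / Real.log N ^ A / 8 := by
      rw [div_div, le_div_iff₀ (by positivity)]
      calc (N : ℝ) ^ (1 - η / 8) * (Real.log N ^ A * 8) = (N : ℝ) ^ (1 - η / 8) * (8 * Real.log N ^ A) := by ring
        _ ≤ (N : ℝ) ^ (1 - η / 8) * (N : ℝ) ^ (η / 8) := mul_le_mul_of_nonneg_left e3 (by positivity)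
        _ = N := by rw [← Real.rpow_add hN0]; simp
    linarith
  · intro n hn0 hne hnN hnE
    rw [mem_union, mem_union, mem_range, not_or, not_or, not_lt] at hnE
    have hnT : (N : ℝ) ^ (1 - η / 8) ≤ n := hT1.trans (by exact_mod_cast hnE.2.2)
    have hnhalf : (N : ℝ) ^ (1 / 2 : ℝ) ≤ n := le_trans (Real.rpow_le_rpow_of_exponent_le hN1 (by linarith)) hnT
    refine ⟨hnhalf, ?_⟩
    intro y₁ y₂ hy hyn hlen a₁ b₁ a₂ b₂ hb1 hb1' hb2 hb2'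
    have hnr0 : (0 : ℝ) < n := by exact_mod_cast hn0
    have hnNr : (n : ℝ) ≤ N := by exact_mod_cast hnN
    have hn4 : (4 : ℝ) ≤ n := e5.trans hnhalf
    have hLn : 0 < Real.log n := Real.log_pos (by linarith)
    have hLnN : Real.log n ≤ Real.log N := Real.log_le_log hnr0 hnNr
    have hb10 : 0 < b₁ := lt_of_lt_of_le (by positivity) hb1
    have hb20 : 0 < b₂ := lt_of_lt_of_le (by positivity) hb2
    have hbb0 : 0 < b₁ * b₂ := by positivity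
    have g1 := hB2 n hnN hnE.1 1 le_rfl (by rw [Nat.cast_one]; exact Real.one_le_rpow hN1 hη.le) 0 y₁ y₂ hy.le (hyn.trans hnN)
      a₁ b₁ a₂ b₂ hb10.le hb1' hb20.le hb2'
    rw [wnum_cnt] at g1
    have g2 := hE2 n hn0 hne hnN hnE.2.1 y₁ y₂ hy hyn hlen
    set D : ℝ := (y₂ : ℝ) - y₁ with hD
    set M : ℝ := sing n * D / Real.log n ^ 2 with hM
    have hs := Pool.Agent.W93.GB.one_le_sing n
    have hD0 : 0 < D := lt_of_lt_of_le (by positivity) hlen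
    have hM0 : 0 < M := by positivity
    have hMge : (N : ℝ) ^ (1 - η / 8) / Real.log N ^ (W + 2) ≤ M := by
      calc (N : ℝ) ^ (1 - η / 8) / Real.log N ^ (W + 2) ≤ n / Real.log n ^ (W + 2) := by
            apply div_le_div₀ hnr0.le hnT (by positivity)
            exact pow_le_pow_left₀ hLn.le hLnN _
        _ = (n / Real.log n ^ W) / Real.log n ^ 2 := by rw [div_div, ← pow_add]
        _ ≤ D / Real.log n ^ 2 := div_le_div_of_nonneg_right hlen (by positivity)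
        _ ≤ M := by
            rw [hM]
            apply div_le_div_of_nonneg_right _ (by positivity)
            exact le_mul_of_one_le_left hD0.le hs
    have hbb : (N : ℝ) ^ (-(η / 4)) ≤ b₁ * b₂ := by
      calc (N : ℝ) ^ (-(η / 4)) ≤ (n : ℝ) ^ (-(η / 4)) := Real.rpow_le_rpow_of_nonpos hnr0 hnNr (by linarith)
        _ = (n : ℝ) ^ (-(η / 8)) * (n : ℝ) ^ (-(η / 8)) := by rw [← Real.rpow_add hnr0]; congr 1; ring
        _ ≤ b₁ * b₂ := mul_le_mul hb1 hb2 (by positivity) hb10.le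
    have hsmall : (N : ℝ) ^ (1 - η) ≤ ε / 2 * (b₁ * b₂ * M) := by
      have i1 : (N : ℝ) ^ (-(η / 4)) * ((N : ℝ) ^ (1 - η / 8) / Real.log N ^ (W + 2)) ≤ b₁ * b₂ * M :=
        mul_le_mul hbb hMge (by positivity) hbb0.le
      have i2 : 2 / ε * (N : ℝ) ^ (1 - η) ≤ (N : ℝ) ^ (-(η / 4)) * ((N : ℝ) ^ (1 - η / 8) / Real.log N ^ (W + 2)) := by
        rw [← mul_div_assoc, le_div_iff₀ (by positivity), ← Real.rpow_add hN0]
        calc 2 / ε * (N : ℝ) ^ (1 - η) * Real.log N ^ (W + 2) = (2 / ε * Real.log N ^ (W + 2)) * (N : ℝ) ^ (1 - η) := by ring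
          _ ≤ (N : ℝ) ^ (η / 2) * (N : ℝ) ^ (1 - η) := mul_le_mul_of_nonneg_right e4 (by positivity)
          _ = (N : ℝ) ^ (1 - η / 2) := by rw [← Real.rpow_add hN0]; congr 1; ring
          _ ≤ _ := Real.rpow_le_rpow_of_exponent_le hN1 (by linarith)
      have i3 := i2.trans i1
      calc (N : ℝ) ^ (1 - η) = ε / 2 * (2 / ε * (N : ℝ) ^ (1 - η)) := by field_simp
        _ ≤ _ := mul_le_mul_of_nonneg_left i3 (by positivity)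
    have g3 : |b₁ * b₂ * (cnt n y₁ y₂ : ℝ) - b₁ * b₂ * M| ≤ ε / 2 * (b₁ * b₂ * M) := by
      rw [← mul_sub, abs_mul, abs_of_pos hbb0]
      calc b₁ * b₂ * |(cnt n y₁ y₂ : ℝ) - M| ≤ b₁ * b₂ * (ε / 2 * M) := mul_le_mul_of_nonneg_left g2 hbb0.le
        _ = _ := by ring
    calc |(wbox P R 0 1 n y₁ y₂ a₁ b₁ a₂ b₂ : ℝ) - b₁ * b₂ * M|
        ≤ |(wbox P R 0 1 n y₁ y₂ a₁ b₁ a₂ b₂ : ℝ) - b₁ * b₂ * cnt n y₁ y₂| + |b₁ * b₂ * (cnt n y₁ y₂ : ℝ) - b₁ * b₂ * M| :=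
          abs_sub_le _ _ _
      _ ≤ ε / 2 * (b₁ * b₂ * M) + ε / 2 * (b₁ * b₂ * M) := add_le_add (g1.trans hsmall) g3
      _ = _ := by ring

end Pool.Agent.H806.PD
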