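import Mathlib
import Pool.Agent.H806.PD.EQ

/-! Counting points in boxes of any dimension. -/

set_option autoImplicit false

namespace Pool.Agent.H806.PD
open Finset
open Pool.Agent.Helper602.MK (ee)
open Pool.Agent.Helper602.MK.N_J5b (ee_add ee_zero ee_conj norm_ee ee_int)

lemma ee_sum {ι : Type*} (s : Finset ι) (f : ι → ℝ) : ee (∑ i ∈ s, f i) = ∏ i ∈ s, ee (f i) := by
  classical
  induction s using Finset.induction_on with
  | empty => simp [ee_zero]
  | insert a s ha ih => rw [sum_insert ha, prod_insert ha, ee_add, ih]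

lemma prod_delta {ι : Type*} (s : Finset ι) (b c : ι → ℝ) (δ : ℝ) (hδ : 0 ≤ δ) (hδ2 : δ ≤ 2) (hb : ∀ i ∈ s, 0 ≤ b i)
    (hb' : ∀ i ∈ s, b i ≤ 1) (hc : ∀ i ∈ s, 0 ≤ c i) (hc' : ∀ i ∈ s, c i ≤ b i + δ) :
    ∏ i ∈ s, c i ≤ ∏ i ∈ s, b i + δ * 4 ^ s.card := by
  classical
  induction s using Finset.induction_on with
  | empty => simp [hδ]
  | insert a s ha ih =>
    have ih' := ih (fun i hi => hb i (mem_insert_of_mem hi)) (fun i hi => hb' i (mem_insert_of_mem hi))
      (fun i hi => hc i (mem_insert_of_mem hi)) (fun i hi => hc' i (mem_insert_of_mem hi))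
    rw [prod_insert ha, prod_insert ha, card_insert_of_notMem ha, pow_succ]
    have h1 := hb a (mem_insert_self a s)
    have h2 := hb' a (mem_insert_self a s)
    have h3 := hc a (mem_insert_self a s)
    have h4 := hc' a (mem_insert_self a s)
    have h5 : ∏ i ∈ s, b i ≤ 1 := prod_le_one (fun i hi => hb i (mem_insert_of_mem hi)) (fun i hi => hb' i (mem_insert_of_mem hi))
    have h6 : 0 ≤ ∏ i ∈ s, b i := prod_nonneg fun i hi => hb i (mem_insert_of_mem hi)
    have h7 : 0 ≤ ∏ i ∈ s, c i := prod_nonneg fun i hi => hc i (mem_insert_of_mem hi)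
    have h8 : (1 : ℝ) ≤ 4 ^ s.card := one_le_pow₀ (by norm_num)
    have h9 : 0 ≤ δ * 4 ^ s.card := by positivity
    calc c a * ∏ i ∈ s, c i ≤ (b a + δ) * (∏ i ∈ s, b i + δ * 4 ^ s.card) := mul_le_mul h4 ih' h7 (by linarith)
      _ = b a * ∏ i ∈ s, b i + δ * ∏ i ∈ s, b i + (b a + δ) * (δ * 4 ^ s.card) := by ring
      _ ≤ b a * ∏ i ∈ s, b i + δ * 4 ^ s.card + 3 * (δ * 4 ^ s.card) := by
          have i1 : δ * ∏ i ∈ s, b i ≤ δ * 4 ^ s.card := mul_le_mul_of_nonneg_left (h5.trans h8) hδ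
          have i2 : (b a + δ) * (δ * 4 ^ s.card) ≤ 3 * (δ * 4 ^ s.card) := mul_le_mul_of_nonneg_right (by linarith) h9
          linarith
      _ = b a * ∏ i ∈ s, b i + δ * (4 ^ s.card * 4) := by ring

/-- upper bound for a box -/
lemma box_upperK {ι : Type*} {m : ℕ} (S : Finset ι) (x : Fin m → ι → ℝ) (L : ℕ) (hL : 2 ≤ L) (W : ℝ) (hW0 : 0 ≤ W)
    (hW : ∀ k : Fin m → ℤ, (∀ i, k i ∈ Ioo (-((L ^ 3 : ℕ) : ℤ)) (L ^ 3 : ℕ)) → k ≠ 0 → ‖∑ s ∈ S, ee (∑ i, (k i : ℝ) * x i s)‖ ≤ W)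
    (a b : Fin m → ℝ) (hb : ∀ i, 0 ≤ b i) (hb' : ∀ i, b i ≤ 1) :
    ((S.filter (fun s => ∀ i, Int.fract (x i s - a i) < b i)).card : ℝ) ≤
      (∏ i, b i) * S.card + 4 ^ (m + 1) * (S.card / L) + 4 ^ m * ((L : ℝ) ^ (3 * m) * W) := by
  classical
  choose C c T hC0 hc0 hc1 hCn hTe hT0 hT1 using fun i => majorant L hL (a i) (b i) (hb i)
  have hL0 : (0 : ℝ) < L := by exact_mod_cast (by omega : 0 < L)
  have hL2 : (2 : ℝ) ≤ L := by exact_mod_cast hL
  set F := Ioo (-((L ^ 3 : ℕ) : ℤ)) (L ^ 3 : ℕ) with hF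
  have hFc : (F.card : ℝ) ≤ 2 * (L : ℝ) ^ 3 := by
    have h1 : F.card ≤ 2 * L ^ 3 := by
      rw [hF, Int.card_Ioo]
      have : (0 : ℤ) ≤ (L ^ 3 : ℕ) := by positivity
      omega
    have : (F.card : ℝ) ≤ ((2 * L ^ 3 : ℕ) : ℝ) := by exact_mod_cast h1
    push_cast at this
    exact this
  have h1 : ((S.filter (fun s => ∀ i, Int.fract (x i s - a i) < b i)).card : ℝ) ≤ ∑ s ∈ S, ∏ i, T i (x i s) := by
    rw [card_filter]
    push_cast
    apply sum_le_sum; intro s _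
    split_ifs with h
    · exact one_le_prod (fun i _ => hT1 i _ (h i))
    · exact prod_nonneg fun i _ => hT0 i _
  refine h1.trans ?_
  have h2 : ((∑ s ∈ S, ∏ i, T i (x i s) : ℝ) : ℂ) = ∑ k ∈ Fintype.piFinset (fun _ : Fin m => F), (∏ i, C i (k i)) *
      ∑ s ∈ S, ee (∑ i, (k i : ℝ) * x i s) := by
    push_cast
    have h3 : ∀ s ∈ S, ∏ i, ((T i (x i s) : ℝ) : ℂ) = ∑ k ∈ Fintype.piFinset (fun _ : Fin m => F), (∏ i, C i (k i)) *
        ee (∑ i, (k i : ℝ) * x i s) := by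
      intro s _
      simp_rw [hTe]
      rw [prod_univ_sum]
      apply sum_congr rfl; intro k _
      rw [ee_sum, ← prod_mul_distrib]
    rw [sum_congr rfl h3, sum_comm]
    apply sum_congr rfl; intro k _
    rw [mul_sum]
  have h0F : (0 : ℤ) ∈ F := by
    rw [hF, mem_Ioo]
    have : 0 < L ^ 3 := by positivity
    omega
  have hcp : 0 ≤ ∏ i, c i := prod_nonneg fun i _ => hc0 i
  have hterm : ∀ k ∈ Fintype.piFinset (fun _ : Fin m => F), ‖(∏ i, C i (k i)) * ∑ s ∈ S, ee (∑ i, (k i : ℝ) * x i s)‖ ≤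
      (if k = 0 then (∏ i, c i) * S.card else 0) + 2 ^ m * W := by
    intro k hk
    rw [Fintype.mem_piFinset] at hk
    by_cases h : k = 0
    · rw [if_pos h]
      subst h
      rw [norm_mul, norm_prod]
      have e1 : ∏ i, ‖C i ((0 : Fin m → ℤ) i)‖ = ∏ i, c i := by
        apply prod_congr rfl; intro i _
        rw [Pi.zero_apply, hC0, Complex.norm_real, Real.norm_of_nonneg (hc0 i)]
      rw [e1]
      have : ‖∑ s ∈ S, ee (∑ i, (((0 : Fin m → ℤ) i : ℤ) : ℝ) * x i s)‖ ≤ S.card := by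
        refine (norm_sum_le _ _).trans ?_
        simp only [norm_ee, sum_const, nsmul_eq_mul, mul_one]
        exact le_rfl
      have h5 := mul_le_mul_of_nonneg_left this hcp
      have h6 : 0 ≤ 2 ^ m * W := by positivity
      linarith
    · rw [if_neg h, zero_add, norm_mul, norm_prod]
      have g1 := hW k hk h
      have g2 : ∏ i, ‖C i (k i)‖ ≤ 2 ^ m := by
        calc ∏ i, ‖C i (k i)‖ ≤ ∏ _i : Fin m, (2 : ℝ) := prod_le_prod (fun i _ => norm_nonneg _) (fun i _ => hCn i _)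
          _ = 2 ^ m := by rw [prod_const, card_univ, Fintype.card_fin]
      exact mul_le_mul g2 g1 (norm_nonneg _) (by positivity)
  have h4 : ∑ s ∈ S, ∏ i, T i (x i s) ≤ (∏ i, c i) * S.card + (F.card : ℝ) ^ m * (2 ^ m * W) := by
    have h5 : ∑ s ∈ S, ∏ i, T i (x i s) ≤ ‖((∑ s ∈ S, ∏ i, T i (x i s) : ℝ) : ℂ)‖ := by
      rw [Complex.norm_real]; exact le_abs_self _
    refine h5.trans ?_
    rw [h2]
    calc ‖∑ k ∈ Fintype.piFinset (fun _ : Fin m => F), (∏ i, C i (k i)) * ∑ s ∈ S, ee (∑ i, (k i : ℝ) * x i s)‖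
        ≤ ∑ k ∈ Fintype.piFinset (fun _ : Fin m => F), ((if k = 0 then (∏ i, c i) * (S.card : ℝ) else 0) + 2 ^ m * W) :=
          (norm_sum_le _ _).trans (sum_le_sum hterm)
      _ = (∏ i, c i) * S.card + (F.card : ℝ) ^ m * (2 ^ m * W) := by
          have h0P : (0 : Fin m → ℤ) ∈ Fintype.piFinset (fun _ : Fin m => F) := Fintype.mem_piFinset.2 fun _ => h0F
          rw [sum_add_distrib, sum_ite_eq' _ (0 : Fin m → ℤ), if_pos h0P, sum_const,
            Fintype.card_piFinset_const, nsmul_eq_mul]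
          push_cast; ring
  refine h4.trans ?_
  have hS0 : (0 : ℝ) ≤ S.card := Nat.cast_nonneg _
  have h6 : ∏ i, c i ≤ ∏ i, b i + 4 / L * 4 ^ m := by
    have hq : (4 : ℝ) / L ≤ 2 := by rw [div_le_iff₀ hL0]; linarith
    have := prod_delta (univ : Finset (Fin m)) b c (4 / L) (by positivity) hq (fun i _ => hb i) (fun i _ => hb' i)
      (fun i _ => hc0 i) (fun i _ => hc1 i)
    rwa [card_univ, Fintype.card_fin] at this
  have h7 : (∏ i, c i) * S.card ≤ (∏ i, b i + 4 / L * 4 ^ m) * S.card := mul_le_mul_of_nonneg_right h6 hS0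
  have h8 : (F.card : ℝ) ^ m * (2 ^ m * W) ≤ 4 ^ m * ((L : ℝ) ^ (3 * m) * W) := by
    calc (F.card : ℝ) ^ m * (2 ^ m * W) ≤ (2 * (L : ℝ) ^ 3) ^ m * (2 ^ m * W) :=
          mul_le_mul_of_nonneg_right (pow_le_pow_left₀ (Nat.cast_nonneg _) hFc m) (by positivity)
      _ = 4 ^ m * ((L : ℝ) ^ (3 * m) * W) := by
          rw [mul_pow, ← pow_mul, show (4 : ℝ) = 2 * 2 by norm_num, mul_pow]; ring
  calc (∏ i, c i) * S.card + (F.card : ℝ) ^ m * (2 ^ m * W) ≤ (∏ i, b i + 4 / L * 4 ^ m) * S.card + 4 ^ m * ((L : ℝ) ^ (3 * m) * W) := by linarith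
    _ = _ := by rw [pow_succ]; ring

/-- the number of points in a box -/
theorem box_countK {ι : Type*} {m : ℕ} (S : Finset ι) (x : Fin m → ι → ℝ) (L : ℕ) (hL : 2 ≤ L) (W : ℝ) (hW0 : 0 ≤ W)
    (hW : ∀ k : Fin m → ℤ, (∀ i, k i ∈ Ioo (-((L ^ 3 : ℕ) : ℤ)) (L ^ 3 : ℕ)) → k ≠ 0 → ‖∑ s ∈ S, ee (∑ i, (k i : ℝ) * x i s)‖ ≤ W)
    (a b : Fin m → ℝ) (hb : ∀ i, 0 ≤ b i) (hb' : ∀ i, b i ≤ 1) :
    |((S.filter (fun s => ∀ i, Int.fract (x i s - a i) < b i)).card : ℝ) - (∏ i, b i) * S.card| ≤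
      2 ^ m * (4 ^ (m + 1) * (S.card / L) + 4 ^ m * ((L : ℝ) ^ (3 * m) * W)) := by
  classical
  set E : ℝ := 4 ^ (m + 1) * (S.card / L) + 4 ^ m * ((L : ℝ) ^ (3 * m) * W) with hE
  have hE0 : 0 ≤ E := by positivity
  have hup := box_upperK S x L hL W hW0 hW
  set N : Finset (Fin m) → ℕ := fun T => (S.filter (fun s => univ.filter (fun i => Int.fract (x i s - a i) < b i) = T)).card with hN
  have hsum : (S.card : ℝ) = ∑ T ∈ (univ : Finset (Fin m)).powerset, (N T : ℝ) := by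
    have := card_eq_sum_card_fiberwise (s := S) (t := (univ : Finset (Fin m)).powerset)
      (f := fun s => univ.filter (fun i => Int.fract (x i s - a i) < b i)) (fun s _ => by
        rw [mem_coe, mem_powerset]; exact subset_univ _)
    rw [this]
    push_cast
    rfl
  have hNT : ∀ T ∈ (univ : Finset (Fin m)).powerset, (N T : ℝ) ≤ ((∏ i ∈ T, b i) * ∏ i ∈ univ \ T, (1 - b i)) * S.card + E := by
    intro T _
    have h1 := hup (fun i => if i ∈ T then a i else a i + b i) (fun i => if i ∈ T then b i else 1 - b i)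
      (fun i => by show 0 ≤ (if i ∈ T then b i else 1 - b i); split_ifs; exacts [hb i, by linarith [hb' i]])
      (fun i => by show (if i ∈ T then b i else 1 - b i) ≤ 1; split_ifs; exacts [hb' i, by linarith [hb i]])
    have h2 : ∏ i, (if i ∈ T then b i else 1 - b i) = (∏ i ∈ T, b i) * ∏ i ∈ univ \ T, (1 - b i) := by
      rw [← prod_sdiff (subset_univ T), mul_comm]
      congr 1
      · apply prod_congr rfl; intro i hi; rw [if_pos hi]
      · apply prod_congr rfl; intro i hi; rw [if_neg (mem_sdiff.1 hi).2]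
    rw [h2] at h1
    have h3 : (N T : ℝ) ≤ ((S.filter (fun s => ∀ i, Int.fract (x i s - (if i ∈ T then a i else a i + b i)) < (if i ∈ T then b i else 1 - b i))).card : ℝ) := by
      apply Nat.cast_le.2
      apply card_le_card
      intro s hs
      rw [mem_filter] at hs ⊢
      refine ⟨hs.1, fun i => ?_⟩
      by_cases hi : i ∈ T
      · rw [if_pos hi, if_pos hi]
        rw [← hs.2, mem_filter] at hi
        exact hi.2
      · rw [if_neg hi, if_neg hi]
        have h4 : ¬ Int.fract (x i s - a i) < b i := fun h5 => hi (by rw [← hs.2, mem_filter]; exact ⟨mem_univ _, h5⟩)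
        rw [fract_compl _ _ (hb i) (hb' i)] at h4
        have e : x i s - (a i + b i) = x i s - a i - b i := by ring
        rw [e]; exact h4
    refine h3.trans (h1.trans ?_)
    rw [hE]; linarith
  have hone : ∑ T ∈ (univ : Finset (Fin m)).powerset, ((∏ i ∈ T, b i) * ∏ i ∈ univ \ T, (1 - b i)) = 1 := by
    rw [← prod_add]
    apply prod_eq_one; intro i _; ring
  have hU : N univ = (S.filter (fun s => ∀ i, Int.fract (x i s - a i) < b i)).card := by
    simp only [hN]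
    congr 1
    apply filter_congr; intro s _
    rw [filter_eq_self]
    exact ⟨fun h i => h i (mem_univ i), fun h i _ => h i⟩
  have hcardP : ((univ : Finset (Fin m)).powerset.card : ℝ) = 2 ^ m := by
    rw [card_powerset, card_univ, Fintype.card_fin]; push_cast; rfl
  rw [← hU, abs_le]
  have huniv : (∏ i ∈ (univ : Finset (Fin m)), b i) * ∏ i ∈ univ \ (univ : Finset (Fin m)), (1 - b i) = ∏ i, b i := by
    simp
  have hmem : (univ : Finset (Fin m)) ∈ (univ : Finset (Fin m)).powerset := mem_powerset.2 subset_rfl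
  have h2m : (1 : ℝ) ≤ 2 ^ m := one_le_pow₀ (by norm_num)
  constructor
  · -- lower bound
    have h1 : ∑ T ∈ (univ : Finset (Fin m)).powerset.erase univ, (N T : ℝ) ≤
        ∑ T ∈ (univ : Finset (Fin m)).powerset.erase univ, (((∏ i ∈ T, b i) * ∏ i ∈ univ \ T, (1 - b i)) * S.card + E) :=
      sum_le_sum fun T hT => hNT T (mem_of_mem_erase hT)
    have h2 := add_sum_erase (univ : Finset (Fin m)).powerset (fun T => (N T : ℝ)) hmem
    have h3 := add_sum_erase (univ : Finset (Fin m)).powerset (fun T => ((∏ i ∈ T, b i) * ∏ i ∈ univ \ T, (1 - b i)) * (S.card : ℝ) + E) hmem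
    have h4 : ∑ T ∈ (univ : Finset (Fin m)).powerset, (((∏ i ∈ T, b i) * ∏ i ∈ univ \ T, (1 - b i)) * (S.card : ℝ) + E) =
        S.card + 2 ^ m * E := by
      rw [sum_add_distrib, ← sum_mul, hone, one_mul, sum_const, nsmul_eq_mul, hcardP]
    simp only [huniv] at h3
    rw [h4] at h3
    rw [← hsum] at h2
    linarith
  · have h1 := hNT univ hmem
    rw [huniv] at h1
    nlinarith

end Pool.Agent.H806.PD
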