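import Mathlib
import Pool.Agent.H806.PD.Fin

/-! Existence of the representations; conversion of the statements. -/

set_option autoImplicit false

namespace Pool.Agent.H806.PD
open Finset Polynomial
open Pool.Agent.W93.PP (GoodD pc Cnt Li2 sum_int)
open Pool.Agent.H560R3.GB (sing)

/-- asymptotic formula for the boxes -/
theorem box_almost (P R : ℝ[X]) (η : ℝ) (hη : 0 < η) (hη1 : η ≤ 1 / 16) (N₁ : ℕ)
    (hmain : ∀ N : ℕ, N₁ ≤ N → ∃ B : Finset ℕ, (B.card : ℝ) ≤ (N : ℝ) ^ (1 - η) ∧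
      ∀ h : ℕ, h ≤ N → h ∉ B → ∀ q : ℕ, 1 ≤ q → (q : ℝ) ≤ (N : ℝ) ^ η → ∀ a y : ℕ, y ≤ N → ∀ a₁ b₁ a₂ b₂ : ℝ,
        0 ≤ b₁ → b₁ ≤ 1 → 0 ≤ b₂ → b₂ ≤ 1 →
        |(box P R a q h y a₁ b₁ a₂ b₂ : ℝ) - b₁ * b₂ * (SP a q h y).card| ≤ (N : ℝ) ^ (1 - η)) (A B C : ℕ) :
    ∃ N₀ : ℕ, ∀ N : ℕ, N₀ ≤ N → ∃ E : Finset ℕ, (E.card : ℝ) ≤ N / Real.log N ^ A ∧
      ∀ h : ℕ, 0 < h → Even h → (h : ℝ) ≤ N / Real.log N ^ (C + 7) → h ∉ E → ∀ q : ℕ, 1 ≤ q → (q : ℝ) ≤ Real.log N ^ B →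
      ∀ a : ℕ, Nat.Coprime a q → Nat.Coprime (a + h) q → ∀ y : ℕ, 2 ≤ y → y ≤ N → ∀ a₁ b₁ a₂ b₂ : ℝ,
      (N : ℝ) ^ (-(η / 4)) ≤ b₁ → b₁ ≤ 1 → (N : ℝ) ^ (-(η / 4)) ≤ b₂ → b₂ ≤ 1 →
      |(box P R a q h y a₁ b₁ a₂ b₂ : ℝ) - b₁ * b₂ * (sing h / Cnt q h * Li2 y)| ≤ b₁ * b₂ * (N / Real.log N ^ C) := by
  classical
  obtain ⟨N₂, h2⟩ := hl_almost A B (C + 1)
  obtain ⟨N₃, h3⟩ := ev_logpow' 2 (by norm_num) A η hη
  obtain ⟨N₄, h4⟩ := ev_logpow' 1 (by norm_num) B η hη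
  obtain ⟨N₅, h5⟩ := ev_logpow' 2 (by norm_num) C (η / 2) (by positivity)
  obtain ⟨N₆, h6⟩ := Pool.Agent.H373R2.T7.ev_L' 4
  refine ⟨N₁ + N₂ + N₃ + N₄ + N₅ + N₆ + 4, fun N hN => ?_⟩
  have hN1 : (1 : ℝ) ≤ N := by exact_mod_cast (by omega : 1 ≤ N)
  have hN0 : (0 : ℝ) < N := by linarith
  have hL := h6 N (by omega)
  have hL0 : 0 < Real.log N := by linarith
  have hL1 : 1 ≤ Real.log N := by linarith
  obtain ⟨B₁, hB1, hB2⟩ := hmain N (by omega)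
  obtain ⟨E₁, hE1, hE2⟩ := h2 N (by omega)
  have e3 := h3 N (by omega)
  have e4 := h4 N (by omega)
  have e5 := h5 N (by omega)
  refine ⟨B₁ ∪ E₁, ?_, ?_⟩
  · have g1 : ((B₁ ∪ E₁).card : ℝ) ≤ B₁.card + E₁.card := by exact_mod_cast card_union_le _ _
    have g2 : (N : ℝ) ^ (1 - η) ≤ N / Real.log N ^ A / 2 := by
      rw [div_div, le_div_iff₀ (by positivity)]
      calc (N : ℝ) ^ (1 - η) * (Real.log N ^ A * 2) = (N : ℝ) ^ (1 - η) * (2 * Real.log N ^ A) := by ring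
        _ ≤ (N : ℝ) ^ (1 - η) * (N : ℝ) ^ η := mul_le_mul_of_nonneg_left e3 (by positivity)
        _ = N := by rw [← Real.rpow_add hN0]; simp
    linarith
  · intro h hh0 hhe hhN hhE q hq1 hqB a ha1 ha2 y hy2 hyN a₁ b₁ a₂ b₂ hb1 hb1' hb2 hb2'
    rw [mem_union, not_or] at hhE
    have hb10 : 0 < b₁ := lt_of_lt_of_le (by positivity) hb1
    have hb20 : 0 < b₂ := lt_of_lt_of_le (by positivity) hb2
    have hhN' : h ≤ N := by
      have : (h : ℝ) ≤ N := hhN.trans (div_le_self hN0.le (one_le_pow₀ hL1))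
      exact_mod_cast this
    rw [one_mul] at e4
    have g1 := hB2 h hhN' hhE.1 q hq1 (hqB.trans e4) a y hyN a₁ b₁ a₂ b₂ hb10.le hb1' hb20.le hb2'
    have g2 := hE2 h hh0 hhe hhN hhE.2 q hq1 hqB a ha1 ha2 y hy2 hyN
    have hbb : (N : ℝ) ^ (-(η / 2)) ≤ b₁ * b₂ := by
      calc (N : ℝ) ^ (-(η / 2)) = (N : ℝ) ^ (-(η / 4)) * (N : ℝ) ^ (-(η / 4)) := by rw [← Real.rpow_add hN0]; congr 1; ring
        _ ≤ b₁ * b₂ := mul_le_mul hb1 hb2 (by positivity) hb10.le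
    have hbb0 : 0 < b₁ * b₂ := by positivity
    have g3 : (N : ℝ) ^ (1 - η) ≤ b₁ * b₂ * (N / Real.log N ^ C / 2) := by
      calc (N : ℝ) ^ (1 - η) = (N : ℝ) ^ (-(η / 2)) * (N : ℝ) ^ (1 - η / 2) := by rw [← Real.rpow_add hN0]; congr 1; ring
        _ ≤ (b₁ * b₂) * (N / Real.log N ^ C / 2) := by
            apply mul_le_mul hbb _ (by positivity) hbb0.le
            rw [div_div, le_div_iff₀ (by positivity)]
            calc (N : ℝ) ^ (1 - η / 2) * (Real.log N ^ C * 2) = (N : ℝ) ^ (1 - η / 2) * (2 * Real.log N ^ C) := by ring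
              _ ≤ (N : ℝ) ^ (1 - η / 2) * (N : ℝ) ^ (η / 2) := mul_le_mul_of_nonneg_left e5 (by positivity)
              _ = N := by rw [← Real.rpow_add hN0]; simp
    have g4 : (N : ℝ) / Real.log N ^ (C + 1) ≤ N / Real.log N ^ C / 2 := by
      rw [div_div]
      apply div_le_div_of_nonneg_left hN0.le (by positivity)
      rw [pow_succ]
      apply mul_le_mul_of_nonneg_left _ (by positivity)
      linarith
    have g5 : |b₁ * b₂ * ((SP a q h y).card : ℝ) - b₁ * b₂ * (sing h / Cnt q h * Li2 y)| ≤ b₁ * b₂ * (N / Real.log N ^ C / 2) := by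
      rw [← mul_sub, abs_mul, abs_of_pos hbb0]
      exact mul_le_mul_of_nonneg_left (g2.trans g4) hbb0.le
    calc |(box P R a q h y a₁ b₁ a₂ b₂ : ℝ) - b₁ * b₂ * (sing h / Cnt q h * Li2 y)|
        ≤ |(box P R a q h y a₁ b₁ a₂ b₂ : ℝ) - b₁ * b₂ * (SP a q h y).card| +
          |b₁ * b₂ * ((SP a q h y).card : ℝ) - b₁ * b₂ * (sing h / Cnt q h * Li2 y)| := abs_sub_le _ _ _
      _ ≤ b₁ * b₂ * (N / Real.log N ^ C / 2) + b₁ * b₂ * (N / Real.log N ^ C / 2) := add_le_add (g1.trans g3) g5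
      _ = _ := by ring

lemma Li2_ge (N : ℕ) (hN : 2 ≤ N) : ((N : ℝ) - 1) / Real.log N ^ 2 - 3 ≤ Li2 N := by
  have h1 := sum_int (N : ℝ) (by exact_mod_cast hN)
  rw [Nat.floor_natCast] at h1
  have h2 : ((N : ℝ) - 1) / Real.log N ^ 2 ≤ ∑ n ∈ Icc 2 N, 1 / Real.log (n : ℝ) ^ 2 := by
    have h3 : ∀ n ∈ Icc 2 N, 1 / Real.log N ^ 2 ≤ 1 / Real.log (n : ℝ) ^ 2 := by
      intro n hn
      rw [mem_Icc] at hn
      have hn2 : (2 : ℝ) ≤ n := by exact_mod_cast hn.1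
      have h4 : 0 < Real.log n := Real.log_pos (by linarith)
      apply one_div_le_one_div_of_le (by positivity)
      apply pow_le_pow_left₀ h4.le
      exact Real.log_le_log (by linarith) (by exact_mod_cast hn.2)
    calc ((N : ℝ) - 1) / Real.log N ^ 2 = ∑ n ∈ Icc 2 N, 1 / Real.log N ^ 2 := by
          rw [sum_const, Nat.card_Icc, nsmul_eq_mul]
          have : ((N + 1 - 2 : ℕ) : ℝ) = N - 1 := by
            have h5 : N + 1 - 2 = N - 1 := by omega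
            rw [h5, Nat.cast_sub (by omega)]; simp
          rw [this]; ring
      _ ≤ _ := sum_le_sum h3
  have h3 := (abs_le.1 h1).2
  linarith

/-- `h` is a difference of two primes in the prescribed thin sets -/
def Rep (P R : ℝ[X]) (η : ℝ) (H h : ℕ) : Prop := ∀ u v : ℝ, ∃ p q : ℕ, p.Prime ∧ q.Prime ∧ q = p + h ∧
  (q : ℝ) ≤ H * Real.log H ^ 12 ∧ (∃ m : ℤ, |P.eval (p : ℝ) - u - m| ≤ (q : ℝ) ^ (-η)) ∧
  ∃ m : ℤ, |R.eval (q : ℝ) - v - m| ≤ (q : ℝ) ^ (-η)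

theorem rep_almost (P R : ℝ[X]) (η : ℝ) (hη : 0 < η) (hη1 : η ≤ 1)
    (hbox : ∀ A B C : ℕ, ∃ N₀ : ℕ, ∀ N : ℕ, N₀ ≤ N → ∃ E : Finset ℕ, (E.card : ℝ) ≤ N / Real.log N ^ A ∧
      ∀ h : ℕ, 0 < h → Even h → (h : ℝ) ≤ N / Real.log N ^ (C + 7) → h ∉ E → ∀ q : ℕ, 1 ≤ q → (q : ℝ) ≤ Real.log N ^ B →
      ∀ a : ℕ, Nat.Coprime a q → Nat.Coprime (a + h) q → ∀ y : ℕ, 2 ≤ y → y ≤ N → ∀ a₁ b₁ a₂ b₂ : ℝ,
      (N : ℝ) ^ (-η) ≤ b₁ → b₁ ≤ 1 → (N : ℝ) ^ (-η) ≤ b₂ → b₂ ≤ 1 →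
      |(box P R a q h y a₁ b₁ a₂ b₂ : ℝ) - b₁ * b₂ * (sing h / Cnt q h * Li2 y)| ≤ b₁ * b₂ * (N / Real.log N ^ C)) (A : ℕ) :
    ∃ H₀ : ℕ, ∀ H : ℕ, H₀ ≤ H → ∃ E : Finset ℕ, (E.card : ℝ) ≤ H / Real.log H ^ A ∧
      ∀ h : ℕ, 0 < h → Even h → h ≤ H → h ∉ E → Rep P R η H h := by
  classical
  obtain ⟨N₀, h0⟩ := hbox (A + 12) 0 3
  obtain ⟨n1, h1⟩ := Pool.Agent.H373R2.T7.ev_L' (2 ^ 10)
  obtain ⟨n2, h2⟩ := ev_logpow' 2 (by norm_num) 11 1 (by norm_num)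
  obtain ⟨n3, h3⟩ := ev_logpow' 8 (by norm_num) 2 1 (by norm_num)
  refine ⟨N₀ + n1 + n2 + n3 + 16, fun H hH => ?_⟩
  have hH16 : (16 : ℝ) ≤ H := by exact_mod_cast (by omega : 16 ≤ H)
  have hH0 : (0 : ℝ) < H := by linarith
  have hL := h1 H (by omega)
  norm_num at hL
  set ℓ := Real.log H with hℓ
  have hℓ0 : 0 < ℓ := by linarith
  have hℓ1 : 1 ≤ ℓ := by linarith
  have e2 := h2 H (by omega)
  rw [Real.rpow_one, ← hℓ] at e2
  set N : ℕ := ⌈(H : ℝ) * ℓ ^ 11⌉₊ with hN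
  have hNge : (H : ℝ) * ℓ ^ 11 ≤ N := Nat.le_ceil _
  have hNle : (N : ℝ) ≤ H * ℓ ^ 11 + 1 := (Nat.ceil_lt_add_one (by positivity)).le
  have hℓ11 : 1 ≤ ℓ ^ 11 := one_le_pow₀ hℓ1
  have hHN : (H : ℝ) ≤ N := by nlinarith
  have hHNn : H ≤ N := by exact_mod_cast hHN
  have hN0 : (0 : ℝ) < N := by linarith
  have hN1 : (1 : ℝ) ≤ N := by linarith
  have hNle2 : (N : ℝ) ≤ 2 * (H * ℓ ^ 11) := by
    have : (1 : ℝ) ≤ H * ℓ ^ 11 := by nlinarith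
    linarith
  have hNH2 : (N : ℝ) ≤ H ^ 2 := by
    calc (N : ℝ) ≤ H * (2 * ℓ ^ 11) := by linarith
      _ ≤ H * H := mul_le_mul_of_nonneg_left e2 hH0.le
      _ = _ := by ring
  have hlog1 : ℓ ≤ Real.log N := Real.log_le_log hH0 hHN
  have hlog2 : Real.log N ≤ 2 * ℓ := by
    have := Real.log_le_log hN0 hNH2
    rwa [Real.log_pow, Nat.cast_ofNat] at this
  have hLN0 : 0 < Real.log N := by linarith
  obtain ⟨E, hE1, hE2⟩ := h0 N (by omega)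
  refine ⟨E, ?_, ?_⟩
  · refine hE1.trans ?_
    have g1 : ℓ ^ (A + 12) ≤ Real.log N ^ (A + 12) := pow_le_pow_left₀ hℓ0.le hlog1 _
    calc (N : ℝ) / Real.log N ^ (A + 12) ≤ (2 * (H * ℓ ^ 11)) / ℓ ^ (A + 12) :=
          div_le_div₀ (by positivity) hNle2 (by positivity) g1
      _ = (H / ℓ ^ A) * (2 / ℓ) := by
          rw [pow_add]; field_simp
      _ ≤ (H / ℓ ^ A) * 1 := by
          apply mul_le_mul_of_nonneg_left _ (by positivity)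
          rw [div_le_one hℓ0]; linarith
      _ = _ := mul_one _
  · intro h hh0 hhe hhH hhE u v
    have hhN : (h : ℝ) ≤ N / Real.log N ^ (3 + 7) := by
      rw [le_div_iff₀ (by positivity)]
      have g1 : Real.log N ^ (3 + 7) ≤ (2 * ℓ) ^ 10 := pow_le_pow_left₀ hLN0.le hlog2 10
      have g2 : (h : ℝ) ≤ H := by exact_mod_cast hhH
      calc (h : ℝ) * Real.log N ^ (3 + 7) ≤ H * (2 * ℓ) ^ 10 := mul_le_mul g2 g1 (by positivity) hH0.le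
        _ = H * ℓ ^ 10 * 1024 := by ring
        _ ≤ H * ℓ ^ 10 * ℓ := mul_le_mul_of_nonneg_left (by linarith) (by positivity)
        _ = H * ℓ ^ 11 := by ring
        _ ≤ N := hNge
    have hb : (N : ℝ) ^ (-η) ≤ 1 := Real.rpow_le_one_of_one_le_of_nonpos hN1 (by linarith)
    have hb0 : 0 < (N : ℝ) ^ (-η) := by positivity
    have key := hE2 h hh0 hhe hhN hhE 1 le_rfl (by simp) 0 (Nat.coprime_one_right _) (Nat.coprime_one_right _) N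
      (by omega) le_rfl u ((N : ℝ) ^ (-η)) v ((N : ℝ) ^ (-η)) le_rfl hb le_rfl hb
    have hC1 : Cnt 1 h = 1 := by unfold Cnt; simp
    have hs := Pool.Agent.W93.GB.one_le_sing h
    have hLi := Li2_ge N (by omega)
    have e3 := h3 N (by omega)
    rw [Real.rpow_one] at e3
    have hbig : (N : ℝ) / Real.log N ^ 3 < Li2 N := by
      have g1 : (N : ℝ) / Real.log N ^ 3 ≤ N / Real.log N ^ 2 / 4 := by
        rw [div_div]
        apply div_le_div_of_nonneg_left hN0.le (by positivity)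
        have : Real.log N ^ 3 = Real.log N ^ 2 * Real.log N := by ring
        rw [this]
        apply mul_le_mul_of_nonneg_left _ (by positivity)
        linarith
      have hl2 : 0 < Real.log N ^ 2 := by positivity
      have g2 : 8 ≤ (N : ℝ) / Real.log N ^ 2 := by rwa [le_div_iff₀ hl2]
      have g3 : ((N : ℝ) - 1) / Real.log N ^ 2 = N / Real.log N ^ 2 - 1 / Real.log N ^ 2 := by ring
      have g4 : 1 / Real.log N ^ 2 ≤ 1 := by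
        rw [div_le_one hl2]; nlinarith
      linarith
    have hLi0 : 0 < Li2 N := lt_trans (by positivity) hbig
    have hpos : 0 < (box P R 0 1 h N u ((N : ℝ) ^ (-η)) v ((N : ℝ) ^ (-η)) : ℝ) := by
      rw [hC1, Nat.cast_one, div_one] at key
      have g5 := (abs_le.1 key).1
      have g6 : (N : ℝ) / Real.log N ^ 3 < sing h * Li2 N := by nlinarith
      have g7 : 0 < (N : ℝ) ^ (-η) * (N : ℝ) ^ (-η) := by positivity
      have g8 := mul_lt_mul_of_pos_left g6 g7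
      linarith
    have hne : box P R 0 1 h N u ((N : ℝ) ^ (-η)) v ((N : ℝ) ^ (-η)) ≠ 0 := by
      intro h00; rw [h00] at hpos; simp at hpos
    unfold box at hne
    obtain ⟨p, hp⟩ := card_pos.1 (Nat.pos_of_ne_zero hne)
    rw [mem_filter, SP, mem_filter, mem_Ioc] at hp
    obtain ⟨⟨_, hp1, hp2, hp3, _⟩, hp4, hp5⟩ := hp
    have hq0 : (0 : ℝ) < ((p + h : ℕ) : ℝ) := by exact_mod_cast hp2.pos
    have hqN : ((p + h : ℕ) : ℝ) ≤ N := by exact_mod_cast hp3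
    have hqη : (N : ℝ) ^ (-η) ≤ ((p + h : ℕ) : ℝ) ^ (-η) := Real.rpow_le_rpow_of_nonpos hq0 hqN (by linarith)
    refine ⟨p, p + h, hp1, hp2, rfl, ?_, ⟨⌊P.eval (p : ℝ) - u⌋, ?_⟩, ⟨⌊R.eval (((p + h : ℕ)) : ℝ) - v⌋, ?_⟩⟩
    · refine hqN.trans (hNle2.trans ?_)
      have : H * ℓ ^ 12 = (H * ℓ ^ 11) * ℓ := by ring
      rw [this]
      have : 0 < H * ℓ ^ 11 := by positivity
      nlinarith
    · have : P.eval (p : ℝ) - u - ⌊P.eval (p : ℝ) - u⌋ = Int.fract (P.eval (p : ℝ) - u) := rfl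
      rw [this, abs_of_nonneg (Int.fract_nonneg _)]
      exact hp4.le.trans hqη
    · have : R.eval (((p + h : ℕ)) : ℝ) - v - ⌊R.eval (((p + h : ℕ)) : ℝ) - v⌋ = Int.fract (R.eval (((p + h : ℕ)) : ℝ) - v) := rfl
      rw [this, abs_of_nonneg (Int.fract_nonneg _)]
      exact hp5.le.trans hqη

end Pool.Agent.H806.PD
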