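import Mathlib
import Pool.Agent.H806.PD.GA

/-! Existence of the representations as sums. -/

set_option autoImplicit false

namespace Pool.Agent.H806.PD
open Finset Polynomial
open Pool.Agent.H560R3.GB (sing)

/-- `n` is the sum of two distinct, almost equal odd primes from the prescribed thin sets -/
def GRep (P R : ℝ[X]) (η : ℝ) (W n : ℕ) : Prop := ∀ u v : ℝ, ∃ p p' : ℕ, p.Prime ∧ p'.Prime ∧ p ≠ 2 ∧ p' ≠ 2 ∧ p < p' ∧
  p + p' = n ∧ (p' : ℝ) - p ≤ n / Real.log n ^ W ∧ (∃ m : ℤ, |P.eval (p : ℝ) - u - m| ≤ (n : ℝ) ^ (-η)) ∧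
  ∃ m : ℤ, |R.eval (p' : ℝ) - v - m| ≤ (n : ℝ) ^ (-η)

lemma grep_of (P R : ℝ[X]) (η : ℝ) (hη : 0 < η) (W : ℕ) : ∃ n₀ : ℕ, ∀ n : ℕ, n₀ ≤ n → Even n →
    (∀ y₁ y₂ : ℕ, y₁ < y₂ → y₂ ≤ n → (n : ℝ) / Real.log n ^ (W + 2) ≤ (y₂ : ℝ) - y₁ → ∀ a₁ b₁ a₂ b₂ : ℝ,
      (n : ℝ) ^ (-η) ≤ b₁ → b₁ ≤ 1 → (n : ℝ) ^ (-η) ≤ b₂ → b₂ ≤ 1 →
      |(wbox P R 0 1 n y₁ y₂ a₁ b₁ a₂ b₂ : ℝ) - b₁ * b₂ * (sing n * ((y₂ : ℝ) - y₁) / Real.log n ^ 2)| ≤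
        1 / 2 * (b₁ * b₂ * (sing n * ((y₂ : ℝ) - y₁) / Real.log n ^ 2))) → GRep P R η W n := by
  classical
  obtain ⟨n1, h1⟩ := Pool.Agent.H373R2.T7.ev_L' 4
  obtain ⟨n2, h2⟩ := ev_logpow' 4 (by norm_num) (W + 1) 1 (by norm_num)
  refine ⟨n1 + n2 + 16, fun n hn hne hbox u v => ?_⟩
  have hn16 : (16 : ℝ) ≤ n := by exact_mod_cast (by omega : 16 ≤ n)
  have hn0 : (0 : ℝ) < n := by linarith
  have hL := h1 n (by omega)
  have hL0 : 0 < Real.log n := by linarith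
  have hL1 : 1 ≤ Real.log n := by linarith
  have e2 := h2 n (by omega)
  rw [Real.rpow_one] at e2
  obtain ⟨m, hm⟩ := hne
  set ℓ := Real.log n with hℓ
  have hp0 : 0 < ℓ ^ (W + 1) := by positivity
  have hp1 : 1 ≤ ℓ ^ (W + 1) := one_le_pow₀ hL1
  have hpge : 4 ≤ ℓ ^ (W + 1) := by
    calc (4 : ℝ) ≤ ℓ := hL
      _ ≤ _ := le_self_pow₀ hL1 (by omega)
  set H : ℕ := ⌊(n : ℝ) / (2 * ℓ ^ (W + 1))⌋₊ with hH
  have hHle : (H : ℝ) ≤ n / (2 * ℓ ^ (W + 1)) := Nat.floor_le (by positivity)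
  have hHlt : (n : ℝ) / (2 * ℓ ^ (W + 1)) < H + 1 := Nat.lt_floor_add_one _
  have hH8 : (H : ℝ) ≤ n / 8 := by
    refine hHle.trans ?_
    apply div_le_div_of_nonneg_left hn0.le (by norm_num)
    linarith
  have hHm : 4 * H ≤ m := by
    have h3 : (8 : ℝ) * H ≤ n := by linarith
    have h4 : 8 * H ≤ n := by exact_mod_cast h3
    omega
  have hHge : (n : ℝ) / ℓ ^ (W + 2) ≤ H := by
    have i1 : (2 : ℝ) ≤ n / (2 * ℓ ^ (W + 1)) := by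
      rw [le_div_iff₀ (by positivity)]; linarith
    have i2 : (n : ℝ) / ℓ ^ (W + 2) ≤ n / (2 * ℓ ^ (W + 1)) / 2 := by
      rw [div_div]
      apply div_le_div_of_nonneg_left hn0.le (by positivity)
      have : ℓ ^ (W + 2) = ℓ ^ (W + 1) * ℓ := pow_succ _ _
      rw [this]
      calc 2 * ℓ ^ (W + 1) * 2 = ℓ ^ (W + 1) * 4 := by ring
        _ ≤ _ := mul_le_mul_of_nonneg_left hL hp0.le
    linarith
  have hH1 : 1 ≤ H := by
    have : (0 : ℝ) < H := lt_of_lt_of_le (by positivity) hHge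
    exact_mod_cast this
  have hm8 : 8 ≤ m := by omega
  set y₂ : ℕ := m - 1 with hy2
  set y₁ : ℕ := m - 1 - H with hy1
  have hy12 : y₁ < y₂ := by omega
  have hdiff : (y₂ : ℝ) - y₁ = H := by
    have : y₂ = y₁ + H := by omega
    rw [this]; push_cast; ring
  have hb : (n : ℝ) ^ (-η) ≤ 1 := Real.rpow_le_one_of_one_le_of_nonpos (by linarith) (by linarith)
  have hb0 : 0 < (n : ℝ) ^ (-η) := by positivity
  have key := hbox y₁ y₂ hy12 (by omega) (by rw [hdiff]; exact hHge) u ((n : ℝ) ^ (-η)) v ((n : ℝ) ^ (-η)) le_rfl hb le_rfl hb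
  have hs := Pool.Agent.W93.GB.one_le_sing n
  have hD0 : 0 < (y₂ : ℝ) - y₁ := by rw [hdiff]; exact_mod_cast hH1
  have hpos : 0 < (wbox P R 0 1 n y₁ y₂ u ((n : ℝ) ^ (-η)) v ((n : ℝ) ^ (-η)) : ℝ) := by
    have i1 : 0 < (n : ℝ) ^ (-η) * (n : ℝ) ^ (-η) * (sing n * ((y₂ : ℝ) - y₁) / ℓ ^ 2) := by positivity
    have i2 := (abs_le.1 key).1
    linarith
  have hne : wbox P R 0 1 n y₁ y₂ u ((n : ℝ) ^ (-η)) v ((n : ℝ) ^ (-η)) ≠ 0 := by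
    intro h00; rw [h00] at hpos; simp at hpos
  unfold wbox at hne
  obtain ⟨p, hp⟩ := card_pos.1 (Nat.pos_of_ne_zero hne)
  rw [mem_filter, mem_Ioc] at hp
  obtain ⟨⟨hp1', hp2'⟩, ⟨hp3, hp4, _⟩, hp5, hp6⟩ := hp
  have hpm : p ≤ m - 1 := hp2'
  have hpm2 : m - H ≤ p := by omega
  refine ⟨p, n - p, hp3, hp4, by omega, by omega, by omega, by omega, ?_, ⟨⌊P.eval (p : ℝ) - u⌋, ?_⟩, ⟨⌊R.eval (((n - p : ℕ)) : ℝ) - v⌋, ?_⟩⟩
  · have i1 : (((n - p : ℕ)) : ℝ) - p ≤ 2 * H := by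
      have i2 : n - p ≤ p + 2 * H := by omega
      have i3 : (((n - p : ℕ)) : ℝ) ≤ p + 2 * H := by exact_mod_cast i2
      linarith
    refine i1.trans ?_
    have i4 : 2 * ((n : ℝ) / (2 * ℓ ^ (W + 1))) = n / ℓ ^ (W + 1) := by field_simp
    calc 2 * (H : ℝ) ≤ 2 * (n / (2 * ℓ ^ (W + 1))) := by linarith
      _ = n / ℓ ^ (W + 1) := i4
      _ ≤ n / ℓ ^ W := by
          apply div_le_div_of_nonneg_left hn0.le (by positivity)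
          exact pow_le_pow_right₀ hL1 (by omega)
  · have : P.eval (p : ℝ) - u - ⌊P.eval (p : ℝ) - u⌋ = Int.fract (P.eval (p : ℝ) - u) := rfl
    rw [this, abs_of_nonneg (Int.fract_nonneg _)]
    exact hp5.le
  · have : R.eval (((n - p : ℕ)) : ℝ) - v - ⌊R.eval (((n - p : ℕ)) : ℝ) - v⌋ = Int.fract (R.eval (((n - p : ℕ)) : ℝ) - v) := rfl
    rw [this, abs_of_nonneg (Int.fract_nonneg _)]
    exact hp6.le

end Pool.Agent.H806.PD
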