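import Mathlib
import Pool.Agent.H806.PD.AS
import Pool.Agent.H806.PD.EK

/-! Prime tuples: mean squares over the shifts. -/

set_option autoImplicit false

namespace Pool.Agent.H806.PD
open Finset Polynomial
open Pool.Agent.Helper602.MK (ee)
open Pool.Agent.Helper602.MK.N_J5b (ee_add ee_zero ee_conj norm_ee ee_int)

/-- the integers `1 ≤ n ≤ y`, `n ≡ c (mod q)`, with all of `n + a i` prime -/
def SK {m : ℕ} (a : Fin m → ℕ) (c q y : ℕ) : Finset ℕ :=
  (Ioc 0 y).filter (fun n => (∀ i, (n + a i).Prime) ∧ n ≡ c [MOD q])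

lemma mem_SK {m : ℕ} (a : Fin m → ℕ) (c q y n : ℕ) : n ∈ SK a c q y ↔ (0 < n ∧ n ≤ y) ∧ (∀ i, (n + a i).Prime) ∧ n ≡ c [MOD q] := by
  rw [SK, mem_filter, mem_Ioc]

/-- the sum over the tuples as a correlation in one of the shifts -/
lemma sum_SK {m : ℕ} (a : Fin m → ℕ) (c q y N : ℕ) (hy : y ≤ N) (i₀ : Fin m) (t : ℕ) (ht : t ≤ N) (φ : Fin m → ℕ → ℝ) :
    ∑ n ∈ SK (Function.update a i₀ t) c q y, ee (∑ i, φ i (n + Function.update a i₀ t i)) =
      ∑ n ∈ Ioc 0 (2 * N), ∑ l ∈ Ioc 0 (2 * N), (if l = n + t then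
        (if (n ≤ y ∧ n ≡ c [MOD q]) ∧ (∀ i, i ≠ i₀ → (n + a i).Prime) then ∏ i ∈ univ.erase i₀, ee (φ i (n + a i)) else 0) *
        (if l.Prime then ee (φ i₀ l) else 0) else 0) := by
  classical
  have h1 : ∀ n ∈ Ioc 0 (2 * N), ∑ l ∈ Ioc 0 (2 * N), (if l = n + t then
        (if (n ≤ y ∧ n ≡ c [MOD q]) ∧ (∀ i, i ≠ i₀ → (n + a i).Prime) then ∏ i ∈ univ.erase i₀, ee (φ i (n + a i)) else 0) *
        (if l.Prime then ee (φ i₀ l) else 0) else 0) =
      if n ≤ y ∧ (∀ i, (n + Function.update a i₀ t i).Prime) ∧ n ≡ c [MOD q] then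
        ee (∑ i, φ i (n + Function.update a i₀ t i)) else 0 := by
    intro n hn
    rw [mem_Ioc] at hn
    rw [sum_ite_eq']
    have hall : (∀ i, (n + Function.update a i₀ t i).Prime) ↔ (∀ i, i ≠ i₀ → (n + a i).Prime) ∧ (n + t).Prime := by
      constructor
      · intro h
        refine ⟨fun i hi => ?_, ?_⟩
        · have := h i; rwa [Function.update_of_ne hi] at this
        · have := h i₀; rwa [Function.update_self] at this
      · rintro ⟨h2, h3⟩ i
        by_cases hi : i = i₀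
        · subst hi; rwa [Function.update_self]
        · rw [Function.update_of_ne hi]; exact h2 i hi
    have hee : ee (∑ i, φ i (n + Function.update a i₀ t i)) = (∏ i ∈ univ.erase i₀, ee (φ i (n + a i))) * ee (φ i₀ (n + t)) := by
      rw [ee_sum, ← mul_prod_erase univ _ (mem_univ i₀), Function.update_self, mul_comm]
      congr 1
      apply prod_congr rfl; intro i hi
      rw [Function.update_of_ne (ne_of_mem_erase hi)]
    by_cases h2 : n ≤ y ∧ (∀ i, (n + Function.update a i₀ t i).Prime) ∧ n ≡ c [MOD q]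
    · rw [if_pos h2]
      have h3 := hall.1 h2.2.1
      rw [if_pos (mem_Ioc.2 ⟨by omega, by omega⟩), if_pos ⟨⟨h2.1, h2.2.2⟩, h3.1⟩, if_pos h3.2, hee]
    · rw [if_neg h2]
      by_cases h3 : (n ≤ y ∧ n ≡ c [MOD q]) ∧ (∀ i, i ≠ i₀ → (n + a i).Prime)
      · have h4 : ¬ (n + t).Prime := fun h5 => h2 ⟨h3.1.1, hall.2 ⟨h3.2, h5⟩, h3.1.2⟩
        rw [if_neg h4, mul_zero, ite_self]
      · rw [if_neg h3, zero_mul, ite_self]
  rw [sum_congr rfl h1, ← sum_filter]
  apply sum_congr _ fun _ _ => rfl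
  ext n
  rw [mem_SK, mem_filter, mem_Ioc]
  constructor
  · rintro ⟨⟨g1, g2⟩, g3, g4⟩
    exact ⟨⟨g1, by omega⟩, g2, g3, g4⟩
  · rintro ⟨⟨g1, g2⟩, g3, g4, g5⟩
    exact ⟨⟨g1, g3⟩, g4, g5⟩

/-- mean square over one shift -/
lemma mean_squareK {m : ℕ} (a : Fin m → ℕ) (c q y N : ℕ) (hy : y ≤ N) (i₀ : Fin m) (φ : Fin m → ℕ → ℝ) (F : ℝ)
    (hF : ∀ β : ℝ, ‖∑ p ∈ (Ioc 0 (2 * N)).filter Nat.Prime, ee (φ i₀ p + β * p)‖ ≤ F) :
    ∑ t ∈ range (N + 1), ‖∑ n ∈ SK (Function.update a i₀ t) c q y, ee (∑ i, φ i (n + Function.update a i₀ t i))‖ ^ 2 ≤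
      F ^ 2 * (2 * N) := by
  classical
  set f : ℕ → ℂ := fun n => if (n ≤ y ∧ n ≡ c [MOD q]) ∧ (∀ i, i ≠ i₀ → (n + a i).Prime) then
    ∏ i ∈ univ.erase i₀, ee (φ i (n + a i)) else 0 with hf
  set g : ℕ → ℂ := fun l => if l.Prime then ee (φ i₀ l) else 0 with hg
  have e1 : ∀ t ∈ range (N + 1), ‖∑ n ∈ SK (Function.update a i₀ t) c q y, ee (∑ i, φ i (n + Function.update a i₀ t i))‖ ^ 2 =
      ‖∑ n ∈ Ioc 0 (2 * N), ∑ l ∈ Ioc 0 (2 * N), (if l = n + t then f n * g l else 0)‖ ^ 2 := by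
    intro t ht
    rw [mem_range] at ht
    rw [sum_SK a c q y N hy i₀ t (by omega) φ]
  rw [sum_congr rfl e1]
  have hfn : ∀ n, ‖f n‖ ^ 2 ≤ 1 := by
    intro n; simp only [hf]
    split_ifs
    · rw [norm_prod]; simp [norm_ee]
    · simp
  have hs : ∑ n ∈ Ioc 0 (2 * N), ‖f n‖ ^ 2 ≤ 2 * N := by
    calc ∑ n ∈ Ioc 0 (2 * N), ‖f n‖ ^ 2 ≤ ∑ _n ∈ Ioc 0 (2 * N), (1 : ℝ) := sum_le_sum fun n _ => hfn n
      _ = 2 * N := by simp
  have h1 := variance' (2 * N) f g F (by
    intro β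
    have e2 : ∑ n ∈ Ioc 0 (2 * N), g n * ee (β * n) = ∑ p ∈ (Ioc 0 (2 * N)).filter Nat.Prime, ee (φ i₀ p + β * p) := by
      rw [sum_filter]
      apply sum_congr rfl; intro n _
      simp only [hg]
      split_ifs
      · rw [ee_add]
      · rw [zero_mul]
    rw [e2]
    exact hF β)
  refine le_trans ?_ (h1.trans (mul_le_mul_of_nonneg_left hs (by positivity)))
  exact sum_le_sum_of_subset_of_nonneg (range_subset_range.2 (by omega)) fun _ _ _ => by positivity

/-- the number of exceptional vectors of shifts, for one frequency vector -/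
lemma bad_count {m : ℕ} (c q y N : ℕ) (hy : y ≤ N) (i₀ : Fin m) (φ : Fin m → ℕ → ℝ) (F W V : ℝ) (hW : 0 < W) (hV : 0 ≤ V)
    (hF : ∀ β : ℝ, ‖∑ p ∈ (Ioc 0 (2 * N)).filter Nat.Prime, ee (φ i₀ p + β * p)‖ ≤ F) (hFV : F ^ 2 * (2 * N) ≤ V * W ^ 2)
    (B : Finset (Fin m → ℕ)) (hB : ∀ a ∈ B, (∀ i, a i ≤ N) ∧ W < ‖∑ n ∈ SK a c q y, ee (∑ i, φ i (n + a i))‖) :
    (B.card : ℝ) ≤ ((N : ℝ) + 1) ^ (m - 1) * V := by
  classical
  -- the lines
  set f : (Fin m → ℕ) → (Fin m → ℕ) := fun a => Function.update a i₀ 0 with hf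
  have himg : B.image f ⊆ Fintype.piFinset (fun i : Fin m => if i = i₀ then {0} else range (N + 1)) := by
    intro b hb
    rw [mem_image] at hb
    obtain ⟨a, ha, rfl⟩ := hb
    rw [Fintype.mem_piFinset]
    intro i
    by_cases hi : i = i₀
    · subst hi; simp [hf]
    · simp only [hf]
      rw [Function.update_of_ne hi, if_neg hi, mem_range]
      have := (hB a ha).1 i
      omega
  have hcardimg : ((B.image f).card : ℝ) ≤ ((N : ℝ) + 1) ^ (m - 1) := by
    have h1 := card_le_card himg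
    rw [Fintype.card_piFinset, ← mul_prod_erase univ _ (mem_univ i₀), if_pos rfl, card_singleton, one_mul] at h1
    have h2 : ∏ i ∈ univ.erase i₀, (if i = i₀ then ({0} : Finset ℕ) else range (N + 1)).card = (N + 1) ^ (m - 1) := by
      rw [prod_congr rfl (g := fun _ => N + 1)]
      · rw [prod_const, card_erase_of_mem (mem_univ _), card_univ, Fintype.card_fin]
      · intro i hi
        rw [if_neg (ne_of_mem_erase hi), card_range]
    rw [h2] at h1
    exact_mod_cast h1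
  -- one line
  have hline : ∀ b ∈ B.image f, ((B.filter (fun a => f a = b)).card : ℝ) ≤ V := by
    intro b _
    set T : Finset ℕ := (range (N + 1)).filter (fun t => W < ‖∑ n ∈ SK (Function.update b i₀ t) c q y,
      ee (∑ i, φ i (n + Function.update b i₀ t i))‖) with hT
    have h1 : (B.filter (fun a => f a = b)).card ≤ T.card := by
      apply card_le_card_of_injOn (fun a => a i₀)
      · intro a ha
        rw [mem_coe, mem_filter] at ha
        obtain ⟨ha1, ha2⟩ := ha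
        obtain ⟨ha3, ha4⟩ := hB a ha1
        have e : Function.update b i₀ (a i₀) = a := by
          rw [← ha2, hf]
          simp
        show a i₀ ∈ (T : Set ℕ)
        rw [mem_coe, hT, mem_filter, mem_range, e]
        exact ⟨by have := ha3 i₀; omega, ha4⟩
      · intro a ha a' ha' haa
        rw [mem_coe, mem_filter] at ha ha'
        have h2 : f a = f a' := ha.2.trans ha'.2.symm
        ext i
        by_cases hi : i = i₀
        · rw [hi]; exact haa
        · have h3 := congrFun h2 i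
          simp only [hf] at h3
          rwa [Function.update_of_ne hi, Function.update_of_ne hi] at h3
    have h2 : (T.card : ℝ) * W ^ 2 ≤ V * W ^ 2 := by
      refine le_trans ?_ ((mean_squareK b c q y N hy i₀ φ F hF).trans hFV)
      calc (T.card : ℝ) * W ^ 2 = ∑ t ∈ T, W ^ 2 := by rw [sum_const, nsmul_eq_mul]
        _ ≤ ∑ t ∈ T, ‖∑ n ∈ SK (Function.update b i₀ t) c q y, ee (∑ i, φ i (n + Function.update b i₀ t i))‖ ^ 2 := by
            apply sum_le_sum; intro t ht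
            rw [hT, mem_filter] at ht
            exact pow_le_pow_left₀ hW.le ht.2.le 2
        _ ≤ _ := sum_le_sum_of_subset_of_nonneg (filter_subset _ _) fun _ _ _ => by positivity
    have h3 : (T.card : ℝ) ≤ V := le_of_mul_le_mul_right h2 (by positivity)
    have h4 : ((B.filter (fun a => f a = b)).card : ℝ) ≤ T.card := by exact_mod_cast h1
    exact h4.trans h3
  have h5 : (B.card : ℝ) = ∑ b ∈ B.image f, ((B.filter (fun a => f a = b)).card : ℝ) := by
    have := card_eq_sum_card_image f B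
    rw [this]; push_cast; rfl
  rw [h5]
  calc ∑ b ∈ B.image f, ((B.filter (fun a => f a = b)).card : ℝ) ≤ ∑ b ∈ B.image f, V := sum_le_sum hline
    _ = (B.image f).card * V := by rw [sum_const, nsmul_eq_mul]
    _ ≤ _ := mul_le_mul_of_nonneg_right hcardimg hV

end Pool.Agent.H806.PD
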