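import Mathlib
import Pool.Agent.H806.PD.TK

/-! Equidistribution of polynomials at prime tuples, for almost all vectors of shifts. -/

set_option autoImplicit false

namespace Pool.Agent.H806.PD
open Finset Polynomial
open Pool.Agent.Helper602.MK (ee)
open Pool.Agent.Helper602.MK.N_J5b (ee_add ee_zero ee_conj norm_ee ee_int)

/-- the number of the `n` in `SK a c q y` with `P i (n + a i)` in given arcs -/
noncomputable def boxK {m : ℕ} (P : Fin m → ℝ[X]) (a : Fin m → ℕ) (c q y : ℕ) (u b : Fin m → ℝ) : ℕ := by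
  classical
  exact ((SK a c q y).filter (fun n : ℕ => ∀ i, Int.fract ((P i).eval (((n + a i : ℕ)) : ℝ) - u i) < b i)).card

lemma boxK_window {m : ℕ} (P : Fin m → ℝ[X]) (a : Fin m → ℕ) (c q y y' : ℕ) (hyy : y' ≤ y) (u b : Fin m → ℝ) :
    (boxK P a c q y' u b : ℝ) ≤ boxK P a c q y u b ∧ (boxK P a c q y u b : ℝ) ≤ boxK P a c q y' u b + ((y : ℝ) - y') := by
  classical
  unfold boxK
  constructor
  · apply Nat.cast_le.2
    apply card_le_card
    intro p hp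
    rw [mem_filter, mem_SK] at hp ⊢
    exact ⟨⟨⟨hp.1.1.1, by omega⟩, hp.1.2⟩, hp.2⟩
  · have h1 : (SK a c q y).filter (fun n : ℕ => ∀ i, Int.fract ((P i).eval (((n + a i : ℕ)) : ℝ) - u i) < b i) ⊆
        (SK a c q y').filter (fun n : ℕ => ∀ i, Int.fract ((P i).eval (((n + a i : ℕ)) : ℝ) - u i) < b i) ∪ (Ioc y' y) := by
      intro p hp
      rw [mem_union]
      rw [mem_filter, mem_SK] at hp
      rcases le_or_gt p y' with h2 | h2
      · left
        rw [mem_filter, mem_SK]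
        exact ⟨⟨⟨hp.1.1.1, h2⟩, hp.1.2⟩, hp.2⟩
      · right
        exact mem_Ioc.2 ⟨h2, hp.1.1.2⟩
    have h2 := (card_le_card h1).trans (card_union_le _ _)
    have h3 : (Ioc y' y).card ≤ y - y' := by rw [Nat.card_Ioc]
    have h4 := h2.trans (Nat.add_le_add_left h3 _)
    rw [← Nat.cast_sub hyy, ← Nat.cast_add]
    exact Nat.cast_le.2 h4

lemma SK_window {m : ℕ} (a : Fin m → ℕ) (c q y y' : ℕ) (hyy : y' ≤ y) : ((SK a c q y').card : ℝ) ≤ (SK a c q y).card ∧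
    ((SK a c q y).card : ℝ) ≤ (SK a c q y').card + ((y : ℝ) - y') := by
  classical
  have h1 := boxK_window (fun _ : Fin m => (0 : ℝ[X])) a c q y y' hyy (fun _ => 0) (fun _ => 1)
  have e : ∀ z, boxK (fun _ : Fin m => (0 : ℝ[X])) a c q z (fun _ => 0) (fun _ => 1) = (SK a c q z).card := by
    intro z
    unfold boxK
    rw [filter_true_of_mem]
    intro p _ i
    exact Int.fract_lt_one _
  rw [e, e] at h1
  exact h1

theorem main_tuple (m : ℕ) (hm : 1 ≤ m) (P : Fin m → ℝ[X]) (η₀ : ℝ) (h0 : 0 < η₀) (h1 : η₀ ≤ 1) (N₁ : ℕ)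
    (hs : ∀ N : ℕ, N₁ ≤ N → ∀ (i : Fin m) (k : ℤ), k ≠ 0 → |(k : ℝ)| ≤ (N : ℝ) ^ η₀ → ∀ β : ℝ, ∀ y : ℕ, y ≤ N →
      ‖∑ p ∈ (Ioc 0 y).filter Nat.Prime, ee (k * (P i).eval (p : ℝ) + β * p)‖ ≤ (N : ℝ) ^ (1 - η₀)) :
    ∃ η : ℝ, 0 < η ∧ η ≤ 1 / 16 ∧ ∃ N₀ : ℕ, ∀ N : ℕ, N₀ ≤ N → ∃ B : Finset (Fin m → ℕ), (B.card : ℝ) ≤ (N : ℝ) ^ ((m : ℝ) - η) ∧
      ∀ a : Fin m → ℕ, (∀ i, a i ≤ N) → a ∉ B → ∀ q : ℕ, 1 ≤ q → (q : ℝ) ≤ (N : ℝ) ^ η → ∀ c y : ℕ, y ≤ N → ∀ u b : Fin m → ℝ,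
        (∀ i, 0 ≤ b i) → (∀ i, b i ≤ 1) →
        |(boxK P a c q y u b : ℝ) - (∏ i, b i) * (SK a c q y).card| ≤ (N : ℝ) ^ (1 - η) := by
  classical
  have hmr : (1 : ℝ) ≤ m := by exact_mod_cast hm
  obtain ⟨θ, hθ⟩ : ∃ θ, θ = η₀ / 16 := ⟨_, rfl⟩
  have hθ0 : 0 < θ := by rw [hθ]; positivity
  have hθη : η₀ = 16 * θ := by rw [hθ]; ring
  have hθ16 : θ ≤ 1 / 16 := by rw [hθ]; linarith
  obtain ⟨ρ, hρ⟩ : ∃ ρ, ρ = θ / (m + 1) := ⟨_, rfl⟩
  have hρ0 : 0 < ρ := by rw [hρ]; positivity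
  have hρm : ρ * (m + 1) = θ := by rw [hρ]; field_simp
  have hρθ : ρ ≤ θ := by nlinarith
  obtain ⟨n3, hn3⟩ := ev_pow (2 ^ (3 * m + 4)) (ρ / 2) (by positivity)
  refine ⟨ρ / 2, by positivity, by linarith, N₁ + n3 + 4, fun N hN => ?_⟩
  have hN4 : (4 : ℝ) ≤ N := by exact_mod_cast (by omega : 4 ≤ N)
  have hN1 : (1 : ℝ) ≤ N := by linarith
  have hN0 : (0 : ℝ) < N := by linarith
  have hbig : 2 ^ (3 * m + 4) ≤ (N : ℝ) ^ (ρ / 2) := hn3 N (by omega)
  have hbig2 : 2 ^ (3 * m + 4) ≤ (N : ℝ) ^ ρ := hbig.trans (Real.rpow_le_rpow_of_exponent_le hN1 (by linarith))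
  have h16 : (16 : ℝ) ≤ 2 ^ (3 * m + 4) := by
    calc (16 : ℝ) = 2 ^ 4 := by norm_num
      _ ≤ 2 ^ (3 * m + 4) := pow_le_pow_right₀ (by norm_num) (by omega)
  set L : ℕ := ⌊(N : ℝ) ^ ρ⌋₊ with hL
  have hLle : (L : ℝ) ≤ (N : ℝ) ^ ρ := Nat.floor_le (by positivity)
  have hLge : (N : ℝ) ^ ρ / 2 ≤ L := by
    have := Nat.lt_floor_add_one ((N : ℝ) ^ ρ)
    linarith
  have hL2 : 2 ≤ L := by
    have : (2 : ℝ) ≤ L := by linarith
    exact_mod_cast this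
  have hLr : (2 : ℝ) ≤ L := by exact_mod_cast hL2
  have hL0 : (0 : ℝ) < L := by linarith
  set F := Ioo (-((L ^ 3 : ℕ) : ℤ)) (L ^ 3 : ℕ) with hF
  have hFk : ∀ k ∈ F, |(k : ℝ)| ≤ ((2 * N : ℕ) : ℝ) ^ η₀ := by
    intro k hk
    rw [hF, mem_Ioo] at hk
    have h1 : |k| ≤ (L ^ 3 : ℕ) := by rw [abs_le]; omega
    have h2 : |(k : ℝ)| ≤ (L : ℝ) ^ 3 := by exact_mod_cast h1
    refine h2.trans ?_
    calc (L : ℝ) ^ 3 ≤ ((N : ℝ) ^ ρ) ^ 3 := pow_le_pow_left₀ hL0.le hLle 3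
      _ = (N : ℝ) ^ (ρ * 3) := by rw [← Real.rpow_natCast, ← Real.rpow_mul hN0.le]; norm_num
      _ ≤ (N : ℝ) ^ η₀ := Real.rpow_le_rpow_of_exponent_le hN1 (by linarith)
      _ ≤ ((2 * N : ℕ) : ℝ) ^ η₀ := Real.rpow_le_rpow hN0.le (by push_cast; linarith) h0.le
  have hFc : (F.card : ℝ) ≤ 2 * (L : ℝ) ^ 3 := by
    have h1 : F.card ≤ 2 * L ^ 3 := by
      rw [hF, Int.card_Ioo]
      have : (0 : ℤ) ≤ (L ^ 3 : ℕ) := by positivity
      omega
    have : (F.card : ℝ) ≤ ((2 * L ^ 3 : ℕ) : ℝ) := by exact_mod_cast h1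
    push_cast at this
    exact this
  set G : ℕ := N / L + 1 with hG
  have hGr : (G : ℝ) ≤ N / L + 1 := by
    rw [hG]; push_cast
    have : ((N / L : ℕ) : ℝ) ≤ N / L := Nat.cast_div_le
    linarith
  set W : ℝ := (N : ℝ) ^ (1 - 8 * θ) with hW
  have hW0 : 0 < W := by positivity
  obtain ⟨V, hV⟩ : ∃ V, V = 8 * (N : ℝ) ^ (1 - 16 * θ) := ⟨_, rfl⟩
  have hV0 : 0 ≤ V := by rw [hV]; positivity
  set S : (Fin m → ℤ) → ℕ → ℕ → ℕ → (Fin m → ℕ) → ℝ := fun k j c q a =>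
    ‖∑ n ∈ SK a c q (j * G), ee (∑ i, (k i : ℝ) * (P i).eval (((n + a i : ℕ)) : ℝ))‖ with hS
  set idx := ((Fintype.piFinset fun _ : Fin m => F) ×ˢ ((range (L + 1)) ×ˢ (range L ×ˢ Icc 1 L))).filter
    (fun i => i.1 ≠ 0 ∧ i.2.1 * G ≤ N) with hidx
  set B : Finset (Fin m → ℕ) := (Fintype.piFinset fun _ : Fin m => range (N + 1)).filter
    (fun a => ∃ i ∈ idx, W < S i.1 i.2.1 i.2.2.1 i.2.2.2 a) with hB
  refine ⟨B, ?_, ?_⟩
  · -- the number of exceptions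
    have h1 : B ⊆ idx.biUnion (fun i => (Fintype.piFinset fun _ : Fin m => range (N + 1)).filter (fun a => W < S i.1 i.2.1 i.2.2.1 i.2.2.2 a)) := by
      intro a ha
      rw [hB, mem_filter] at ha
      obtain ⟨i, hi, hi2⟩ := ha.2
      exact mem_biUnion.2 ⟨i, hi, mem_filter.2 ⟨ha.1, hi2⟩⟩
    have h2 : ∀ i ∈ idx, (((Fintype.piFinset fun _ : Fin m => range (N + 1)).filter (fun a => W < S i.1 i.2.1 i.2.2.1 i.2.2.2 a)).card : ℝ) ≤
        ((N : ℝ) + 1) ^ (m - 1) * V := by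
      intro i hi
      rw [hidx, mem_filter, mem_product, mem_product, mem_product, mem_Icc, Fintype.mem_piFinset] at hi
      obtain ⟨⟨hk, _, _, hq1, _⟩, hne, hjN⟩ := hi
      obtain ⟨i₀, hi₀⟩ := Function.ne_iff.1 hne
      apply bad_count i.2.2.1 i.2.2.2 (i.2.1 * G) N hjN i₀ (fun t n => (i.1 t : ℝ) * (P t).eval (n : ℝ)) (((2 * N : ℕ) : ℝ) ^ (1 - η₀)) W V hW0 hV0
      · intro β
        exact hs (2 * N) (by omega) i₀ (i.1 i₀) hi₀ (hFk _ (hk i₀)) β (2 * N) le_rfl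
      · have i1 : ((2 * N : ℕ) : ℝ) ^ (1 - η₀) ≤ 2 * (N : ℝ) ^ (1 - 16 * θ) := by
          push_cast
          rw [Real.mul_rpow (by norm_num) hN0.le, hθη]
          apply mul_le_mul_of_nonneg_right _ (by positivity)
          calc (2 : ℝ) ^ (1 - 16 * θ) ≤ 2 ^ (1 : ℝ) := Real.rpow_le_rpow_of_exponent_le (by norm_num) (by linarith)
            _ = 2 := Real.rpow_one 2
        calc (((2 * N : ℕ) : ℝ) ^ (1 - η₀)) ^ 2 * (2 * N) ≤ (2 * (N : ℝ) ^ (1 - 16 * θ)) ^ 2 * (2 * N) := by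
              apply mul_le_mul_of_nonneg_right _ (by positivity)
              exact pow_le_pow_left₀ (by positivity) i1 2
          _ = V * W ^ 2 := by
              have e1 : ((N : ℝ) ^ (1 - 16 * θ)) ^ 2 * N = (N : ℝ) ^ (1 - 16 * θ) * W ^ 2 := by
                rw [hW, ← Real.rpow_natCast, ← Real.rpow_natCast, ← Real.rpow_mul hN0.le, ← Real.rpow_mul hN0.le]
                nth_rewrite 2 [← Real.rpow_one (N : ℝ)]
                rw [← Real.rpow_add hN0, ← Real.rpow_add hN0]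
                congr 1; push_cast; ring
              calc (2 * (N : ℝ) ^ (1 - 16 * θ)) ^ 2 * (2 * N) = 8 * (((N : ℝ) ^ (1 - 16 * θ)) ^ 2 * N) := by ring
                _ = V * W ^ 2 := by rw [e1, hV]; ring
      · intro a ha
        rw [mem_filter, Fintype.mem_piFinset] at ha
        refine ⟨fun i => ?_, ha.2⟩
        have := mem_range.1 (ha.1 i)
        omega
    have h5 : (B.card : ℝ) ≤ ∑ i ∈ idx, (((Fintype.piFinset fun _ : Fin m => range (N + 1)).filter (fun a => W < S i.1 i.2.1 i.2.2.1 i.2.2.2 a)).card : ℝ) := by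
      have := (card_le_card h1).trans card_biUnion_le
      exact_mod_cast this
    have h6 : (idx.card : ℝ) ≤ 2 ^ (m + 1) * (L : ℝ) ^ (3 * (m + 1)) := by
      have h7 : (idx.card : ℝ) ≤ (((((Fintype.piFinset fun _ : Fin m => F) ×ˢ ((range (L + 1)) ×ˢ (range L ×ˢ Icc 1 L))).card : ℕ) : ℝ)) :=
        Nat.cast_le.2 (card_filter_le _ _)
      rw [card_product, card_product, card_product, card_range, card_range, Nat.card_Icc, Nat.add_sub_cancel,
        Fintype.card_piFinset_const] at h7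
      push_cast at h7
      calc (idx.card : ℝ) ≤ (F.card : ℝ) ^ m * ((L + 1) * (L * L)) := h7
        _ ≤ (2 * (L : ℝ) ^ 3) ^ m * ((2 * L) * (L * L)) := by
            apply mul_le_mul (pow_le_pow_left₀ (Nat.cast_nonneg _) hFc m) _ (by positivity) (by positivity)
            apply mul_le_mul_of_nonneg_right _ (by positivity)
            linarith
        _ = _ := by
            rw [mul_pow, ← pow_mul, show 3 * (m + 1) = 3 * m + 3 by ring, pow_add, pow_succ]; ring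
    have h8 : ((N : ℝ) + 1) ^ (m - 1) ≤ 2 ^ m * (N : ℝ) ^ ((m : ℝ) - 1) := by
      calc ((N : ℝ) + 1) ^ (m - 1) ≤ (2 * N) ^ (m - 1) := pow_le_pow_left₀ (by positivity) (by linarith) _
        _ = 2 ^ (m - 1) * (N : ℝ) ^ (m - 1) := mul_pow _ _ _
        _ ≤ 2 ^ m * (N : ℝ) ^ (m - 1) := mul_le_mul_of_nonneg_right (pow_le_pow_right₀ (by norm_num) (by omega)) (by positivity)
        _ = _ := by rw [← Real.rpow_natCast (N : ℝ) (m - 1), Nat.cast_sub hm, Nat.cast_one]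
    have h9 : (L : ℝ) ^ (3 * (m + 1)) ≤ (N : ℝ) ^ (3 * θ) := by
      calc (L : ℝ) ^ (3 * (m + 1)) ≤ ((N : ℝ) ^ ρ) ^ (3 * (m + 1)) := pow_le_pow_left₀ hL0.le hLle _
        _ = (N : ℝ) ^ (3 * θ) := by
            rw [← Real.rpow_natCast, ← Real.rpow_mul hN0.le]; congr 1; push_cast; rw [← hρm]; ring
    calc (B.card : ℝ) ≤ ∑ i ∈ idx, ((N : ℝ) + 1) ^ (m - 1) * V := h5.trans (sum_le_sum h2)
      _ = idx.card * (((N : ℝ) + 1) ^ (m - 1) * V) := by rw [sum_const, nsmul_eq_mul]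
      _ ≤ (2 ^ (m + 1) * (N : ℝ) ^ (3 * θ)) * ((2 ^ m * (N : ℝ) ^ ((m : ℝ) - 1)) * V) := by
          apply mul_le_mul (h6.trans (mul_le_mul_of_nonneg_left h9 (by positivity))) _ (by positivity) (by positivity)
          exact mul_le_mul_of_nonneg_right h8 hV0
      _ = 2 ^ (2 * m + 4) * (N : ℝ) ^ ((m : ℝ) - 13 * θ) := by
          have e1 : (N : ℝ) ^ ((m : ℝ) - 13 * θ) = (N : ℝ) ^ (3 * θ) * ((N : ℝ) ^ ((m : ℝ) - 1) * (N : ℝ) ^ (1 - 16 * θ)) := by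
            rw [← Real.rpow_add hN0, ← Real.rpow_add hN0]; congr 1; ring
          rw [e1, hV, show 2 * m + 4 = m + 1 + m + 3 by ring, pow_add, pow_add]; ring
      _ ≤ (N : ℝ) ^ (ρ / 2) * (N : ℝ) ^ ((m : ℝ) - 13 * θ) := by
          apply mul_le_mul_of_nonneg_right _ (by positivity)
          refine le_trans ?_ hbig
          exact pow_le_pow_right₀ (by norm_num) (by omega)
      _ = (N : ℝ) ^ (ρ / 2 + ((m : ℝ) - 13 * θ)) := by rw [← Real.rpow_add hN0]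
      _ ≤ _ := Real.rpow_le_rpow_of_exponent_le hN1 (by linarith)
  · intro a haN haB q hq1 hqN c' y hy u b hb hb'
    -- reduce the class
    set c : ℕ := c' % q with hc
    have hcq : c < q := Nat.mod_lt _ hq1
    have hmod : ∀ p : ℕ, p ≡ c' [MOD q] ↔ p ≡ c [MOD q] := fun p =>
      ⟨fun h => h.trans (Nat.mod_modEq c' q).symm, fun h => h.trans (Nat.mod_modEq c' q)⟩
    have hSKc : SK a c' q y = SK a c q y := by
      unfold SK
      apply filter_congr; intro p _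
      rw [hmod p]
    have hBXc : boxK P a c' q y u b = boxK P a c q y u b := by
      unfold boxK
      rw [hSKc]
    rw [hSKc, hBXc]
    have hqL : q ≤ L := by
      apply Nat.le_floor
      exact hqN.trans (Real.rpow_le_rpow_of_exponent_le hN1 (by linarith))
    set j : ℕ := y / G with hj
    have hG0 : 0 < G := by rw [hG]; exact Nat.succ_pos _
    have hjy : j * G ≤ y := Nat.div_mul_le_self y G
    have hjN : j * G ≤ N := hjy.trans hy
    have hyG : y - j * G ≤ G := by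
      have := Nat.mod_lt y hG0
      have h1 := Nat.div_add_mod y G
      rw [← hj] at h1
      rw [mul_comm] at h1
      omega
    have hjL : j ≤ L := by
      by_contra hcon
      push Not at hcon
      have h1 : (L + 1) * G ≤ N := (Nat.mul_le_mul_right G hcon).trans hjN
      have h2 : N < L * G := by
        rw [hG]
        have := Nat.lt_mul_div_succ N (by omega : 0 < L)
        linarith
      nlinarith
    have hWb : ∀ k : Fin m → ℤ, (∀ i, k i ∈ F) → k ≠ 0 →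
        ‖∑ n ∈ SK a c q (j * G), ee (∑ i, (k i : ℝ) * (P i).eval (((n + a i : ℕ)) : ℝ))‖ ≤ W := by
      intro k hk hkl
      by_contra hcon
      push Not at hcon
      apply haB
      rw [hB, mem_filter]
      exact ⟨Fintype.mem_piFinset.2 fun i => mem_range.2 (by have := haN i; omega), (k, (j, (c, q))), by
        rw [hidx, mem_filter, mem_product, mem_product, mem_product, mem_Icc]
        exact ⟨⟨Fintype.mem_piFinset.2 hk, mem_range.2 (Nat.lt_succ_of_le hjL), mem_range.2 (hcq.trans_le hqL), hq1, hqL⟩, hkl, hjN⟩, hcon⟩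
    have h1 := box_countK (SK a c q (j * G)) (fun i n => (P i).eval (((n + a i : ℕ)) : ℝ)) L hL2 W hW0.le hWb u b hb hb'
    have h1' : |(boxK P a c q (j * G) u b : ℝ) - (∏ i, b i) * (SK a c q (j * G)).card| ≤
        2 ^ m * (4 ^ (m + 1) * ((SK a c q (j * G)).card / L) + 4 ^ m * ((L : ℝ) ^ (3 * m) * W)) := by
      unfold boxK
      convert h1 using 6
    obtain ⟨w1, w2⟩ := boxK_window P a c q y (j * G) hjy u b
    obtain ⟨w3, w4⟩ := SK_window a c q y (j * G) hjy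
    have hyG' : (y : ℝ) - ((j * G : ℕ) : ℝ) ≤ G := by
      rw [← Nat.cast_sub hjy]; exact_mod_cast hyG
    have hb12 : 0 ≤ ∏ i, b i := prod_nonneg fun i _ => hb i
    have hb12' : ∏ i, b i ≤ 1 := prod_le_one (fun i _ => hb i) (fun i _ => hb' i)
    have hcard : ((SK a c q (j * G)).card : ℝ) ≤ N := by
      have h2 : (SK a c q (j * G)).card ≤ N := by
        refine (card_filter_le _ _).trans ?_
        rw [Nat.card_Ioc]; omega
      exact_mod_cast h2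
    have h3 : |(boxK P a c q y u b : ℝ) - (∏ i, b i) * (SK a c q y).card| ≤
        2 ^ m * (4 ^ (m + 1) * (N / L) + 4 ^ m * ((L : ℝ) ^ (3 * m) * W)) + G := by
      have h4 : 2 ^ m * (4 ^ (m + 1) * ((SK a c q (j * G)).card / L) + 4 ^ m * ((L : ℝ) ^ (3 * m) * W)) ≤
          2 ^ m * (4 ^ (m + 1) * ((N : ℝ) / L) + 4 ^ m * ((L : ℝ) ^ (3 * m) * W)) := by
        apply mul_le_mul_of_nonneg_left _ (by positivity)
        have := div_le_div_of_nonneg_right hcard hL0.le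
        have h5 := mul_le_mul_of_nonneg_left this (by positivity : (0 : ℝ) ≤ 4 ^ (m + 1))
        linarith
      have h5 : 0 ≤ (∏ i, b i) * (((SK a c q y).card : ℝ) - (SK a c q (j * G)).card) := mul_nonneg hb12 (by linarith)
      have h6 : (∏ i, b i) * (((SK a c q y).card : ℝ) - (SK a c q (j * G)).card) ≤ G := by
        calc (∏ i, b i) * (((SK a c q y).card : ℝ) - (SK a c q (j * G)).card) ≤ 1 * (((SK a c q y).card : ℝ) - (SK a c q (j * G)).card) :=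
              mul_le_mul_of_nonneg_right hb12' (by linarith)
          _ ≤ G := by linarith
      have h7 := h1'.trans h4
      have e : (boxK P a c q y u b : ℝ) - (∏ i, b i) * (SK a c q y).card =
          ((boxK P a c q (j * G) u b : ℝ) - (∏ i, b i) * (SK a c q (j * G)).card) +
          (((boxK P a c q y u b : ℝ) - boxK P a c q (j * G) u b) - (∏ i, b i) * (((SK a c q y).card : ℝ) - (SK a c q (j * G)).card)) := by ring
      rw [e]
      refine (abs_add_le _ _).trans (add_le_add h7 ?_)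
      rw [abs_le]
      constructor <;> linarith
    refine h3.trans ?_
    -- numerics
    have g1 : (N : ℝ) / L ≤ 2 * (N : ℝ) ^ (1 - ρ) := by
      rw [div_le_iff₀ hL0]
      have : (N : ℝ) ^ (1 - ρ) * (N : ℝ) ^ ρ = N := by rw [← Real.rpow_add hN0]; simp
      have h4 := mul_le_mul_of_nonneg_left hLge (by positivity : 0 ≤ 2 * (N : ℝ) ^ (1 - ρ))
      have h5 : 2 * (N : ℝ) ^ (1 - ρ) * ((N : ℝ) ^ ρ / 2) = N := by
        calc 2 * (N : ℝ) ^ (1 - ρ) * ((N : ℝ) ^ ρ / 2) = (N : ℝ) ^ (1 - ρ) * (N : ℝ) ^ ρ := by ring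
          _ = N := this
      linarith
    have g2 : (L : ℝ) ^ (3 * m) * W ≤ (N : ℝ) ^ (1 - ρ) := by
      calc (L : ℝ) ^ (3 * m) * W ≤ ((N : ℝ) ^ ρ) ^ (3 * m) * W := mul_le_mul_of_nonneg_right (pow_le_pow_left₀ hL0.le hLle _) hW0.le
        _ = (N : ℝ) ^ (ρ * (3 * m) + (1 - 8 * θ)) := by
            rw [hW, ← Real.rpow_natCast ((N : ℝ) ^ ρ), ← Real.rpow_mul hN0.le, ← Real.rpow_add hN0]
            push_cast; rfl
        _ ≤ _ := Real.rpow_le_rpow_of_exponent_le hN1 (by nlinarith)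
    have g3 : (1 : ℝ) ≤ (N : ℝ) ^ (1 - ρ) := Real.one_le_rpow hN1 (by linarith)
    have g4 : 2 ^ m * (4 ^ (m + 1) * ((N : ℝ) / L) + 4 ^ m * ((L : ℝ) ^ (3 * m) * W)) + G ≤ 2 ^ (3 * m + 4) * (N : ℝ) ^ (1 - ρ) := by
      have i1 : (4 : ℝ) ^ (m + 1) * ((N : ℝ) / L) ≤ 4 ^ (m + 1) * (2 * (N : ℝ) ^ (1 - ρ)) := mul_le_mul_of_nonneg_left g1 (by positivity)
      have i2 : (4 : ℝ) ^ m * ((L : ℝ) ^ (3 * m) * W) ≤ 4 ^ m * (N : ℝ) ^ (1 - ρ) := mul_le_mul_of_nonneg_left g2 (by positivity)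
      have i3 : (G : ℝ) ≤ 3 * (N : ℝ) ^ (1 - ρ) := by linarith
      have i4 : (2 : ℝ) ^ m * (4 ^ (m + 1) * ((N : ℝ) / L) + 4 ^ m * ((L : ℝ) ^ (3 * m) * W)) ≤
          2 ^ m * (4 ^ (m + 1) * (2 * (N : ℝ) ^ (1 - ρ)) + 4 ^ m * (N : ℝ) ^ (1 - ρ)) := mul_le_mul_of_nonneg_left (by linarith) (by positivity)
      have i5 : (2 : ℝ) ^ m * (4 ^ (m + 1) * (2 * (N : ℝ) ^ (1 - ρ)) + 4 ^ m * (N : ℝ) ^ (1 - ρ)) = 9 * (2 ^ (3 * m) * (N : ℝ) ^ (1 - ρ)) := by
        rw [show (4 : ℝ) = 2 * 2 by norm_num, pow_succ, mul_pow, show 3 * m = m + m + m by ring, pow_add, pow_add]; ring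
      have i6 : (1 : ℝ) ≤ 2 ^ (3 * m) := one_le_pow₀ (by norm_num)
      have i7 : (N : ℝ) ^ (1 - ρ) ≤ 2 ^ (3 * m) * (N : ℝ) ^ (1 - ρ) := le_mul_of_one_le_left (by positivity) i6
      have i8 : (2 : ℝ) ^ (3 * m + 4) * (N : ℝ) ^ (1 - ρ) = 16 * (2 ^ (3 * m) * (N : ℝ) ^ (1 - ρ)) := by rw [pow_add]; ring
      rw [i8]
      linarith
    refine g4.trans ?_
    have g5 : (N : ℝ) ^ (ρ / 2) * (N : ℝ) ^ (1 - ρ) = (N : ℝ) ^ (1 - ρ / 2) := by
      rw [← Real.rpow_add hN0]; congr 1; ring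
    rw [← g5]
    exact mul_le_mul_of_nonneg_right hbig (by positivity)

end Pool.Agent.H806.PD
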