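import Mathlib
import Pool.Agent.H806.PD.TM
import Pool.Agent.H806.PD.Fin
import Pool.Agent.Results.MP_51e72e_nt.ThinFamilySystems

/-! Asymptotic formulas for prime tuples with polynomial conditions. -/

set_option autoImplicit false

namespace Pool.Agent.H806.PD
open Finset Polynomial Filter Topology
open Pool.Agent.Results.MP_51e72e_nt (ThinFamilySystems.first)
open Pool.Agent.TH935.TF (om Gz Fq Gz_low loc_of)

/-- the shifts are distinct and admissible -/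
def AdmK {m : ℕ} (a : Fin m → ℕ) : Prop :=
  Function.Injective a ∧ ∀ p : ℕ, p.Prime → ∃ c : ℕ, ∀ i, ¬ a i ≡ c [MOD p]

/-- the number of the classes of `n` modulo `p` for which `p` divides some `n + a i` -/
def omK {m : ℕ} (a : Fin m → ℕ) (p : ℕ) : ℕ := ((range p).filter (fun n : ℕ => ∃ i, p ∣ n + a i)).card

/-- the partial products of the singular series -/
noncomputable def eulerK {m : ℕ} (a : Fin m → ℕ) (z : ℕ) : ℝ :=
  ∏ p ∈ (Icc 1 z).filter Nat.Prime, (1 - (omK a p : ℝ) / p) / (1 - 1 / (p : ℝ)) ^ m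

/-- the number of `y₁ < n ≤ y₂` with all `n + a i` prime -/
def tn {m : ℕ} (a : Fin m → ℕ) (y₁ y₂ : ℕ) : ℕ := ((Ioc y₁ y₂).filter (fun n : ℕ => ∀ i, (n + a i).Prime)).card

lemma omK_eq {m : ℕ} (a : Fin m → ℕ) (p : ℕ) : omK a p = om (fun _ => 1) (fun i => (a i : ℤ)) p := by
  unfold omK om
  congr 1
  apply filter_congr; intro n _
  apply exists_congr; intro i
  rw [one_mul]
  show p ∣ n + a i ↔ (p : ℤ) ∣ (n : ℤ) + ((a i : ℕ) : ℤ)
  rw [← Nat.cast_add, Int.natCast_dvd_natCast]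

lemma eulerK_eq {m : ℕ} (a : Fin m → ℕ) : eulerK a = fun z => Gz (om (fun _ => 1) (fun i => (a i : ℤ))) m z := by
  funext z
  unfold eulerK Gz Fq Pool.Agent.H373R2.T7.pz
  apply prod_congr rfl
  intro p _
  rw [omK_eq]

lemma euler_eq' {m : ℕ} (a : Fin m → ℕ) :
    Pool.Agent.Results.MP_51e72e_nt.ThinFamilySystems.eulerProd (fun _ => 1) (fun i => (a i : ℤ)) = eulerK a := by
  rw [Pool.Agent.Results.MP_51e72e_nt.ThinFamilySystems.euler_eq, eulerK_eq]

lemma adm_eq {m : ℕ} (a : Fin m → ℕ) (h : AdmK a) :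
    Pool.Agent.Results.MP_51e72e_nt.ThinFamilySystems.Admissible (fun _ => 1) (fun i => (a i : ℤ)) := by
  refine ⟨fun i => one_ne_zero, fun i j hij => ⟨fun h1 => hij (h.1 (Int.ofNat_inj.1 h1.2)), fun h1 => by norm_num at h1⟩, ?_⟩
  intro p hp
  obtain ⟨c, hc⟩ := h.2 p hp
  refine ⟨-(c : ℤ), fun h1 => ?_⟩
  rw [Pool.Agent.Results.MP_51e72e_nt.ThinFamilySystems.dvd_prod _ _ p hp] at h1
  obtain ⟨i, hi⟩ := h1
  apply hc i
  have h2 : (c : ℤ) ≡ a i [ZMOD p] := by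
    rw [Int.modEq_iff_dvd]
    convert hi using 1
    ring
  exact (Int.natCast_modEq_iff.1 h2).symm

lemma loc_eq {m : ℕ} (a : Fin m → ℕ) (h : AdmK a) : ∃ bad, Pool.Agent.TH935.TF.Loc (om (fun _ => 1) (fun i => (a i : ℤ))) m bad := by
  have h1 := adm_eq a h
  exact ⟨_, loc_of (Pool.Agent.Results.MP_51e72e_nt.ThinFamilySystems.adm_of _ _ h1) h1.2.1 h1.1⟩

lemma euler_low (m : ℕ) (hm : 1 ≤ m) : ∃ c₀ : ℝ, 0 < c₀ ∧ ∀ (a : Fin m → ℕ) (S : ℝ), AdmK a → Tendsto (eulerK a) atTop (𝓝 S) → c₀ ≤ S := by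
  obtain ⟨c₀, h0, h1⟩ := Gz_low m hm
  refine ⟨c₀, h0, fun a S ha hS => ?_⟩
  obtain ⟨bad, hb⟩ := loc_eq a ha
  apply ge_of_tendsto' hS
  intro z
  rw [eulerK_eq]
  exact h1 _ bad hb z

lemma count_eq {m : ℕ} (a : Fin m → ℕ) (y₁ y₂ : ℕ) :
    Pool.Agent.Results.MP_51e72e_nt.ThinFamilySystems.count (fun _ => 1) (fun i => (a i : ℤ)) y₁ y₂ = tn a y₁ y₂ := by
  unfold Pool.Agent.Results.MP_51e72e_nt.ThinFamilySystems.count tn
  congr 1
  apply filter_congr; intro n _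
  apply forall_congr'; intro i
  have : (1 * (n : ℤ) + a i).natAbs = n + a i := by
    rw [one_mul]; exact_mod_cast Int.natAbs_natCast (n + a i)
  rw [this]

lemma energy_fin (N : ℕ) : Pool.Agent.Results.MP_51e72e_nt.ThinFamilySystems.energy 1 (fun j : Fin (N + 1) => ((j : ℕ) : ℤ)) ≤ N + 1 := by
  classical
  unfold Pool.Agent.Results.MP_51e72e_nt.ThinFamilySystems.energy
  have h1 : Nat.card {q : (Fin 1 → Fin (N + 1)) × (Fin 1 → Fin (N + 1)) // ∑ j, (((q.1 j : Fin (N + 1)) : ℕ) : ℤ) = ∑ j, (((q.2 j : Fin (N + 1)) : ℕ) : ℤ)} ≤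
      Nat.card (Fin (N + 1)) := by
    apply Nat.card_le_card_of_injective (fun q => q.1.1 0)
    intro q q' h
    have hq := q.2
    have hq' := q'.2
    simp only [Fin.sum_univ_one] at hq hq' h
    have e1 : q.1.1 0 = q.1.2 0 := by
      apply Fin.ext; exact_mod_cast hq
    have e2 : q'.1.1 0 = q'.1.2 0 := by
      apply Fin.ext; exact_mod_cast hq'
    apply Subtype.ext
    apply Prod.ext
    · funext i; rw [Subsingleton.elim i 0]; exact h
    · funext i; rw [Subsingleton.elim i 0, ← e1, ← e2]; exact h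
  rwa [Nat.card_eq_fintype_card (α := Fin (N + 1)), Fintype.card_fin] at h1

/-- the Hardy–Littlewood asymptotics for almost all vectors of shifts -/
theorem tuple_hl (m : ℕ) (hm : 1 ≤ m) (ε : ℝ) (hε : 0 < ε) (A W : ℕ) : ∃ N₀ : ℕ, ∀ N : ℕ, N₀ ≤ N → ∃ E : Finset (Fin m → ℕ),
    (E.card : ℝ) ≤ (N : ℝ) ^ m / Real.log N ^ A / 2 ∧
    ∀ a : Fin m → ℕ, (∀ i, a i ≤ N) → AdmK a → a ∉ E → ∃ S : ℝ, 0 < S ∧ Tendsto (eulerK a) atTop (𝓝 S) ∧
      ∀ y₁ y₂ : ℕ, y₁ < y₂ → y₂ ≤ N → (N : ℝ) / Real.log N ^ W ≤ (y₂ : ℝ) - y₁ →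
        |(tn a y₁ y₂ : ℝ) - S * ((y₂ : ℝ) - y₁) / Real.log N ^ m| ≤ ε * (S * ((y₂ : ℝ) - y₁) / Real.log N ^ m) := by
  classical
  obtain ⟨n0, h0⟩ := ThinFamilySystems.first m 1 W 1 0 0 (A + 1) hm ε hε
  obtain ⟨n1, h1⟩ := Pool.Agent.H373R2.T7.ev_L' (2 ^ (m + 1))
  refine ⟨n0 + n1 + 1, fun N hN => ?_⟩
  have hL := h1 N (by omega)
  have hL0 : 0 < Real.log N := lt_of_lt_of_le (by positivity) hL
  have hN1 : (1 : ℝ) ≤ N := by exact_mod_cast (by omega : 1 ≤ N)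
  have hN0 : (0 : ℝ) < N := by linarith
  have key := h0 N (by omega) (fun _ => Fin (N + 1)) (fun _ j => ((j : ℕ) : ℤ)) (by
    intro i j
    rw [Nat.abs_cast, Nat.cast_one, one_mul]
    have := j.2
    exact_mod_cast (by omega : (j : ℕ) ≤ N)) (by
    intro i
    rw [pow_zero, one_mul, Fintype.card_fin]
    have g1 : ((Pool.Agent.Results.MP_51e72e_nt.ThinFamilySystems.energy 1 (fun j : Fin (N + 1) => ((j : ℕ) : ℤ)) : ℕ) : ℝ) ≤ ((N + 1 : ℕ) : ℝ) := by
      exact_mod_cast energy_fin N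
    calc ((Pool.Agent.Results.MP_51e72e_nt.ThinFamilySystems.energy 1 (fun j : Fin (N + 1) => ((j : ℕ) : ℤ)) : ℕ) : ℝ) * N
        ≤ ((N + 1 : ℕ) : ℝ) * ((N + 1 : ℕ) : ℝ) := mul_le_mul g1 (by push_cast; linarith) hN0.le (by positivity)
      _ = _ := by ring)
  unfold Pool.Agent.Results.MP_51e72e_nt.ThinFamilySystems.exceptions at key
  rw [Finset.prod_const, card_univ, Fintype.card_fin, Fintype.card_fin] at key
  set X := (univ.filter (fun q : ∀ _ : Fin m, Fin (N + 1) => ¬ Pool.Agent.Results.MP_51e72e_nt.ThinFamilySystems.Holds ε W 1 0 N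
    (fun i => (((q i : Fin (N + 1)) : ℕ) : ℤ)))) with hX
  refine ⟨X.image (fun q i => ((q i : Fin (N + 1)) : ℕ)), ?_, ?_⟩
  · have g1 : ((X.image (fun q i => ((q i : Fin (N + 1)) : ℕ))).card : ℝ) ≤ X.card := by exact_mod_cast card_image_le
    refine (g1.trans key).trans ?_
    rw [div_div, div_le_div_iff₀ (by positivity) (by positivity)]
    have g2 : ((N + 1 : ℕ) : ℝ) ^ m ≤ 2 ^ m * (N : ℝ) ^ m := by
      rw [← mul_pow]
      apply pow_le_pow_left₀ (by positivity)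
      push_cast; linarith
    calc ((N + 1 : ℕ) : ℝ) ^ m * (Real.log N ^ A * 2) ≤ (2 ^ m * (N : ℝ) ^ m) * (Real.log N ^ A * 2) :=
          mul_le_mul_of_nonneg_right g2 (by positivity)
      _ = (N : ℝ) ^ m * (Real.log N ^ A * 2 ^ (m + 1)) := by ring
      _ ≤ (N : ℝ) ^ m * (Real.log N ^ A * Real.log N) := by
          apply mul_le_mul_of_nonneg_left _ (by positivity)
          exact mul_le_mul_of_nonneg_left hL (by positivity)
      _ = _ := by rw [pow_succ]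
  · intro a haN hadm haE
    have hH : Pool.Agent.Results.MP_51e72e_nt.ThinFamilySystems.Holds ε W 1 0 N (fun i => (a i : ℤ)) := by
      by_contra hcon
      apply haE
      rw [mem_image]
      refine ⟨fun i => ⟨a i, by have := haN i; omega⟩, ?_, rfl⟩
      rw [hX, mem_filter]
      exact ⟨mem_univ _, hcon⟩
    obtain ⟨S, hS0, hSt, hS⟩ := hH (fun _ => 1) (fun i => by simp) (adm_eq a hadm)
    rw [euler_eq'] at hSt
    refine ⟨S, hS0, hSt, fun y₁ y₂ hy hyN hlen => ?_⟩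
    have := hS y₁ y₂ hy (by omega) hlen
    rwa [count_eq] at this

end Pool.Agent.H806.PD
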