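import Mathlib
import Pool.Agent.H806.PD.TA

/-! Prime tuples with polynomial conditions: windows, asymptotics, existence. -/

set_option autoImplicit false

namespace Pool.Agent.H806.PD
open Finset Polynomial Filter Topology

/-- the number of `y₁ < n ≤ y₂`, `n ≡ c (mod q)`, with all `n + a i` prime and `P i (n + a i)` in given arcs -/
noncomputable def wboxK {m : ℕ} (P : Fin m → ℝ[X]) (a : Fin m → ℕ) (c q y₁ y₂ : ℕ) (u b : Fin m → ℝ) : ℕ := by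
  classical
  exact ((Ioc y₁ y₂).filter (fun n : ℕ => ((∀ i, (n + a i).Prime) ∧ n ≡ c [MOD q]) ∧
    ∀ i, Int.fract ((P i).eval (((n + a i : ℕ)) : ℝ) - u i) < b i)).card

/-- the number of `y₁ < n ≤ y₂`, `n ≡ c (mod q)`, with all `n + a i` prime -/
def wnumK {m : ℕ} (a : Fin m → ℕ) (c q y₁ y₂ : ℕ) : ℕ :=
  ((Ioc y₁ y₂).filter (fun n : ℕ => (∀ i, (n + a i).Prime) ∧ n ≡ c [MOD q])).card

lemma wboxK_add {m : ℕ} (P : Fin m → ℝ[X]) (a : Fin m → ℕ) (c q y₁ y₂ : ℕ) (hy : y₁ ≤ y₂) (u b : Fin m → ℝ) :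
    wboxK P a c q y₁ y₂ u b + boxK P a c q y₁ u b = boxK P a c q y₂ u b := by
  classical
  unfold wboxK boxK SK
  rw [filter_filter, filter_filter, ← card_union_of_disjoint]
  · congr 1
    ext p
    rw [mem_union, mem_filter, mem_filter, mem_filter, mem_Ioc, mem_Ioc, mem_Ioc]
    constructor
    · rintro (⟨⟨h1, h2⟩, h3⟩ | ⟨⟨h1, h2⟩, h3⟩)
      · exact ⟨⟨by omega, h2⟩, h3⟩
      · exact ⟨⟨h1, by omega⟩, h3⟩
    · rintro ⟨⟨h1, h2⟩, h3⟩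
      rcases le_or_gt p y₁ with h | h
      · exact Or.inr ⟨⟨h1, h⟩, h3⟩
      · exact Or.inl ⟨⟨h, h2⟩, h3⟩
  · rw [disjoint_left]
    intro p hp hp'
    rw [mem_filter, mem_Ioc] at hp hp'
    omega

lemma wnumK_add {m : ℕ} (a : Fin m → ℕ) (c q y₁ y₂ : ℕ) (hy : y₁ ≤ y₂) :
    wnumK a c q y₁ y₂ + (SK a c q y₁).card = (SK a c q y₂).card := by
  classical
  unfold wnumK SK
  rw [← card_union_of_disjoint]
  · congr 1
    ext p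
    rw [mem_union, mem_filter, mem_filter, mem_filter, mem_Ioc, mem_Ioc, mem_Ioc]
    constructor
    · rintro (⟨⟨h1, h2⟩, h3⟩ | ⟨⟨h1, h2⟩, h3⟩)
      · exact ⟨⟨by omega, h2⟩, h3⟩
      · exact ⟨⟨h1, by omega⟩, h3⟩
    · rintro ⟨⟨h1, h2⟩, h3⟩
      rcases le_or_gt p y₁ with h | h
      · exact Or.inr ⟨⟨h1, h⟩, h3⟩
      · exact Or.inl ⟨⟨h, h2⟩, h3⟩
  · rw [disjoint_left]
    intro p hp hp'
    rw [mem_filter, mem_Ioc] at hp hp'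
    omega

lemma wnumK_tn {m : ℕ} (a : Fin m → ℕ) (y₁ y₂ : ℕ) : wnumK a 0 1 y₁ y₂ = tn a y₁ y₂ := by
  classical
  unfold wnumK tn
  congr 1
  apply filter_congr; intro p _
  exact ⟨fun h => h.1, fun h => ⟨h, Nat.modEq_one⟩⟩

/-- equidistribution in windows -/
theorem tuple_window (m : ℕ) (P : Fin m → ℝ[X]) (η : ℝ) (hη : 0 < η) (N₁ : ℕ)
    (hmain : ∀ N : ℕ, N₁ ≤ N → ∃ B : Finset (Fin m → ℕ), (B.card : ℝ) ≤ (N : ℝ) ^ ((m : ℝ) - η) ∧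
      ∀ a : Fin m → ℕ, (∀ i, a i ≤ N) → a ∉ B → ∀ q : ℕ, 1 ≤ q → (q : ℝ) ≤ (N : ℝ) ^ η → ∀ c y : ℕ, y ≤ N → ∀ u b : Fin m → ℝ,
        (∀ i, 0 ≤ b i) → (∀ i, b i ≤ 1) →
        |(boxK P a c q y u b : ℝ) - (∏ i, b i) * (SK a c q y).card| ≤ (N : ℝ) ^ (1 - η)) :
    ∃ N₀ : ℕ, ∀ N : ℕ, N₀ ≤ N → ∃ B : Finset (Fin m → ℕ), (B.card : ℝ) ≤ (N : ℝ) ^ ((m : ℝ) - η / 2) ∧
      ∀ a : Fin m → ℕ, (∀ i, a i ≤ N) → a ∉ B → ∀ q : ℕ, 1 ≤ q → (q : ℝ) ≤ (N : ℝ) ^ (η / 2) → ∀ c y₁ y₂ : ℕ, y₁ ≤ y₂ → y₂ ≤ N →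
        ∀ u b : Fin m → ℝ, (∀ i, 0 ≤ b i) → (∀ i, b i ≤ 1) →
        |(wboxK P a c q y₁ y₂ u b : ℝ) - (∏ i, b i) * wnumK a c q y₁ y₂| ≤ (N : ℝ) ^ (1 - η / 2) := by
  obtain ⟨n1, h1⟩ := ev_pow 2 (η / 2) (by positivity)
  refine ⟨N₁ + n1 + 1, fun N hN => ?_⟩
  have hN1 : (1 : ℝ) ≤ N := by exact_mod_cast (by omega : 1 ≤ N)
  have hN0 : (0 : ℝ) < N := by linarith
  obtain ⟨B, hB1, hB2⟩ := hmain N (by omega)
  have e1 := h1 N (by omega)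
  have e2 : 2 * (N : ℝ) ^ (1 - η) ≤ (N : ℝ) ^ (1 - η / 2) := by
    calc 2 * (N : ℝ) ^ (1 - η) ≤ (N : ℝ) ^ (η / 2) * (N : ℝ) ^ (1 - η) := mul_le_mul_of_nonneg_right e1 (by positivity)
      _ = _ := by rw [← Real.rpow_add hN0]; congr 1; ring
  refine ⟨B, hB1.trans (Real.rpow_le_rpow_of_exponent_le hN1 (by linarith)), ?_⟩
  intro a ha haB q hq1 hqN c y₁ y₂ hy hyN u b hb hb'
  have hqN' : (q : ℝ) ≤ (N : ℝ) ^ η := hqN.trans (Real.rpow_le_rpow_of_exponent_le hN1 (by linarith))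
  have g1 := hB2 a ha haB q hq1 hqN' c y₁ (hy.trans hyN) u b hb hb'
  have g2 := hB2 a ha haB q hq1 hqN' c y₂ hyN u b hb hb'
  have g3 : (wboxK P a c q y₁ y₂ u b : ℝ) = boxK P a c q y₂ u b - boxK P a c q y₁ u b := by
    rw [← wboxK_add P a c q y₁ y₂ hy u b]; push_cast; ring
  have g4 : (wnumK a c q y₁ y₂ : ℝ) = (SK a c q y₂).card - (SK a c q y₁).card := by
    rw [← wnumK_add a c q y₁ y₂ hy]; push_cast; ring
  rw [g3, g4]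
  refine le_trans ?_ e2
  have e : (boxK P a c q y₂ u b : ℝ) - boxK P a c q y₁ u b - (∏ i, b i) * ((SK a c q y₂).card - (SK a c q y₁).card) =
      ((boxK P a c q y₂ u b : ℝ) - (∏ i, b i) * (SK a c q y₂).card) -
      ((boxK P a c q y₁ u b : ℝ) - (∏ i, b i) * (SK a c q y₁).card) := by ring
  rw [e]
  exact (abs_sub _ _).trans (by linarith)

/-- asymptotic formula for almost all vectors of shifts, in all windows -/
theorem tuple_almost (m : ℕ) (hm : 1 ≤ m) (P : Fin m → ℝ[X]) (η : ℝ) (hη : 0 < η) (N₁ : ℕ)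
    (hmain : ∀ N : ℕ, N₁ ≤ N → ∃ B : Finset (Fin m → ℕ), (B.card : ℝ) ≤ (N : ℝ) ^ ((m : ℝ) - η) ∧
      ∀ a : Fin m → ℕ, (∀ i, a i ≤ N) → a ∉ B → ∀ q : ℕ, 1 ≤ q → (q : ℝ) ≤ (N : ℝ) ^ η → ∀ c y₁ y₂ : ℕ, y₁ ≤ y₂ → y₂ ≤ N →
        ∀ u b : Fin m → ℝ, (∀ i, 0 ≤ b i) → (∀ i, b i ≤ 1) →
        |(wboxK P a c q y₁ y₂ u b : ℝ) - (∏ i, b i) * wnumK a c q y₁ y₂| ≤ (N : ℝ) ^ (1 - η))
    (ε : ℝ) (hε : 0 < ε) (A W : ℕ) :
    ∃ N₀ : ℕ, ∀ N : ℕ, N₀ ≤ N → ∃ E : Finset (Fin m → ℕ), (E.card : ℝ) ≤ (N : ℝ) ^ m / Real.log N ^ A ∧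
      ∀ a : Fin m → ℕ, (∀ i, a i ≤ N) → AdmK a → a ∉ E → ∃ S : ℝ, 0 < S ∧ Tendsto (eulerK a) atTop (𝓝 S) ∧
      ∀ y₁ y₂ : ℕ, y₁ < y₂ → y₂ ≤ N → (N : ℝ) / Real.log N ^ W ≤ (y₂ : ℝ) - y₁ → ∀ u b : Fin m → ℝ,
      (∀ i, (N : ℝ) ^ (-(η / (2 * m))) ≤ b i) → (∀ i, b i ≤ 1) →
      |(wboxK P a 0 1 y₁ y₂ u b : ℝ) - (∏ i, b i) * (S * ((y₂ : ℝ) - y₁) / Real.log N ^ m)| ≤
        ε * ((∏ i, b i) * (S * ((y₂ : ℝ) - y₁) / Real.log N ^ m)) := by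
  classical
  have hmr : (1 : ℝ) ≤ m := by exact_mod_cast hm
  obtain ⟨c₀, hc0, hc1⟩ := euler_low m hm
  obtain ⟨n2, h2⟩ := tuple_hl m hm (ε / 2) (by positivity) A W
  obtain ⟨n3, h3⟩ := ev_logpow' 2 (by norm_num) A η hη
  obtain ⟨n4, h4⟩ := ev_logpow' (2 / (ε * c₀)) (by positivity) (W + m) (η / 2) (by positivity)
  refine ⟨N₁ + n2 + n3 + n4 + 4, fun N hN => ?_⟩
  have hN1 : (1 : ℝ) ≤ N := by exact_mod_cast (by omega : 1 ≤ N)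
  have hN4 : (4 : ℝ) ≤ N := by exact_mod_cast (by omega : 4 ≤ N)
  have hN0 : (0 : ℝ) < N := by linarith
  have hLN : 0 < Real.log N := Real.log_pos (by linarith)
  obtain ⟨B, hB1, hB2⟩ := hmain N (by omega)
  obtain ⟨E', hE1, hE2⟩ := h2 N (by omega)
  have e3 := h3 N (by omega)
  have e4 := h4 N (by omega)
  refine ⟨B ∪ E', ?_, ?_⟩
  · have g1 : ((B ∪ E').card : ℝ) ≤ B.card + E'.card := by exact_mod_cast card_union_le B E'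
    have g3 : (N : ℝ) ^ ((m : ℝ) - η) ≤ (N : ℝ) ^ m / Real.log N ^ A / 2 := by
      rw [div_div, le_div_iff₀ (by positivity)]
      calc (N : ℝ) ^ ((m : ℝ) - η) * (Real.log N ^ A * 2) = (N : ℝ) ^ ((m : ℝ) - η) * (2 * Real.log N ^ A) := by ring
        _ ≤ (N : ℝ) ^ ((m : ℝ) - η) * (N : ℝ) ^ η := mul_le_mul_of_nonneg_left e3 (by positivity)
        _ = (N : ℝ) ^ m := by rw [← Real.rpow_add hN0, sub_add_cancel, Real.rpow_natCast]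
    linarith
  · intro a haN hadm haE
    rw [mem_union, not_or] at haE
    obtain ⟨S, hS0, hSt, hS⟩ := hE2 a haN hadm haE.2
    have hSc := hc1 a S hadm hSt
    refine ⟨S, hS0, hSt, fun y₁ y₂ hy hyN hlen u b hb hb' => ?_⟩
    have hbpos : ∀ i, 0 < b i := fun i => lt_of_lt_of_le (by positivity) (hb i)
    have hbb0 : 0 < ∏ i, b i := prod_pos fun i _ => hbpos i
    have g1 := hB2 a haN haE.1 1 le_rfl (by rw [Nat.cast_one]; exact Real.one_le_rpow hN1 hη.le) 0 y₁ y₂ hy.le hyN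
      u b (fun i => (hbpos i).le) hb'
    rw [wnumK_tn] at g1
    have g2 := hS y₁ y₂ hy hyN hlen
    obtain ⟨D, hD⟩ : ∃ D, D = (y₂ : ℝ) - y₁ := ⟨_, rfl⟩
    rw [← hD] at hlen g2 ⊢
    obtain ⟨M, hM⟩ : ∃ M, M = S * D / Real.log N ^ m := ⟨_, rfl⟩
    rw [← hM] at g2 ⊢
    have hD0 : 0 < D := lt_of_lt_of_le (by positivity) hlen
    have hM0 : 0 < M := by rw [hM]; positivity
    have hMge : c₀ * ((N : ℝ) / Real.log N ^ (W + m)) ≤ M := by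
      calc c₀ * ((N : ℝ) / Real.log N ^ (W + m)) = c₀ * (N / Real.log N ^ W) / Real.log N ^ m := by
            rw [pow_add]; field_simp
        _ ≤ S * D / Real.log N ^ m := by
            apply div_le_div_of_nonneg_right _ (by positivity)
            exact mul_le_mul hSc hlen (by positivity) hS0.le
        _ = M := hM.symm
    have hbb : (N : ℝ) ^ (-(η / 2)) ≤ ∏ i, b i := by
      calc (N : ℝ) ^ (-(η / 2)) = ∏ _i : Fin m, (N : ℝ) ^ (-(η / (2 * m))) := by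
            rw [prod_const, card_univ, Fintype.card_fin, ← Real.rpow_natCast, ← Real.rpow_mul hN0.le]
            congr 1; field_simp
        _ ≤ ∏ i, b i := prod_le_prod (fun i _ => by positivity) (fun i _ => hb i)
    have hsmall : (N : ℝ) ^ (1 - η) ≤ ε / 2 * ((∏ i, b i) * M) := by
      have i1 : (N : ℝ) ^ (-(η / 2)) * (c₀ * ((N : ℝ) / Real.log N ^ (W + m))) ≤ (∏ i, b i) * M :=
        mul_le_mul hbb hMge (by positivity) hbb0.le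
      have i2 : (N : ℝ) ^ (1 - η) ≤ ε / 2 * ((N : ℝ) ^ (-(η / 2)) * (c₀ * ((N : ℝ) / Real.log N ^ (W + m)))) := by
        have hlp : 0 < Real.log N ^ (W + m) := by positivity
        have i3 : ε / 2 * ((N : ℝ) ^ (-(η / 2)) * (c₀ * ((N : ℝ) / Real.log N ^ (W + m)))) =
            (ε * c₀ / 2) * ((N : ℝ) ^ (-(η / 2)) * N) / Real.log N ^ (W + m) := by ring
        rw [i3, le_div_iff₀ hlp]
        have i4 : (N : ℝ) ^ (-(η / 2)) * N = (N : ℝ) ^ (1 - η / 2) := by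
          nth_rewrite 2 [← Real.rpow_one (N : ℝ)]
          rw [← Real.rpow_add hN0]; congr 1; ring
        rw [i4]
        have i5 : (N : ℝ) ^ (1 - η) * Real.log N ^ (W + m) = (ε * c₀ / 2) * ((2 / (ε * c₀) * Real.log N ^ (W + m)) * (N : ℝ) ^ (1 - η)) := by
          field_simp
        rw [i5]
        apply mul_le_mul_of_nonneg_left _ (by positivity)
        calc (2 / (ε * c₀) * Real.log N ^ (W + m)) * (N : ℝ) ^ (1 - η) ≤ (N : ℝ) ^ (η / 2) * (N : ℝ) ^ (1 - η) :=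
              mul_le_mul_of_nonneg_right e4 (by positivity)
          _ = (N : ℝ) ^ (1 - η / 2) := by rw [← Real.rpow_add hN0]; congr 1; ring
      exact i2.trans (mul_le_mul_of_nonneg_left i1 (by positivity))
    have g3 : |(∏ i, b i) * (tn a y₁ y₂ : ℝ) - (∏ i, b i) * M| ≤ ε / 2 * ((∏ i, b i) * M) := by
      rw [← mul_sub, abs_mul, abs_of_pos hbb0]
      calc (∏ i, b i) * |(tn a y₁ y₂ : ℝ) - M| ≤ (∏ i, b i) * (ε / 2 * M) := mul_le_mul_of_nonneg_left g2 hbb0.le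
        _ = _ := by ring
    calc |(wboxK P a 0 1 y₁ y₂ u b : ℝ) - (∏ i, b i) * M|
        ≤ |(wboxK P a 0 1 y₁ y₂ u b : ℝ) - (∏ i, b i) * tn a y₁ y₂| + |(∏ i, b i) * (tn a y₁ y₂ : ℝ) - (∏ i, b i) * M| :=
          abs_sub_le _ _ _
      _ ≤ ε / 2 * ((∏ i, b i) * M) + ε / 2 * ((∏ i, b i) * M) := add_le_add (g1.trans hsmall) g3
      _ = _ := by ring

/-- existence in a window -/
lemma exists_of_box {m : ℕ} (P : Fin m → ℝ[X]) (a : Fin m → ℕ) (y₁ y₂ : ℕ) (δ M : ℝ) (hδ : 0 < δ) (hM : 0 < M)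
    (u : Fin m → ℝ) (h : |(wboxK P a 0 1 y₁ y₂ u (fun _ => δ) : ℝ) - (∏ _i : Fin m, δ) * M| ≤ 1 / 2 * ((∏ _i : Fin m, δ) * M)) :
    ∃ n : ℕ, y₁ < n ∧ n ≤ y₂ ∧ ∀ i, (n + a i).Prime ∧ ∃ k : ℤ, |(P i).eval (((n + a i : ℕ)) : ℝ) - u i - k| ≤ δ := by
  classical
  have hp : 0 < (∏ _i : Fin m, δ) * M := mul_pos (prod_pos fun _ _ => hδ) hM
  have hpos : 0 < (wboxK P a 0 1 y₁ y₂ u (fun _ => δ) : ℝ) := by
    have := (abs_le.1 h).1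
    linarith
  have hne : wboxK P a 0 1 y₁ y₂ u (fun _ => δ) ≠ 0 := by
    intro h00; rw [h00] at hpos; simp at hpos
  unfold wboxK at hne
  obtain ⟨n, hn⟩ := card_pos.1 (Nat.pos_of_ne_zero hne)
  rw [mem_filter, mem_Ioc] at hn
  obtain ⟨⟨h1, h2⟩, ⟨h3, _⟩, h4⟩ := hn
  refine ⟨n, h1, h2, fun i => ⟨h3 i, ⌊(P i).eval (((n + a i : ℕ)) : ℝ) - u i⌋, ?_⟩⟩
  have : (P i).eval (((n + a i : ℕ)) : ℝ) - u i - ⌊(P i).eval (((n + a i : ℕ)) : ℝ) - u i⌋ =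
      Int.fract ((P i).eval (((n + a i : ℕ)) : ℝ) - u i) := rfl
  rw [this, abs_of_nonneg (Int.fract_nonneg _)]
  exact (h4 i).le

end Pool.Agent.H806.PD
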